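import Mathlib

set_option autoImplicit false
set_option linter.unusedVariables false
set_option linter.unusedSectionVars false

/-!
Elementary Alexander-Spanier style cohomology in degrees `0,1,2`, for a filter of small sets.
-/

open Filter Set

namespace Pool.Agent.Helper95.Wedge

/-- coboundary of a 1-cochain -/
def d1 {X F : Type*} [CommRing F] (ψ : X → X → F) (x y z : X) : F := ψ y z - ψ x z + ψ x y

/-- coboundary of a 2-cochain -/
def d2 {X F : Type*} [CommRing F] (φ : X → X → X → F) (x y z w : X) : F :=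
  φ y z w - φ x z w + φ x y w - φ x y z

section Defs

variable {X : Type*}

/-- `p` holds on small sets -/
def Ev1 (K : Filter (Set X)) (p : X → Prop) : Prop := ∀ᶠ S in K, ∀ x ∈ S, p x
def Ev2 (K : Filter (Set X)) (p : X → X → Prop) : Prop := ∀ᶠ S in K, ∀ x ∈ S, ∀ y ∈ S, p x y
def Ev3 (K : Filter (Set X)) (p : X → X → X → Prop) : Prop :=
  ∀ᶠ S in K, ∀ x ∈ S, ∀ y ∈ S, ∀ z ∈ S, p x y z
def Ev4 (K : Filter (Set X)) (p : X → X → X → X → Prop) : Prop :=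
  ∀ᶠ S in K, ∀ x ∈ S, ∀ y ∈ S, ∀ z ∈ S, ∀ w ∈ S, p x y z w

/-- small families are closed under nonempty subsets -/
def Low (K : Filter (Set X)) : Prop :=
  ∀ E ∈ K, {S : Set X | ∀ T ⊆ S, T.Nonempty → T ∈ E} ∈ K

variable (F : Type*) [CommRing F]

def Z0 (K : Filter (Set X)) (χ : X → F) : Prop := Ev2 K (fun x y => χ x = χ y)
def Z1 (K : Filter (Set X)) (φ : X → X → F) : Prop := Ev3 K (fun x y z => d1 φ x y z = 0)
def Z2 (K : Filter (Set X)) (φ : X → X → X → F) : Prop := Ev4 K (fun x y z w => d2 φ x y z w = 0)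

def H0 (K : Filter (Set X)) : Prop :=
  ∀ χ : X → F, Z0 F K χ → ∃ c, Ev1 K (fun x => χ x = c)
def H1 (K : Filter (Set X)) : Prop :=
  ∀ φ : X → X → F, Z1 F K φ → ∃ χ : X → F, Ev2 K (fun x y => φ x y = χ y - χ x)
def H2 (K : Filter (Set X)) : Prop :=
  ∀ φ : X → X → X → F, Z2 F K φ → ∃ ψ : X → X → F, Ev3 K (fun x y z => φ x y z = d1 ψ x y z)

lemma H0_bot : H0 F (⊥ : Filter (Set X)) := fun χ _ => ⟨0, by simp [Ev1]⟩
lemma H1_bot : H1 F (⊥ : Filter (Set X)) := fun χ _ => ⟨0, by simp [Ev2]⟩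
lemma H2_bot : H2 F (⊥ : Filter (Set X)) := fun χ _ => ⟨0, by simp [Ev3]⟩

end Defs

section Glue

variable {X F : Type*}

lemma glue {β : Type*} (pts : β → Set X) (hp : ∀ b, (pts b).Nonempty) {K₁ K₂ : Filter (Set X)}
    (h₁ : Low K₁) (h₂ : Low K₂) (f₁ f₂ : β → F)
    (h : ∀ᶠ S in K₁ ⊓ K₂, ∀ b, pts b ⊆ S → f₁ b = f₂ b) :
    ∃ f : β → F, (∀ᶠ S in K₁, ∀ b, pts b ⊆ S → f b = f₁ b) ∧
      (∀ᶠ S in K₂, ∀ b, pts b ⊆ S → f b = f₂ b) := by
  classical
  obtain ⟨E₁, hE₁, E₂, hE₂, hE⟩ := Filter.mem_inf_iff.1 h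
  refine ⟨fun b => if pts b ∈ E₁ then f₁ b else f₂ b, ?_, ?_⟩
  · filter_upwards [h₁ E₁ hE₁] with S hS b hb
    have : pts b ∈ E₁ := hS _ hb (hp b)
    simp [this]
  · filter_upwards [h₂ E₂ hE₂] with S hS b hb
    have h2 : pts b ∈ E₂ := hS _ hb (hp b)
    by_cases h1 : pts b ∈ E₁
    · simp only [h1, if_true]
      have h12 : pts b ∈ E₁ ∩ E₂ := ⟨h1, h2⟩
      rw [← hE] at h12
      exact h12 b (Set.Subset.refl _)
    · simp [h1]

lemma glue1 {K₁ K₂ : Filter (Set X)} (h₁ : Low K₁) (h₂ : Low K₂) (f₁ f₂ : X → F)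
    (h : Ev1 (K₁ ⊓ K₂) (fun x => f₁ x = f₂ x)) :
    ∃ f : X → F, Ev1 K₁ (fun x => f x = f₁ x) ∧ Ev1 K₂ (fun x => f x = f₂ x) := by
  obtain ⟨f, hf1, hf2⟩ := glue (fun x : X => {x}) (fun x => Set.singleton_nonempty x) h₁ h₂ f₁ f₂
    (by filter_upwards [h] with S hS b hb using hS b (hb rfl))
  refine ⟨f, ?_, ?_⟩
  · filter_upwards [hf1] with S hS x hx using hS x (by simpa using hx)
  · filter_upwards [hf2] with S hS x hx using hS x (by simpa using hx)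

lemma glue2 {K₁ K₂ : Filter (Set X)} (h₁ : Low K₁) (h₂ : Low K₂) (f₁ f₂ : X → X → F)
    (h : Ev2 (K₁ ⊓ K₂) (fun x y => f₁ x y = f₂ x y)) :
    ∃ f : X → X → F, Ev2 K₁ (fun x y => f x y = f₁ x y) ∧ Ev2 K₂ (fun x y => f x y = f₂ x y) := by
  obtain ⟨f, hf1, hf2⟩ := glue (fun p : X × X => {p.1, p.2}) (fun p => ⟨p.1, by simp⟩) h₁ h₂
    (fun p => f₁ p.1 p.2) (fun p => f₂ p.1 p.2)
    (by filter_upwards [h] with S hS b hb using hS b.1 (hb (by simp)) b.2 (hb (by simp)))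
  refine ⟨fun x y => f (x, y), ?_, ?_⟩
  · filter_upwards [hf1] with S hS x hx y hy
    exact hS (x, y) (by intro w hw; rcases hw with rfl | rfl <;> assumption)
  · filter_upwards [hf2] with S hS x hx y hy
    exact hS (x, y) (by intro w hw; rcases hw with rfl | rfl <;> assumption)

lemma glue3 {K₁ K₂ : Filter (Set X)} (h₁ : Low K₁) (h₂ : Low K₂) (f₁ f₂ : X → X → X → F)
    (h : Ev3 (K₁ ⊓ K₂) (fun x y z => f₁ x y z = f₂ x y z)) :
    ∃ f : X → X → X → F, Ev3 K₁ (fun x y z => f x y z = f₁ x y z) ∧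
      Ev3 K₂ (fun x y z => f x y z = f₂ x y z) := by
  obtain ⟨f, hf1, hf2⟩ := glue (fun p : X × X × X => {p.1, p.2.1, p.2.2}) (fun p => ⟨p.1, by simp⟩)
    h₁ h₂ (fun p => f₁ p.1 p.2.1 p.2.2) (fun p => f₂ p.1 p.2.1 p.2.2)
    (by filter_upwards [h] with S hS b hb using
          hS b.1 (hb (by simp)) b.2.1 (hb (by simp)) b.2.2 (hb (by simp)))
  refine ⟨fun x y z => f (x, y, z), ?_, ?_⟩
  · filter_upwards [hf1] with S hS x hx y hy z hz
    exact hS (x, y, z) (by intro w hw; rcases hw with rfl | rfl | rfl <;> assumption)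
  · filter_upwards [hf2] with S hS x hx y hy z hz
    exact hS (x, y, z) (by intro w hw; rcases hw with rfl | rfl | rfl <;> assumption)

end Glue

section MV

variable {X : Type*} (F : Type*) [CommRing F] {K₁ K₂ : Filter (Set X)}

/-- Mayer-Vietoris (a) -/
lemma mv_a (l₁ : Low K₁) (l₂ : Low K₂) (hA : H2 F K₁) (hB : H2 F K₂) (hAB : H1 F (K₁ ⊓ K₂)) :
    H2 F (K₁ ⊔ K₂) := by
  intro φ hφ
  obtain ⟨h1, h2⟩ := Filter.eventually_sup.1 hφ
  obtain ⟨ψ₁, hψ₁⟩ := hA φ h1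
  obtain ⟨ψ₂, hψ₂⟩ := hB φ h2
  obtain ⟨χ, hχ⟩ := hAB (fun x y => ψ₁ x y - ψ₂ x y) (by
    filter_upwards [hψ₁.filter_mono inf_le_left, hψ₂.filter_mono inf_le_right]
      with S a b x hx y hy z hz
    have e1 := a x hx y hy z hz
    have e2 := b x hx y hy z hz
    simp only [d1] at *
    linear_combination e2 - e1)
  obtain ⟨ψ, g1, g2⟩ := glue2 l₁ l₂ ψ₁ (fun x y => ψ₂ x y + (χ y - χ x)) (by
    filter_upwards [hχ] with S a x hx y hy
    have := a x hx y hy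
    linear_combination this)
  refine ⟨ψ, Filter.eventually_sup.2 ⟨?_, ?_⟩⟩
  · filter_upwards [g1, hψ₁] with S a b x hx y hy z hz
    simp only [d1] at *
    rw [a y hy z hz, a x hx z hz, a x hx y hy]
    exact b x hx y hy z hz
  · filter_upwards [g2, hψ₂] with S a b x hx y hy z hz
    simp only [d1] at *
    rw [a y hy z hz, a x hx z hz, a x hx y hy]
    linear_combination b x hx y hy z hz

/-- Mayer-Vietoris (b) -/
lemma mv_b (l₁ : Low K₁) (l₂ : Low K₂) (hA : H1 F K₁) (hB : H1 F K₂) (hX : H2 F (K₁ ⊔ K₂)) :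
    H1 F (K₁ ⊓ K₂) := by
  intro θ hθ
  obtain ⟨φ, g1, g2⟩ := glue3 l₁ l₂ (fun x y z => d1 θ x y z) (fun x y z => 0) hθ
  obtain ⟨ψ, hψ⟩ := hX φ (Filter.eventually_sup.2 ⟨by
    filter_upwards [g1] with S a x hx y hy z hz w hw
    simp only [d2, d1] at *
    rw [a y hy z hz w hw, a x hx z hz w hw, a x hx y hy w hw, a x hx y hy z hz]
    ring, by
    filter_upwards [g2] with S a x hx y hy z hz w hw
    simp only [d2] at *
    rw [a y hy z hz w hw, a x hx z hz w hw, a x hx y hy w hw, a x hx y hy z hz]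
    ring⟩)
  obtain ⟨hψ1, hψ2⟩ := Filter.eventually_sup.1 hψ
  obtain ⟨α, hα⟩ := hA (fun x y => θ x y - ψ x y) (by
    filter_upwards [g1, hψ1] with S a b x hx y hy z hz
    have e1 := a x hx y hy z hz
    have e2 := b x hx y hy z hz
    simp only [d1] at *
    linear_combination e2 - e1)
  obtain ⟨β, hβ⟩ := hB ψ (by
    filter_upwards [g2, hψ2] with S a b x hx y hy z hz
    have e1 := a x hx y hy z hz
    have e2 := b x hx y hy z hz
    rw [← e2, e1])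
  refine ⟨fun x => α x + β x, ?_⟩
  filter_upwards [hα.filter_mono inf_le_left, hβ.filter_mono inf_le_right] with S a b x hx y hy
  have e1 := a x hx y hy
  have e2 := b x hx y hy
  linear_combination e1 + e2

/-- Mayer-Vietoris (c) -/
lemma mv_c (l₁ : Low K₁) (l₂ : Low K₂) (hA : H1 F K₁) (hB : H1 F K₂) (hAB : H0 F (K₁ ⊓ K₂)) :
    H1 F (K₁ ⊔ K₂) := by
  intro φ hφ
  obtain ⟨h1, h2⟩ := Filter.eventually_sup.1 hφ
  obtain ⟨ψ₁, hψ₁⟩ := hA φ h1
  obtain ⟨ψ₂, hψ₂⟩ := hB φ h2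
  obtain ⟨c, hc⟩ := hAB (fun x => ψ₁ x - ψ₂ x) (by
    filter_upwards [hψ₁.filter_mono inf_le_left, hψ₂.filter_mono inf_le_right]
      with S a b x hx y hy
    have e1 := a x hx y hy
    have e2 := b x hx y hy
    show ψ₁ x - ψ₂ x = ψ₁ y - ψ₂ y
    linear_combination e1 - e2)
  obtain ⟨ψ, g1, g2⟩ := glue1 l₁ l₂ ψ₁ (fun x => ψ₂ x + c) (by
    filter_upwards [hc] with S a x hx
    have := a x hx
    linear_combination this)
  refine ⟨ψ, Filter.eventually_sup.2 ⟨?_, ?_⟩⟩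
  · filter_upwards [g1, hψ₁] with S a b x hx y hy
    rw [a y hy, a x hx]
    exact b x hx y hy
  · filter_upwards [g2, hψ₂] with S a b x hx y hy
    rw [a y hy, a x hx]
    linear_combination b x hx y hy

/-- Mayer-Vietoris (d) -/
lemma mv_d (l₁ : Low K₁) (l₂ : Low K₂) (hA : H0 F K₁) (hB : H0 F K₂) (hX : H1 F (K₁ ⊔ K₂)) :
    H0 F (K₁ ⊓ K₂) := by
  intro θ hθ
  obtain ⟨φ, g1, g2⟩ := glue2 l₁ l₂ (fun x y => θ y - θ x) (fun x y => 0) (by
    filter_upwards [hθ] with S a x hx y hy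
    rw [a x hx y hy]; ring)
  obtain ⟨ψ, hψ⟩ := hX φ (Filter.eventually_sup.2 ⟨by
    filter_upwards [g1] with S a x hx y hy z hz
    simp only [d1] at *
    rw [a y hy z hz, a x hx z hz, a x hx y hy]
    ring, by
    filter_upwards [g2] with S a x hx y hy z hz
    simp only [d1] at *
    rw [a y hy z hz, a x hx z hz, a x hx y hy]
    ring⟩)
  obtain ⟨hψ1, hψ2⟩ := Filter.eventually_sup.1 hψ
  obtain ⟨α, hα⟩ := hA (fun x => θ x - ψ x) (by
    filter_upwards [g1, hψ1] with S a b x hx y hy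
    have e1 := a x hx y hy
    have e2 := b x hx y hy
    show θ x - ψ x = θ y - ψ y
    linear_combination e1 - e2)
  obtain ⟨β, hβ⟩ := hB ψ (by
    filter_upwards [g2, hψ2] with S a b x hx y hy
    have e1 := a x hx y hy
    have e2 := b x hx y hy
    linear_combination e2 - e1)
  refine ⟨α + β, ?_⟩
  filter_upwards [hα.filter_mono inf_le_left, hβ.filter_mono inf_le_right] with S a b x hx
  have e1 := a x hx
  have e2 := b x hx
  linear_combination e1 + e2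

/-- Mayer-Vietoris (e) -/
lemma mv_e (hA : H0 F K₁) (hB : H0 F K₂) (hne : ∃ᶠ S in K₁ ⊓ K₂, S.Nonempty) :
    H0 F (K₁ ⊔ K₂) := by
  intro θ hθ
  obtain ⟨h1, h2⟩ := Filter.eventually_sup.1 hθ
  obtain ⟨α, hα⟩ := hA θ h1
  obtain ⟨β, hβ⟩ := hB θ h2
  have : ∃ S : Set X, S.Nonempty ∧ (∀ x ∈ S, θ x = α) ∧ (∀ x ∈ S, θ x = β) := by
    obtain ⟨S, hS1, hS2, hS3⟩ := (hne.and_eventually ((hα.filter_mono inf_le_left).and
      (hβ.filter_mono inf_le_right))).exists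
    exact ⟨S, hS1, hS2, hS3⟩
  obtain ⟨S, ⟨x, hx⟩, a, b⟩ := this
  have hab : α = β := by rw [← a x hx, b x hx]
  subst hab
  exact ⟨α, Filter.eventually_sup.2 ⟨hα, hβ⟩⟩

end MV

section Coh

variable {X Y Z : Type*} (F : Type*) [CommRing F]

/-- `f` and `g` induce the same map on degree 0, 1, 2 -/
structure Coh (K : Filter (Set X)) (L : Filter (Set Y)) (f g : X → Y) : Prop where
  c0 : ∀ χ : Y → F, Z0 F L χ → Ev1 K (fun x => χ (f x) = χ (g x))
  c1 : ∀ φ : Y → Y → F, Z1 F L φ → ∃ χ : X → F,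
    Ev2 K (fun x y => φ (g x) (g y) - φ (f x) (f y) = χ y - χ x)
  c2 : ∀ φ : Y → Y → Y → F, Z2 F L φ → ∃ ψ : X → X → F,
    Ev3 K (fun x y z => φ (g x) (g y) (g z) - φ (f x) (f y) (f z) = d1 ψ x y z)

variable {F} {K : Filter (Set X)} {L : Filter (Set Y)}

lemma Coh.refl (f : X → Y) : Coh F K L f f :=
  ⟨fun χ _ => Eventually.of_forall (fun S x _ => rfl),
    fun φ _ => ⟨0, Eventually.of_forall (fun S x _ y _ => by simp)⟩,
    fun φ _ => ⟨0, Eventually.of_forall (fun S x _ y _ z _ => by simp [d1])⟩⟩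

lemma Coh.symm {f g : X → Y} (h : Coh F K L f g) : Coh F K L g f := by
  refine ⟨fun χ hχ => ?_, fun φ hφ => ?_, fun φ hφ => ?_⟩
  · filter_upwards [h.c0 χ hχ] with S a x hx using (a x hx).symm
  · obtain ⟨χ, hχ⟩ := h.c1 φ hφ
    refine ⟨fun x => - χ x, ?_⟩
    filter_upwards [hχ] with S a x hx y hy
    linear_combination - a x hx y hy
  · obtain ⟨χ, hχ⟩ := h.c2 φ hφ
    refine ⟨fun x y => - χ x y, ?_⟩
    filter_upwards [hχ] with S a x hx y hy z hz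
    have := a x hx y hy z hz
    simp only [d1] at *
    linear_combination - this

lemma Coh.trans {f g k : X → Y} (h : Coh F K L f g) (h' : Coh F K L g k) : Coh F K L f k := by
  refine ⟨fun χ hχ => ?_, fun φ hφ => ?_, fun φ hφ => ?_⟩
  · filter_upwards [h.c0 χ hχ, h'.c0 χ hχ] with S a b x hx using (a x hx).trans (b x hx)
  · obtain ⟨χ, hχ⟩ := h.c1 φ hφ
    obtain ⟨χ', hχ'⟩ := h'.c1 φ hφ
    refine ⟨fun x => χ x + χ' x, ?_⟩
    filter_upwards [hχ, hχ'] with S a b x hx y hy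
    linear_combination a x hx y hy + b x hx y hy
  · obtain ⟨χ, hχ⟩ := h.c2 φ hφ
    obtain ⟨χ', hχ'⟩ := h'.c2 φ hφ
    refine ⟨fun x y => χ x y + χ' x y, ?_⟩
    filter_upwards [hχ, hχ'] with S a b x hx y hy z hz
    have e1 := a x hx y hy z hz
    have e2 := b x hx y hy z hz
    simp only [d1] at *
    linear_combination e1 + e2

/-- the prism operators: if `f '' S ∪ g '' S` lands in the good family then `f` and `g` agree -/
lemma prism0 (χ : Y → F) {f g : X → Y} {S : Set X}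
    (h : ∀ a ∈ f '' S ∪ g '' S, ∀ b ∈ f '' S ∪ g '' S, χ a = χ b) :
    ∀ x ∈ S, χ (f x) = χ (g x) := fun x hx =>
  h _ (Or.inl ⟨x, hx, rfl⟩) _ (Or.inr ⟨x, hx, rfl⟩)

lemma prism1 (φ : Y → Y → F) {f g : X → Y} {S : Set X}
    (h : ∀ a ∈ f '' S ∪ g '' S, ∀ b ∈ f '' S ∪ g '' S, ∀ c ∈ f '' S ∪ g '' S, d1 φ a b c = 0) :
    ∀ x ∈ S, ∀ y ∈ S, φ (g x) (g y) - φ (f x) (f y) = φ (f y) (g y) - φ (f x) (g x) := by
  intro x hx y hy
  have fx : f x ∈ f '' S ∪ g '' S := Or.inl ⟨x, hx, rfl⟩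
  have fy : f y ∈ f '' S ∪ g '' S := Or.inl ⟨y, hy, rfl⟩
  have gx : g x ∈ f '' S ∪ g '' S := Or.inr ⟨x, hx, rfl⟩
  have gy : g y ∈ f '' S ∪ g '' S := Or.inr ⟨y, hy, rfl⟩
  have e1 := h _ fx _ fy _ gy
  have e2 := h _ fx _ gx _ gy
  simp only [d1] at *
  linear_combination e2 - e1

lemma prism2 (φ : Y → Y → Y → F) {f g : X → Y} {S : Set X}
    (h : ∀ a ∈ f '' S ∪ g '' S, ∀ b ∈ f '' S ∪ g '' S, ∀ c ∈ f '' S ∪ g '' S,
      ∀ e ∈ f '' S ∪ g '' S, d2 φ a b c e = 0) :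
    ∀ x ∈ S, ∀ y ∈ S, ∀ z ∈ S, φ (g x) (g y) (g z) - φ (f x) (f y) (f z) =
      d1 (fun x y => φ (f x) (g x) (g y) - φ (f x) (f y) (g y)) x y z := by
  intro x hx y hy z hz
  have fx : f x ∈ f '' S ∪ g '' S := Or.inl ⟨x, hx, rfl⟩
  have fy : f y ∈ f '' S ∪ g '' S := Or.inl ⟨y, hy, rfl⟩
  have fz : f z ∈ f '' S ∪ g '' S := Or.inl ⟨z, hz, rfl⟩
  have gx : g x ∈ f '' S ∪ g '' S := Or.inr ⟨x, hx, rfl⟩
  have gy : g y ∈ f '' S ∪ g '' S := Or.inr ⟨y, hy, rfl⟩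
  have gz : g z ∈ f '' S ∪ g '' S := Or.inr ⟨z, hz, rfl⟩
  have e1 := h _ fx _ fy _ fz _ gz
  have e2 := h _ fx _ fy _ gy _ gz
  have e3 := h _ fx _ gx _ gy _ gz
  simp only [d1, d2] at *
  linear_combination e1 - e2 + e3

lemma coh_of_contig {f g : X → Y}
    (h : Tendsto (fun S : Set X => f '' S ∪ g '' S) K L) : Coh F K L f g := by
  refine ⟨fun χ hχ => ?_, fun φ hφ => ⟨fun x => φ (f x) (g x), ?_⟩,
    fun φ hφ => ⟨fun x y => φ (f x) (g x) (g y) - φ (f x) (f y) (g y), ?_⟩⟩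
  · filter_upwards [h.eventually hχ] with S a using prism0 χ a
  · filter_upwards [h.eventually hφ] with S a using prism1 φ a
  · filter_upwards [h.eventually hφ] with S a using prism2 φ a

lemma Z0.comp {f : X → Y} (hf : Tendsto (fun S : Set X => f '' S) K L) {χ : Y → F}
    (h : Z0 F L χ) : Z0 F K (fun x => χ (f x)) := by
  filter_upwards [hf.eventually h] with S a x hx y hy
  exact a _ ⟨x, hx, rfl⟩ _ ⟨y, hy, rfl⟩

lemma Z1.comp {f : X → Y} (hf : Tendsto (fun S : Set X => f '' S) K L) {φ : Y → Y → F}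
    (h : Z1 F L φ) : Z1 F K (fun x y => φ (f x) (f y)) := by
  filter_upwards [hf.eventually h] with S a x hx y hy z hz
  exact a _ ⟨x, hx, rfl⟩ _ ⟨y, hy, rfl⟩ _ ⟨z, hz, rfl⟩

lemma Z2.comp {f : X → Y} (hf : Tendsto (fun S : Set X => f '' S) K L) {φ : Y → Y → Y → F}
    (h : Z2 F L φ) : Z2 F K (fun x y z => φ (f x) (f y) (f z)) := by
  filter_upwards [hf.eventually h] with S a x hx y hy z hz w hw
  exact a _ ⟨x, hx, rfl⟩ _ ⟨y, hy, rfl⟩ _ ⟨z, hz, rfl⟩ _ ⟨w, hw, rfl⟩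

/-- `L` is dominated by `K` -/
lemma H0_of_dom {i : X → Y} {r : Y → X} (hi : Tendsto (fun S : Set X => i '' S) K L)
    (hr : Tendsto (fun S : Set Y => r '' S) L K) (h : Coh F L L (fun y => i (r y)) (fun y => y))
    (hK : H0 F K) : H0 F L := by
  intro χ hχ
  obtain ⟨c, hc⟩ := hK _ (hχ.comp hi)
  refine ⟨c, ?_⟩
  filter_upwards [h.c0 χ hχ, hr.eventually hc] with S a b y hy
  rw [← a y hy]
  exact b _ ⟨y, hy, rfl⟩

lemma H1_of_dom {i : X → Y} {r : Y → X} (hi : Tendsto (fun S : Set X => i '' S) K L)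
    (hr : Tendsto (fun S : Set Y => r '' S) L K) (h : Coh F L L (fun y => i (r y)) (fun y => y))
    (hK : H1 F K) : H1 F L := by
  intro φ hφ
  obtain ⟨χ, hχ⟩ := hK _ (hφ.comp hi)
  obtain ⟨χ', hχ'⟩ := h.c1 φ hφ
  refine ⟨fun y => χ' y + χ (r y), ?_⟩
  filter_upwards [hχ', hr.eventually hχ] with S a b x hx y hy
  have e1 := a x hx y hy
  have e2 := b _ ⟨x, hx, rfl⟩ _ ⟨y, hy, rfl⟩
  linear_combination e1 + e2

lemma H2_of_dom {i : X → Y} {r : Y → X} (hi : Tendsto (fun S : Set X => i '' S) K L)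
    (hr : Tendsto (fun S : Set Y => r '' S) L K) (h : Coh F L L (fun y => i (r y)) (fun y => y))
    (hK : H2 F K) : H2 F L := by
  intro φ hφ
  obtain ⟨χ, hχ⟩ := hK _ (hφ.comp hi)
  obtain ⟨χ', hχ'⟩ := h.c2 φ hφ
  refine ⟨fun x y => χ' x y + χ (r x) (r y), ?_⟩
  filter_upwards [hχ', hr.eventually hχ] with S a b x hx y hy z hz
  have e1 := a x hx y hy z hz
  have e2 := b _ ⟨x, hx, rfl⟩ _ ⟨y, hy, rfl⟩ _ ⟨z, hz, rfl⟩
  simp only [d1] at *
  linear_combination e1 + e2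

/-- contractible: the identity is cohomologous to a constant -/
lemma H0_of_const {b : X} (h : Coh F K K (fun x => x) (fun _ => b)) : H0 F K := by
  intro χ hχ
  exact ⟨χ b, h.c0 χ hχ⟩

lemma H1_of_const {b : X} (hb : ∃ᶠ S in K, b ∈ S) (h : Coh F K K (fun x => x) (fun _ => b)) :
    H1 F K := by
  intro φ hφ
  obtain ⟨χ, hχ⟩ := h.c1 φ hφ
  have : φ b b = 0 := by
    obtain ⟨S, hS1, hS2⟩ := (hb.and_eventually hφ).exists
    have := hS2 b hS1 b hS1 b hS1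
    simpa [d1] using this
  refine ⟨fun x => - χ x, ?_⟩
  filter_upwards [hχ] with S a x hx y hy
  linear_combination this - a x hx y hy

lemma H2_of_const {b : X} (h : Coh F K K (fun x => x) (fun _ => b)) : H2 F K := by
  intro φ hφ
  obtain ⟨χ, hχ⟩ := h.c2 φ hφ
  refine ⟨fun x y => - χ x y + φ b b b, ?_⟩
  filter_upwards [hχ] with S a x hx y hy z hz
  have := a x hx y hy z hz
  simp only [d1] at *
  linear_combination - this

end Coh

end Pool.Agent.Helper95.Wedge
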