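import Pool.Agent.Helper95.Wedge.Sphere

set_option autoImplicit false
set_option linter.unusedVariables false
set_option linter.unusedSectionVars false

open Filter Set Metric Topology

namespace Pool.Agent.Helper95.Wedge

variable {F : Type*} [CommRing F]

lemma H_singleton {X : Type*} [PseudoMetricSpace X] (b : X) :
    H0 F (near ({b} : Set X)) ∧ H1 F (near ({b} : Set X)) ∧ H2 F (near ({b} : Set X)) := by
  refine H0_contract isCompact_singleton (fun _ => b) (b := b) ?_ ?_ ?_ ?_ rfl
  · intro t a _; fun_prop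
  · intro t a _; rfl
  · intro a ha; exact (mem_singleton_iff.1 ha).symm
  · intro a ha; rfl

variable {n : ℕ} (d : Fin n → ℕ)

/-- the base point -/
noncomputable def bp : (i : Fin n) → EuclideanSpace ℝ (Fin (d i + 1)) :=
  fun i => EuclideanSpace.single 0 1

/-- the wedge -/
def Wd : Set ((i : Fin n) → EuclideanSpace ℝ (Fin (d i + 1))) :=
  {x | (∀ i, ‖x i‖ = 1) ∧
    ∀ i j, i ≠ j → x i = EuclideanSpace.single 0 1 ∨ x j = EuclideanSpace.single 0 1}

def Wi (i : Fin n) : Set ((i : Fin n) → EuclideanSpace ℝ (Fin (d i + 1))) :=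
  (fun y => Function.update (bp d) i y) '' {y | ‖y‖ = 1}

lemma isCompact_sph (k : ℕ) : IsCompact {y : EuclideanSpace ℝ (Fin (k + 1)) | ‖y‖ = 1} := by
  have := isCompact_sphere (0 : EuclideanSpace ℝ (Fin (k + 1))) 1
  have e : {y : EuclideanSpace ℝ (Fin (k + 1)) | ‖y‖ = 1} = sphere 0 1 := by
    ext y; simp
  rwa [e]

lemma cont_update (i : Fin n) : Continuous (fun y => Function.update (bp d) i y) :=
  continuous_const.update i continuous_id

lemma isCompact_Wi (i : Fin n) : IsCompact (Wi d i) := (isCompact_sph _).image (cont_update d i)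

lemma norm_bp (i : Fin n) : ‖bp d i‖ = 1 := by simp [bp]

lemma Wi_sub (i : Fin n) : Wi d i ⊆ Wd d := by
  rintro _ ⟨y, hy, rfl⟩
  refine ⟨fun j => ?_, fun j k hjk => ?_⟩
  · by_cases h : j = i
    · subst h; simpa using hy
    · simpa [h] using norm_bp d j
  · by_cases h : j = i
    · right
      subst h
      simp [Ne.symm hjk, bp]
    · left
      simp [h, bp]

lemma mem_Wi {i : Fin n} {x} : x ∈ Wi d i ↔ ‖x i‖ = 1 ∧ ∀ j, j ≠ i → x j = bp d j := by
  constructor
  · rintro ⟨y, hy, rfl⟩
    exact ⟨by simpa using hy, fun j hj => by simp [hj]⟩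
  · rintro ⟨h1, h2⟩
    refine ⟨x i, h1, ?_⟩
    funext j
    by_cases h : j = i
    · subst h; simp
    · simp [h, h2 j h]

lemma Wd_eq (hn : 0 < n) : Wd d = ⋃ i, Wi d i := by
  apply subset_antisymm
  · rintro x ⟨h1, h2⟩
    rw [mem_iUnion]
    by_cases h : ∃ i, x i ≠ bp d i
    · obtain ⟨i, hi⟩ := h
      refine ⟨i, (mem_Wi d).2 ⟨h1 i, fun j hj => ?_⟩⟩
      rcases h2 i j (Ne.symm hj) with h3 | h3
      · exact absurd h3 hi
      · exact h3
    · push Not at h
      exact ⟨⟨0, hn⟩, (mem_Wi d).2 ⟨h1 _, fun j _ => h j⟩⟩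
  · exact iUnion_subset (Wi_sub d)

lemma isCompact_Wd : IsCompact (Wd d) := by
  rcases Nat.eq_zero_or_pos n with hn | hn
  · subst hn
    exact (Set.toFinite _).isCompact
  · rw [Wd_eq d hn]
    exact isCompact_iUnion (isCompact_Wi d)

lemma isClosed_Wd : IsClosed (Wd d) := (isCompact_Wd d).isClosed

lemma H2_Wi (i : Fin n) (h : H2 F (near {y : EuclideanSpace ℝ (Fin (d i + 1)) | ‖y‖ = 1})) :
    H2 F (near (Wi d i)) := by
  refine H2_of_dom (i := fun y => Function.update (bp d) i y) (r := fun x => x i)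
    (tendsto_image (isCompact_sph _) (fun a _ => (cont_update d i).continuousAt)
      (fun a ha => ⟨a, ha, rfl⟩))
    (tendsto_image (isCompact_Wi d i) (fun a _ => (continuous_apply i).continuousAt)
      (fun a ha => ((mem_Wi d).1 ha).1)) ?_ h
  refine coh_of_eqOn (isCompact_Wi d i)
    (fun a _ => ((cont_update d i).comp (continuous_apply i)).continuousAt)
    (fun a _ => continuousAt_id) ?_ ?_
  · intro a ha
    exact ⟨a i, ((mem_Wi d).1 ha).1, rfl⟩
  · rintro _ ⟨y, hy, rfl⟩
    simp

lemma H2_WU (h : ∀ i, H2 F (near {y : EuclideanSpace ℝ (Fin (d i + 1)) | ‖y‖ = 1}))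
    (s : Finset (Fin n)) : H2 F (near (⋃ i ∈ s, Wi d i)) ∧ IsCompact (⋃ i ∈ s, Wi d i) := by
  classical
  refine ⟨?_, s.finite_toSet.isCompact_biUnion (fun i _ => isCompact_Wi d i)⟩
  induction s using Finset.induction_on with
  | empty =>
    simp only [Finset.notMem_empty, iUnion_of_empty, iUnion_empty]
    rw [near_empty]
    exact H2_bot F
  | insert i s his ih =>
    rw [Finset.set_biUnion_insert, near_union]
    refine mv_a F (near_low _) (near_low _) (H2_Wi d i (h i)) ih ?_
    have hcl : IsClosed (⋃ j ∈ s, Wi d j) :=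
      (s.finite_toSet.isCompact_biUnion (fun i _ => isCompact_Wi d i)).isClosed
    rw [← near_inter (isCompact_Wi d i) hcl]
    have hsub : Wi d i ∩ ⋃ j ∈ s, Wi d j ⊆ {bp d} := by
      rintro x ⟨hx, hx'⟩
      rw [mem_iUnion₂] at hx'
      obtain ⟨j, hj, hxj⟩ := hx'
      have hij : i ≠ j := by rintro rfl; exact his hj
      rw [mem_Wi] at hx hxj
      show x = bp d
      funext k
      by_cases hk : k = i
      · subst hk; exact hxj.2 k hij
      · exact hx.2 k hk
    rcases Set.subset_singleton_iff_eq.1 hsub with h0 | h0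
    · rw [h0, near_empty]; exact H1_bot F
    · rw [h0]; exact (H_singleton _).2.1

lemma H2_Wd (h : ∀ i, d i ≠ 2) : H2 F (near (Wd d)) := by
  rcases Nat.eq_zero_or_pos n with hn | hn
  · subst hn
    have : Wd d = {bp d} := by
      ext x
      constructor
      · intro _; exact Subsingleton.elim _ _
      · rintro rfl; exact ⟨fun i => norm_bp d i, fun i => Fin.elim0 i⟩
    rw [this]
    exact (H_singleton _).2.2
  · have := (H2_WU (F := F) d (fun i => H2_sphere (d i) (h i)) Finset.univ).1
    rw [Wd_eq d hn]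
    simpa using this

lemma not_H2_Wd [Nontrivial F] (i : Fin n) (h : d i = 2) : ¬ H2 F (near (Wd d)) := by
  intro hW
  refine not_H2_sphere (F := F) (d i) h ?_
  refine H2_of_dom (r := fun y => Function.update (bp d) i y)
    (i := fun x : ((i : Fin n) → EuclideanSpace ℝ (Fin (d i + 1))) => x i)
    (tendsto_image (isCompact_Wd d) (fun a _ => (continuous_apply i).continuousAt)
      (fun a ha => ha.1 i))
    (tendsto_image (isCompact_sph _) (fun a _ => (cont_update d i).continuousAt)
      (fun a ha => Wi_sub d i ⟨a, ha, rfl⟩)) ?_ hW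
  have : (fun y : EuclideanSpace ℝ (Fin (d i + 1)) => Function.update (bp d) i y i) =
      fun y => y := by
    funext y; simp
  rw [this]
  exact Coh.refl _

/-- the property distinguishing wedges of spheres -/
theorem wedge_field {F F' : Type*} [CommRing F] [CommRing F'] [Nontrivial F]
    (h : H2 F (near (Wd d))) : H2 F' (near (Wd d)) :=
  H2_Wd d (fun i hi => not_H2_Wd d i hi h)

end Pool.Agent.Helper95.Wedge
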