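import Pool.Agent.Helper95.Wedge.Twisted

set_option autoImplicit false
set_option linter.unusedVariables false
set_option linter.unusedSectionVars false

open Filter Set

namespace Pool.Agent.Helper95.Wedge

open PP

section

variable {T A X : Type*} [Group T] [Group A] [MulAction A X] {B₀ : Subgroup A}

/-- `T^S ⋊ B` -/
def Nsb (T : Type*) [Group T] (S : Set X) (B : Subgroup A) : Set (PP T A X) :=
  {p | p.a ∈ B ∧ ∀ x, x ∉ S → p.c x = 1}

open Classical in
/-- a twisted function supported on `D·(T^S ⋊ B)` -/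
noncomputable def f0 (S : Set X) (B : Subgroup A) (x₀ : X) (t : T) : PP T A X → T := fun p =>
  if p.a ∈ B ∧ ∀ x, x ∉ S → p.c x = p.c x₀ then (p.c x₀)⁻¹ * t * p.c x₀ else 1

lemma f0_mem {S : Set X} {B : Subgroup A} (hB : B₀ ≤ B) (hinv : Inv B S) {x₀ : X} (hx₀ : x₀ ∉ S)
    (t : T) : f0 S B x₀ t ∈ QN B₀ (Nsb T S B) := by
  classical
  refine ⟨⟨fun p d => ?_, fun p b hb => ?_⟩, fun n hn p => ?_⟩
  · simp only [f0, mul_a, ι_a, mul_one, mul_c, ι_c, mul_left_inj]
    split_ifs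
    · group
    · group
  · have h1 : (p * β b).a ∈ B ↔ p.a ∈ B := by
      simp only [mul_a, β_a]
      exact Subgroup.mul_mem_cancel_right B (hB hb)
    simp only [f0, h1, mul_c, β_c, mul_one]
  · obtain ⟨hn1, hn2⟩ := hn
    have h1 : (p * n).a ∈ B ↔ p.a ∈ B := by
      simp only [mul_a]
      exact Subgroup.mul_mem_cancel_right B hn1
    by_cases hp : p.a ∈ B
    · have h2 : ∀ x, x ∉ S → (p * n).c x = p.c x := by
        intro x hx
        have : p.a⁻¹ • x ∉ S := by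
          intro h
          apply hx
          have := hinv p.a hp _ h
          rwa [smul_inv_smul] at this
        rw [mul_c, hn2 _ this, mul_one]
      have h3 : (∀ x, x ∉ S → (p * n).c x = (p * n).c x₀) ↔ (∀ x, x ∉ S → p.c x = p.c x₀) := by
        rw [h2 x₀ hx₀]
        exact forall_congr' fun x => forall_congr' fun hx => by rw [h2 x hx]
      by_cases hq : ∀ x, x ∉ S → p.c x = p.c x₀
      · unfold f0
        rw [if_pos ⟨h1.2 hp, h3.2 hq⟩, if_pos ⟨hp, hq⟩, h2 x₀ hx₀]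
      · unfold f0
        rw [if_neg (fun h => hq (h3.1 h.2)), if_neg (fun h => hq h.2)]
    · simp only [f0, h1, hp, false_and, if_false]

lemma f0_one {S : Set X} {B : Subgroup A} (x₀ : X) (t : T) :
    f0 S B x₀ t (1 : PP T A X) = t := by
  classical
  unfold f0
  rw [if_pos ⟨B.one_mem, fun _ _ => rfl⟩]
  simp

variable [IsSimpleGroup T]

lemma Nn_Nsb (hT : ∃ s t : T, s * t ≠ t * s) {S : Set X} {B : Subgroup A} (hB : B₀ ≤ B)
    (hinv : Inv B S) (hS : S ≠ univ) :
    (Nn (QN B₀ (Nsb T S B)) : Set (PP T A X)) = Nsb T S B := by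
  classical
  apply subset_antisymm
  · intro n hn
    obtain ⟨x₀, hx₀⟩ := (Set.ne_univ_iff_exists_notMem S).1 hS
    have h1 : ∀ t, f0 S B x₀ t n = t := by
      intro t
      have := hn _ (f0_mem hB hinv hx₀ t) 1
      rw [one_mul, f0_one] at this
      exact this
    have h2 : n.a ∈ B ∧ ∀ x, x ∉ S → n.c x = n.c x₀ := by
      by_contra hcon
      obtain ⟨s, t, hst⟩ := hT
      have hs : s = 1 := by
        have := h1 s
        simp only [f0, hcon, if_false] at this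
        exact this.symm
      apply hst
      rw [hs]; group
    have h3 : n.c x₀ = 1 := by
      apply center_trivial hT
      intro t
      have := h1 t
      unfold f0 at this
      rw [if_pos h2] at this
      calc n.c x₀ * t = n.c x₀ * ((n.c x₀)⁻¹ * t * n.c x₀) := by rw [this]
        _ = t * n.c x₀ := by group
    exact ⟨h2.1, fun x hx => by rw [h2.2 x hx, h3]⟩
  · exact sub_Nn_QN _

lemma QN_Nsb_ne_bot (hT : ∃ s t : T, s * t ≠ t * s) {S : Set X} {B : Subgroup A} (hB : B₀ ≤ B)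
    (hinv : Inv B S) (hS : S ≠ univ) : QN B₀ (Nsb T S B) ≠ ⊥ := by
  intro h
  obtain ⟨x₀, hx₀⟩ := (Set.ne_univ_iff_exists_notMem S).1 hS
  obtain ⟨s, t, hst⟩ := hT
  have hs : s = 1 := by
    have h1 := f0_mem (T := T) hB hinv hx₀ s
    rw [h, Subgroup.mem_bot] at h1
    rw [← f0_one (S := S) (B := B) x₀ s, h1]
    rfl
  apply hst
  rw [hs]; group

lemma Nn_TW (hT : ∃ s t : T, s * t ≠ t * s) [Nonempty X] :
    (Nn (TW T X B₀) : Set (PP T A X)) = Nsb T ∅ B₀ := by
  have h1 : QN B₀ (Nsb T (∅ : Set X) B₀) = TW T X B₀ := by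
    refine le_antisymm (QN_le _) ?_
    rintro f hf
    refine ⟨hf, fun n hn p => ?_⟩
    have : n = β n.a := by
      ext x
      · exact hn.2 x (notMem_empty _)
      · rfl
    rw [this]
    exact TW_β hf p hn.1
  rw [← h1]
  exact Nn_Nsb hT le_rfl (fun _ _ _ hx => absurd hx (notMem_empty _)) Set.empty_ne_univ

lemma QN_Nsb_ne_TW (hT : ∃ s t : T, s * t ≠ t * s) [Nonempty X] {S : Set X} {B : Subgroup A}
    (hB : B₀ ≤ B) (hinv : Inv B S) (hS : S ≠ univ) (hne : ¬ (S = ∅ ∧ B = B₀)) :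
    QN B₀ (Nsb T S B) ≠ TW T X B₀ := by
  classical
  intro h
  have h1 := Nn_Nsb (T := T) hT hB hinv hS
  rw [h, Nn_TW hT] at h1
  apply hne
  constructor
  · rw [Set.eq_empty_iff_forall_notMem]
    intro x hx
    obtain ⟨s, t, hst⟩ := hT
    have h2 : (γ (Function.update (fun _ => 1) x s) : PP T A X) ∈ Nsb T S B := by
      refine ⟨B.one_mem, fun y hy => ?_⟩
      have : y ≠ x := by rintro rfl; exact hy hx
      simp [this]
    rw [← h1] at h2
    have h3 := h2.2 x (notMem_empty _)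
    simp only [γ_c, Function.update_self] at h3
    apply hst
    rw [h3]; group
  · refine le_antisymm ?_ hB
    intro b hb
    have h2 : (β b : PP T A X) ∈ Nsb T S B := ⟨hb, fun _ _ => rfl⟩
    rw [← h1] at h2
    exact h2.1

/-! ### the big group -/

/-- the big group -/
abbrev GG (T A X : Type*) [Group T] [Group A] [MulAction A X] : Type _ :=
  PP T (PP T A X) (PP T A X)

def Hbig (T A X : Type*) [Group T] [Group A] [MulAction A X] : Subgroup (GG T A X) where
  carrier := {g | g.c = 1}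
  mul_mem' := by
    intro g h hg hh
    funext p
    have h1 : g.c p = 1 := congrFun hg p
    have h2 : h.c (g.a⁻¹ • p) = 1 := congrFun hh _
    rw [mul_c, h1, h2, one_mul]; rfl
  one_mem' := rfl
  inv_mem' := by
    intro g hg
    funext p
    have h1 : g.c (g.a • p) = 1 := congrFun hg _
    rw [inv_c, h1, inv_one]; rfl

/-- lift of a left invariant subgroup -/
def MQ (Q : Subgroup (PP T A X → T)) (hL : LInv Q) : Subgroup (GG T A X) where
  carrier := {g | g.c ∈ Q}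
  mul_mem' := by
    intro g h hg hh
    exact mul_mem hg (hL _ hh g.a⁻¹)
  one_mem' := one_mem Q
  inv_mem' := by
    intro g hg
    exact inv_mem (hL _ hg g.a)

def Kbig (T X : Type*) [Group T] [MulAction A X] (B₀ : Subgroup A) : Subgroup (GG T A X) :=
  MQ (TW T X B₀) LInv_TW

def MN (B₀ : Subgroup A) (N : Set (PP T A X)) : Subgroup (GG T A X) :=
  MQ (QN B₀ N) (LInv_QN N)

/-- the trace on the base -/
def QM (M : Subgroup (GG T A X)) : Subgroup (PP T A X → T) where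
  carrier := {f | (γ f : GG T A X) ∈ M}
  mul_mem' := by
    intro f g hf hg
    have := mul_mem (show (γ f : GG T A X) ∈ M from hf) (show (γ g : GG T A X) ∈ M from hg)
    have h2 : (γ f * γ g : GG T A X) = γ (f * g) := by
      ext y
      · simp
      · simp
      · simp
    rwa [h2] at this
  one_mem' := one_mem M
  inv_mem' := by
    intro f hf
    have := inv_mem (show (γ f : GG T A X) ∈ M from hf)
    have h2 : ((γ f)⁻¹ : GG T A X) = γ (f⁻¹) := by
      ext y
      · simp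
      · simp
      · simp
    rwa [h2] at this

lemma mem_QM {M : Subgroup (GG T A X)} {f : PP T A X → T} : f ∈ QM M ↔ (γ f : GG T A X) ∈ M :=
  Iff.rfl

lemma QM_MN (N : Set (PP T A X)) : QM (MN B₀ N) = QN B₀ N := rfl

lemma mem_iff_QM {M : Subgroup (GG T A X)} (hM : Hbig T A X ≤ M) (g : GG T A X) :
    g ∈ M ↔ g.c ∈ QM M := by
  have h1 : g = γ g.c * β g.a := by
    ext y
    · simp
    · simp
    · simp
  have h2 : (β g.a : GG T A X) ∈ M := hM rfl
  rw [mem_QM]
  conv_lhs => rw [h1]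
  exact Subgroup.mul_mem_cancel_right M h2

lemma LInv_QM {M : Subgroup (GG T A X)} (hM : Hbig T A X ≤ M) : LInv (QM M) := by
  intro f hf p
  have h2 : (β p⁻¹ : GG T A X) ∈ M := hM rfl
  have h3 := mul_mem (mul_mem h2 hf) (inv_mem h2)
  have h4 : (β p⁻¹ * γ f * (β p⁻¹)⁻¹ : GG T A X) = γ (fun x => f (p * x)) := by
    ext y
    · simp
    · simp
    · simp
  rw [h4] at h3
  exact h3

lemma QM_mono {M M' : Subgroup (GG T A X)} (h : M ≤ M') : QM M ≤ QM M' := fun f hf => h hf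

/-- the open interval -/
def II (T X : Type*) [Group T] [MulAction A X] (B₀ : Subgroup A) : Set (Subgroup (GG T A X)) :=
  Ioo (Hbig T A X) (Kbig T X B₀)

lemma QM_le {M : Subgroup (GG T A X)} (hM : M ∈ II T X B₀) : QM M ≤ TW T X B₀ :=
  fun f hf => hM.2.le hf

lemma QM_ne_bot {M : Subgroup (GG T A X)} (hM : M ∈ II T X B₀) : QM M ≠ ⊥ := by
  intro h
  apply hM.1.not_ge
  intro g hg
  rw [mem_iff_QM hM.1.le, h, Subgroup.mem_bot] at hg
  exact hg

lemma QM_ne_TW {M : Subgroup (GG T A X)} (hM : M ∈ II T X B₀) : QM M ≠ TW T X B₀ := by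
  intro h
  apply hM.2.not_ge
  intro g hg
  rw [mem_iff_QM hM.1.le, h]
  exact hg

lemma MN_mem {N : Set (PP T A X)} (h1 : QN B₀ N ≠ ⊥) (h2 : QN B₀ N ≠ TW T X B₀) :
    MN B₀ N ∈ II T X B₀ := by
  refine ⟨lt_of_le_of_ne ?_ ?_, lt_of_le_of_ne ?_ ?_⟩
  · intro g hg
    show g.c ∈ QN B₀ N
    have : g.c = 1 := hg
    rw [this]; exact one_mem _
  · intro h
    apply h1
    rw [eq_bot_iff]
    intro f hf
    have : (γ f : GG T A X) ∈ MN B₀ N := hf
    rw [← h] at this
    exact Subgroup.mem_bot.2 this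
  · intro g hg
    exact QN_le _ hg
  · intro h
    apply h2
    refine le_antisymm (QN_le _) ?_
    intro f hf
    have : (γ f : GG T A X) ∈ Kbig T X B₀ := hf
    rw [← h] at this
    exact this

/-- the map to `𝒬` -/
def uu (M : Subgroup (GG T A X)) : Set X × Subgroup A := (Ssup (Nn (QM M)), Bim (Nn (QM M)))

/-- the map from `𝒬` -/
def vv (T : Type*) [Group T] (B₀ : Subgroup A) (q : Set X × Subgroup A) : Subgroup (GG T A X) :=
  MN B₀ (Nsb T q.1 q.2)

/-- the closure -/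
def ww (B₀ : Subgroup A) (M : Subgroup (GG T A X)) : Subgroup (GG T A X) :=
  MN B₀ (Nn (QM M) : Set (PP T A X))

lemma Ssup_mono {N N' : Subgroup (PP T A X)} (h : N ≤ N') : Ssup N ⊆ Ssup N' := by
  rintro x ⟨c, hc, hx⟩
  exact ⟨c, h hc, hx⟩

lemma Bim_mono {N N' : Subgroup (PP T A X)} (h : N ≤ N') : Bim N ≤ Bim N' := by
  rintro x ⟨c, hc⟩
  exact ⟨c, h hc⟩

lemma uu_anti {M M' : Subgroup (GG T A X)} (h : M ≤ M') : uu M' ≤ uu M :=
  Prod.mk_le_mk.2 ⟨Ssup_mono (Nn_anti (QM_mono h)), Bim_mono (Nn_anti (QM_mono h))⟩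

lemma MN_anti {N N' : Set (PP T A X)} (h : N ⊆ N') : MN B₀ N' ≤ MN B₀ N :=
  fun g hg => QN_anti h hg

lemma vv_anti {q q' : Set X × Subgroup A} (h : q ≤ q') : vv T B₀ q' ≤ vv T B₀ q :=
  MN_anti (fun p hp => ⟨(Prod.le_def.1 h).2 hp.1, fun x hx => hp.2 x
    (fun hx' => hx ((Prod.le_def.1 h).1 hx'))⟩)

lemma ww_mono {M M' : Subgroup (GG T A X)} (h : M ≤ M') : ww B₀ M ≤ ww B₀ M' :=
  MN_anti (Nn_anti (QM_mono h))

variable [Finite T] [Finite A] [Finite X] [Nonempty X]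

lemma not_minimal (hT : ∃ s t : T, s * t ≠ t * s) {M : Subgroup (GG T A X)}
    (hM : M ∈ II T X B₀) : ¬ ∀ n ∈ Nn (QM M), ∃ b ∈ B₀, n = β b := fun h =>
  QM_ne_TW hM (eq_TW hT (QM_le hM) (LInv_QM hM.1.le) (QM_ne_bot hM) h)

lemma uu_mem (hT : ∃ s t : T, s * t ≠ t * s) {M : Subgroup (GG T A X)} (hM : M ∈ II T X B₀) :
    uu M ∈ QQ X B₀ := by
  refine ⟨Ssup_ne hT (QM_le hM) (LInv_QM hM.1.le) (QM_ne_bot hM), B₀_le_Bim (QM_le hM),
    Inv_Ssup _, ?_⟩
  rintro ⟨h1, h2⟩
  apply not_minimal hT hM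
  intro n hn
  refine ⟨n.a, ?_, ?_⟩
  · have : n.a ∈ Bim (Nn (QM M)) := ⟨n.c, hn⟩
    have h2' : Bim (Nn (QM M)) = B₀ := h2
    rwa [h2'] at this
  · ext x
    · by_contra hcon
      have hx := mem_Ssup hT (QM_le hM) hn (x := x) hcon
      have h1' : Ssup (Nn (QM M)) = ∅ := h1
      rw [h1'] at hx
      exact hx
    · rfl

lemma vv_mem (hT : ∃ s t : T, s * t ≠ t * s) {q : Set X × Subgroup A} (hq : q ∈ QQ X B₀) :
    vv T B₀ q ∈ II T X B₀ :=
  MN_mem (QN_Nsb_ne_bot hT hq.2.1 hq.2.2.1 hq.1)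
    (QN_Nsb_ne_TW hT hq.2.1 hq.2.2.1 hq.1 hq.2.2.2)

lemma ww_mem (hT : ∃ s t : T, s * t ≠ t * s) {M : Subgroup (GG T A X)} (hM : M ∈ II T X B₀) :
    ww B₀ M ∈ II T X B₀ := by
  refine MN_mem ?_ ?_
  · intro h
    apply QM_ne_bot hM
    rw [eq_bot_iff, ← h]
    exact le_QN_Nn (QM_le hM)
  · intro h
    apply not_minimal hT hM
    intro n hn
    rw [← Nn_QN_Nn (QM_le hM), h] at hn
    have hn' : n ∈ (Nn (TW T X B₀) : Set (PP T A X)) := hn
    rw [Nn_TW hT] at hn'
    refine ⟨n.a, hn'.1, ?_⟩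
    ext x
    · exact hn'.2 x (notMem_empty _)
    · rfl

lemma le_ww {M : Subgroup (GG T A X)} (hM : M ∈ II T X B₀) : M ≤ ww B₀ M := by
  intro g hg
  exact le_QN_Nn (QM_le hM) ((mem_iff_QM hM.1.le g).1 hg)

lemma vv_uu_le (hT : ∃ s t : T, s * t ≠ t * s) {M : Subgroup (GG T A X)} (hM : M ∈ II T X B₀) :
    vv T B₀ (uu M) ≤ ww B₀ M := by
  apply MN_anti
  intro n hn
  refine ⟨⟨n.c, hn⟩, fun x hx => ?_⟩
  by_contra hcon
  exact hx (mem_Ssup hT (QM_le hM) hn hcon)

lemma uu_vv (hT : ∃ s t : T, s * t ≠ t * s) {q : Set X × Subgroup A} (hq : q ∈ QQ X B₀) :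
    uu (vv T B₀ q) = q := by
  classical
  have h1 := Nn_Nsb (T := T) hT hq.2.1 hq.2.2.1 hq.1
  have h2 : ∀ n : PP T A X, n ∈ Nn (QM (vv T B₀ q)) ↔ n ∈ Nsb T q.1 q.2 := by
    intro n
    rw [← h1]
    exact Iff.rfl
  refine Prod.ext ?_ ?_
  · show Ssup (Nn (QM (vv T B₀ q))) = q.1
    ext x
    constructor
    · rintro ⟨c, hc, hx⟩
      by_contra hcon
      exact hx (((h2 _).1 hc).2 x hcon)
    · intro hx
      obtain ⟨s, t, hst⟩ := hT
      refine ⟨Function.update (fun _ => 1) x s, (h2 _).2 ⟨q.2.one_mem, fun y hy => ?_⟩, ?_⟩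
      · have : y ≠ x := by rintro rfl; exact hy hx
        simp [this]
      · rw [Function.update_self]
        rintro rfl
        exact hst (by group)
  · show Bim (Nn (QM (vv T B₀ q))) = q.2
    ext a
    constructor
    · rintro ⟨c, hc⟩
      exact ((h2 _).1 hc).1
    · intro ha
      exact ⟨fun _ => 1, (h2 _).2 ⟨ha, fun _ _ => rfl⟩⟩

variable {F : Type*} [CommRing F]

lemma tendsto_chf_anti {P Q : Type*} [PartialOrder P] [PartialOrder Q] {U : Set P} {V : Set Q}
    {f : P → Q} (hf : AntitoneOn f U)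
    (hfV : MapsTo f U V) : Tendsto (fun S : Set P => f '' S) (chf U) (chf V) := by
  refine tendsto_principal_principal.2 ?_
  rintro S ⟨h1, h2, h3⟩
  refine ⟨h1.image f, ?_, ?_⟩
  · rintro _ ⟨x, hx, rfl⟩
    exact hfV (h2 hx)
  · rintro _ ⟨x, hx, rfl⟩ _ ⟨y, hy, rfl⟩ hne
    rcases h3.total hx hy with h | h
    · exact Or.inr (hf (h2 hx) (h2 hy) h)
    · exact Or.inl (hf (h2 hy) (h2 hx) h)

/-- the open interval has the cohomology of `𝒬` -/
theorem H2_II (hT : ∃ s t : T, s * t ≠ t * s) :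
    H2 F (chf (II T X B₀)) ↔ H2 F (chf (QQ X B₀)) := by
  have tu : Tendsto (fun S : Set (Subgroup (GG T A X)) => uu '' S) (chf (II T X B₀))
      (chf (QQ X B₀)) :=
    tendsto_chf_anti (fun M _ M' _ h => uu_anti h) (fun M hM => uu_mem hT hM)
  have tv : Tendsto (fun S : Set (Set X × Subgroup A) => vv T B₀ '' S) (chf (QQ X B₀))
      (chf (II T X B₀)) :=
    tendsto_chf_anti (fun M _ M' _ h => vv_anti h) (fun M hM => vv_mem hT hM)
  constructor
  · refine H2_of_dom tu tv ?_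
    exact coh_le _ _ (fun q hq q' hq' h => by
      show uu (vv T B₀ q) ≤ uu (vv T B₀ q')
      exact uu_anti (vv_anti h)) (fun q _ q' _ h => h)
      (fun q hq => uu_mem hT (vv_mem hT hq)) (fun q hq => hq)
      (fun q hq => (uu_vv hT hq).le)
  · refine H2_of_dom tv tu ?_
    have c1 : Coh F (chf (II T X B₀)) (chf (II T X B₀)) (fun M => vv T B₀ (uu M)) (ww B₀) :=
      coh_le _ _ (fun q hq q' hq' h => vv_anti (uu_anti h)) (fun q _ q' _ h => ww_mono h)
      (fun q hq => vv_mem hT (uu_mem hT hq)) (fun q hq => ww_mem hT hq)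
      (fun q hq => vv_uu_le hT hq)
    have c2 : Coh F (chf (II T X B₀)) (chf (II T X B₀)) (fun M => M) (ww B₀) :=
      coh_le _ _ (fun q _ q' _ h => h) (fun q _ q' _ h => ww_mono h)
      (fun q hq => hq) (fun q hq => ww_mem hT hq)
      (fun q hq => le_ww hq)
    exact c1.trans c2.symm

end

end Pool.Agent.Helper95.Wedge
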