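import Pool.Agent.Helper95.Wedge.Nerve

set_option autoImplicit false
set_option linter.unusedVariables false
set_option linter.unusedSectionVars false

open Filter Set Metric Topology

namespace Pool.Agent.Helper95.Wedge

variable {X Y : Type*} [PseudoMetricSpace X] [PseudoMetricSpace Y]

/-- small nonempty sets near `A` -/
def near (A : Set X) : Filter (Set X) where
  sets := {E | ∃ ε > 0, ∀ a ∈ A, ∀ S ⊆ ball a ε, S.Nonempty → S ∈ E}
  univ_sets := ⟨1, one_pos, fun _ _ _ _ _ => trivial⟩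
  sets_of_superset := by
    rintro E E' ⟨ε, hε, h⟩ hEE
    exact ⟨ε, hε, fun a ha S hS hn => hEE (h a ha S hS hn)⟩
  inter_sets := by
    rintro E E' ⟨ε, hε, h⟩ ⟨ε', hε', h'⟩
    refine ⟨min ε ε', lt_min hε hε', fun a ha S hS hn => ⟨h a ha S ?_ hn, h' a ha S ?_ hn⟩⟩
    · exact hS.trans (ball_subset_ball (min_le_left _ _))
    · exact hS.trans (ball_subset_ball (min_le_right _ _))

lemma mem_near {A : Set X} {E : Set (Set X)} :
    E ∈ near A ↔ ∃ ε > 0, ∀ a ∈ A, ∀ S ⊆ ball a ε, S.Nonempty → S ∈ E := Iff.rfl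

lemma ev_near {A : Set X} {p : Set X → Prop} :
    (∀ᶠ S in near A, p S) ↔ ∃ ε > 0, ∀ a ∈ A, ∀ S ⊆ ball a ε, S.Nonempty → p S := Iff.rfl

lemma near_low (A : Set X) : Low (near A) := by
  rintro E ⟨ε, hε, h⟩
  exact ⟨ε, hε, fun a ha S hS hn T hT hTn => h a ha T (hT.trans hS) hTn⟩

lemma near_mono {A B : Set X} (h : A ⊆ B) : near A ≤ near B := by
  rintro E ⟨ε, hε, hE⟩
  exact ⟨ε, hε, fun a ha => hE a (h ha)⟩

lemma near_empty : near (∅ : Set X) = ⊥ := by
  rw [← Filter.empty_mem_iff_bot]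
  exact ⟨1, one_pos, fun a ha => absurd ha (Set.notMem_empty a)⟩

lemma near_union (A B : Set X) : near (A ∪ B) = near A ⊔ near B := by
  apply le_antisymm
  · rintro E ⟨⟨ε, hε, h⟩, ⟨ε', hε', h'⟩⟩
    refine ⟨min ε ε', lt_min hε hε', ?_⟩
    rintro a (ha | ha) S hS hn
    · exact h a ha S (hS.trans (ball_subset_ball (min_le_left _ _))) hn
    · exact h' a ha S (hS.trans (ball_subset_ball (min_le_right _ _))) hn
  · exact sup_le (near_mono subset_union_left) (near_mono subset_union_right)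

lemma near_inter {A B : Set X} (hA : IsCompact A) (hB : IsClosed B) :
    near (A ∩ B) = near A ⊓ near B := by
  apply le_antisymm
  · exact le_inf (near_mono inter_subset_left) (near_mono inter_subset_right)
  · rintro E ⟨ε, hε, h⟩
    -- points of A far from A ∩ B
    let A' : Set X := A ∩ {a | ∀ c ∈ A ∩ B, ε / 2 ≤ dist a c}
    have hA'c : IsClosed {a : X | ∀ c ∈ A ∩ B, ε / 2 ≤ dist a c} := by
      have : {a : X | ∀ c ∈ A ∩ B, ε / 2 ≤ dist a c} =
          ⋂ c ∈ A ∩ B, {a : X | ε / 2 ≤ dist a c} := by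
        ext a; simp
      rw [this]
      exact isClosed_biInter fun c _ =>
        isClosed_le continuous_const (continuous_id.dist continuous_const)
    have hA' : IsCompact A' := hA.inter_right hA'c
    have hsub : A' ⊆ Bᶜ := by
      rintro a ⟨ha, hac⟩ haB
      have := hac a ⟨ha, haB⟩
      rw [dist_self] at this
      linarith
    obtain ⟨δ, hδ, hth⟩ := hA'.exists_thickening_subset_open hB.isOpen_compl hsub
    have hδ' : 0 < min (δ / 2) (ε / 2) := lt_min (by linarith) (by linarith)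
    refine Filter.mem_inf_of_inter
      (s := {S | ∃ a ∈ A, S.Nonempty ∧ S ⊆ ball a (min (δ / 2) (ε / 2))})
      (t := {S | ∃ b ∈ B, S ⊆ ball b (min (δ / 2) (ε / 2))})
      ⟨_, hδ', fun a ha S hS hn => ⟨a, ha, hn, hS⟩⟩ ⟨_, hδ', fun b hb S hS hn => ⟨b, hb, hS⟩⟩ ?_
    rintro S ⟨⟨a, ha, hn, hSa⟩, ⟨b, hb, hSb⟩⟩
    obtain ⟨s, hs⟩ := hn
    have h1 := mem_ball.1 (hSa hs)
    have h2 := mem_ball.1 (hSb hs)
    have h3 : dist a b < δ := by
      have : dist a b ≤ dist s a + dist s b := by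
        rw [dist_comm s a]; exact dist_triangle a s b
      have h4 := min_le_left (δ / 2) (ε / 2)
      linarith
    have h5 : a ∉ A' := by
      intro haA
      have : b ∈ thickening δ A' := mem_thickening_iff.2 ⟨a, haA, by rwa [dist_comm]⟩
      exact hth this hb
    have h6 : ∃ c ∈ A ∩ B, dist a c < ε / 2 := by
      by_contra hcon
      push Not at hcon
      exact h5 ⟨ha, hcon⟩
    obtain ⟨c, hc, hac⟩ := h6
    refine h c hc S ?_ ⟨s, hs⟩
    intro x hx
    have h7 := mem_ball.1 (hSa hx)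
    have h8 := min_le_right (δ / 2) (ε / 2)
    have h9 := dist_triangle x a c
    exact mem_ball.2 (by linarith)

/-- near filters contain only nonempty sets -/
lemma near_nonempty (A : Set X) : ∀ᶠ S in near A, S.Nonempty :=
  ⟨1, one_pos, fun _ _ _ _ hn => hn⟩

lemma near_freq {A : Set X} {a : X} (ha : a ∈ A) : ∃ᶠ S in near A, a ∈ S := by
  intro hcon
  obtain ⟨ε, hε, h⟩ := hcon
  exact h a ha {a} (by simpa using hε) (singleton_nonempty a) rfl

lemma near_freq' {A : Set X} (hA : A.Nonempty) : ∃ᶠ S in near A, S.Nonempty := by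
  obtain ⟨a, ha⟩ := hA
  exact (near_freq ha).mono fun S h => ⟨a, h⟩

/-- uniform continuity at a compact set -/
lemma unif_cont {A : Set X} (hA : IsCompact A) {f : X → Y} (hf : ∀ a ∈ A, ContinuousAt f a)
    {ε : ℝ} (hε : 0 < ε) : ∃ δ > 0, ∀ a ∈ A, ∀ x ∈ ball a δ, dist (f x) (f a) < ε := by
  have h := hA.uniformContinuousAt_of_continuousAt f hf (dist_mem_uniformity hε)
  obtain ⟨δ, hδ, hδ'⟩ := Metric.mem_uniformity_dist.1 h
  refine ⟨δ, hδ, fun a ha x hx => ?_⟩
  have := hδ' (a := a) (b := x) (by rw [dist_comm]; exact hx) ha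
  rw [dist_comm]
  exact this

/-- control condition -/
lemma tendsto_of_ctrl {A : Set X} {B : Set Y} {f g : X → Y}
    (h : ∀ ε > 0, ∃ δ > 0, ∀ a ∈ A, ∃ b ∈ B, ∀ x ∈ ball a δ, dist (f x) b < ε ∧ dist (g x) b < ε) :
    Tendsto (fun S : Set X => f '' S ∪ g '' S) (near A) (near B) := by
  rintro E ⟨ε, hε, hE⟩
  obtain ⟨δ, hδ, hh⟩ := h ε hε
  refine ⟨δ, hδ, fun a ha S hS hn => ?_⟩
  obtain ⟨b, hb, hab⟩ := hh a ha
  refine hE b hb _ ?_ ?_
  · rintro _ (⟨x, hx, rfl⟩ | ⟨x, hx, rfl⟩)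
    · exact (hab x (hS hx)).1
    · exact (hab x (hS hx)).2
  · obtain ⟨x, hx⟩ := hn
    exact ⟨f x, Or.inl ⟨x, hx, rfl⟩⟩

lemma tendsto_image {A : Set X} {B : Set Y} (hA : IsCompact A) {f : X → Y}
    (hf : ∀ a ∈ A, ContinuousAt f a) (hAB : ∀ a ∈ A, f a ∈ B) :
    Tendsto (fun S : Set X => f '' S) (near A) (near B) := by
  have := tendsto_of_ctrl (A := A) (B := B) (f := f) (g := f) (fun ε hε => by
    obtain ⟨δ, hδ, h⟩ := unif_cont hA hf hε
    exact ⟨δ, hδ, fun a ha => ⟨f a, hAB a ha, fun x hx => ⟨h a ha x hx, h a ha x hx⟩⟩⟩)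
  simpa using this

variable {F : Type*} [CommRing F]

lemma coh_of_eqOn {A : Set X} {B : Set Y} (hA : IsCompact A) {f g : X → Y}
    (hf : ∀ a ∈ A, ContinuousAt f a) (hg : ∀ a ∈ A, ContinuousAt g a)
    (hAB : ∀ a ∈ A, f a ∈ B) (hfg : ∀ a ∈ A, f a = g a) : Coh F (near A) (near B) f g := by
  refine coh_of_contig (tendsto_of_ctrl fun ε hε => ?_)
  obtain ⟨δ, hδ, h⟩ := unif_cont hA hf hε
  obtain ⟨δ', hδ', h'⟩ := unif_cont hA hg hε
  refine ⟨min δ δ', lt_min hδ hδ', fun a ha => ⟨f a, hAB a ha, fun x hx => ⟨?_, ?_⟩⟩⟩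
  · exact h a ha x (ball_subset_ball (min_le_left _ _) hx)
  · rw [hfg a ha]
    exact h' a ha x (ball_subset_ball (min_le_right _ _) hx)

lemma ind2 (P : unitInterval → unitInterval → Prop) (h : ∀ x, ∀ᶠ y in 𝓝 x, P x y)
    (htr : ∀ t s u, P t s → P s u → P t u) (hsymm : ∀ t s, P t s → P s t) : P 0 1 := by
  have : Std.Symm P := ⟨hsymm⟩
  exact PreconnectedSpace.induction₂ P h ⟨htr⟩ 0 1

/-- homotopy invariance -/
lemma coh_of_homotopy {A : Set X} {B : Set Y} (hA : IsCompact A) (h : unitInterval × X → Y)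
    (hc : ∀ t, ∀ a ∈ A, ContinuousAt h (t, a)) (hAB : ∀ t, ∀ a ∈ A, h (t, a) ∈ B) :
    Coh F (near A) (near B) (fun x => h (0, x)) (fun x => h (1, x)) := by
  -- local closeness
  have key : ∀ ε > 0, ∀ t : unitInterval, ∀ᶠ s in 𝓝 t, ∃ δ > 0, ∀ a ∈ A, ∀ x ∈ ball a δ,
      dist (h (t, x)) (h (t, a)) < ε ∧ dist (h (s, x)) (h (t, a)) < ε := by
    intro ε hε t
    have hcomp : IsCompact (({t} : Set unitInterval) ×ˢ A) := isCompact_singleton.prod hA
    obtain ⟨δ, hδ, hh⟩ := unif_cont hcomp (f := h) (by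
      rintro ⟨s, a⟩ ⟨hs, ha⟩
      exact hc s a ha) hε
    filter_upwards [ball_mem_nhds t hδ] with s hs
    refine ⟨δ, hδ, fun a ha x hx => ⟨hh (t, a) ⟨rfl, ha⟩ (t, x) ?_, hh (t, a) ⟨rfl, ha⟩ (s, x) ?_⟩⟩
    · rw [mem_ball, Prod.dist_eq]
      simp only [dist_self]
      exact max_lt hδ hx
    · rw [mem_ball, Prod.dist_eq]
      exact max_lt hs hx
  have key2 : ∀ E ∈ near B, ∀ t : unitInterval, ∀ᶠ s in 𝓝 t,
      ∀ᶠ S in near A, (fun x => h (t, x)) '' S ∪ (fun x => h (s, x)) '' S ∈ E := by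
    rintro E ⟨ε, hε, hE⟩ t
    filter_upwards [key ε hε t] with s hs
    obtain ⟨δ, hδ, hh⟩ := hs
    refine ⟨δ, hδ, fun a ha S hS hn => hE (h (t, a)) (hAB t a ha) _ ?_ ?_⟩
    · rintro _ (⟨x, hx, rfl⟩ | ⟨x, hx, rfl⟩)
      · exact (hh a ha x (hS hx)).1
      · exact (hh a ha x (hS hx)).2
    · obtain ⟨x, hx⟩ := hn
      exact ⟨h (t, x), Or.inl ⟨x, hx, rfl⟩⟩
  refine ⟨fun χ hχ => ?_, fun φ hφ => ?_, fun φ hφ => ?_⟩
  · refine ind2
      (fun t s => Ev1 (near A) (fun x => χ (h (t, x)) = χ (h (s, x)))) ?_ ?_ ?_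
    · intro t
      filter_upwards [key2 _ hχ t] with s hs
      filter_upwards [hs] with S a
      exact prism0 χ a
    · intro t s u h1 h2
      filter_upwards [h1, h2] with S a b x hx
      exact (a x hx).trans (b x hx)
    · intro t s h1
      filter_upwards [h1] with S a x hx
      exact (a x hx).symm
  · refine ind2
      (fun t s => ∃ χ : X → F, Ev2 (near A)
        (fun x y => φ (h (s, x)) (h (s, y)) - φ (h (t, x)) (h (t, y)) = χ y - χ x)) ?_ ?_ ?_
    · intro t
      filter_upwards [key2 _ hφ t] with s hs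
      refine ⟨fun x => φ (h (t, x)) (h (s, x)), ?_⟩
      filter_upwards [hs] with S a
      exact prism1 φ a
    · rintro t s u ⟨χ, h1⟩ ⟨χ', h2⟩
      refine ⟨fun x => χ x + χ' x, ?_⟩
      filter_upwards [h1, h2] with S a b x hx y hy
      linear_combination a x hx y hy + b x hx y hy
    · rintro t s ⟨χ, h1⟩
      refine ⟨fun x => - χ x, ?_⟩
      filter_upwards [h1] with S a x hx y hy
      linear_combination - a x hx y hy
  · refine ind2
      (fun t s => ∃ ψ : X → X → F, Ev3 (near A)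
        (fun x y z => φ (h (s, x)) (h (s, y)) (h (s, z)) - φ (h (t, x)) (h (t, y)) (h (t, z))
          = d1 ψ x y z)) ?_ ?_ ?_
    · intro t
      filter_upwards [key2 _ hφ t] with s hs
      refine ⟨fun x y => φ (h (t, x)) (h (s, x)) (h (s, y)) -
        φ (h (t, x)) (h (t, y)) (h (s, y)), ?_⟩
      filter_upwards [hs] with S a
      exact prism2 φ a
    · rintro t s u ⟨χ, h1⟩ ⟨χ', h2⟩
      refine ⟨fun x y => χ x y + χ' x y, ?_⟩
      filter_upwards [h1, h2] with S a b x hx y hy z hz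
      have e1 := a x hx y hy z hz
      have e2 := b x hx y hy z hz
      simp only [d1] at *
      linear_combination e1 + e2
    · rintro t s ⟨χ, h1⟩
      refine ⟨fun x y => - χ x y, ?_⟩
      filter_upwards [h1] with S a x hx y hy z hz
      have e1 := a x hx y hy z hz
      simp only [d1] at *
      linear_combination - e1

/-- contraction of a compact set -/
lemma coh_contract {A : Set X} (hA : IsCompact A) (h : unitInterval × X → X) {b : X}
    (hc : ∀ t, ∀ a ∈ A, ContinuousAt h (t, a)) (hAA : ∀ t, ∀ a ∈ A, h (t, a) ∈ A)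
    (h0 : ∀ a ∈ A, h (0, a) = a) (h1 : ∀ a ∈ A, h (1, a) = b) (hb : b ∈ A) :
    Coh F (near A) (near A) (fun x => x) (fun _ => b) := by
  have c1 : Coh F (near A) (near A) (fun x => x) (fun x => h (0, x)) := by
    refine coh_of_eqOn hA (fun a ha => continuousAt_id) (fun a ha => ?_) (fun a ha => ha)
      (fun a ha => (h0 a ha).symm)
    exact ContinuousAt.comp (f := fun x => ((0 : unitInterval), x)) (hc 0 a ha)
      (by fun_prop)
  have c2 : Coh F (near A) (near A) (fun x => h (1, x)) (fun _ => b) := by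
    refine coh_of_eqOn hA (fun a ha => ?_) (fun a ha => continuousAt_const)
      (fun a ha => hAA 1 a ha) (fun a ha => h1 a ha)
    exact ContinuousAt.comp (f := fun x => ((1 : unitInterval), x)) (hc 1 a ha)
      (by fun_prop)
  exact c1.trans ((coh_of_homotopy hA h hc hAA).trans c2)

lemma H0_contract {A : Set X} (hA : IsCompact A) (h : unitInterval × X → X) {b : X}
    (hc : ∀ t, ∀ a ∈ A, ContinuousAt h (t, a)) (hAA : ∀ t, ∀ a ∈ A, h (t, a) ∈ A)
    (h0 : ∀ a ∈ A, h (0, a) = a) (h1 : ∀ a ∈ A, h (1, a) = b) (hb : b ∈ A) :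
    H0 F (near A) ∧ H1 F (near A) ∧ H2 F (near A) := by
  have := coh_contract (F := F) hA h hc hAA h0 h1 hb
  exact ⟨H0_of_const this, H1_of_const (near_freq hb) this, H2_of_const this⟩

/-- an approximate nearest point retraction -/
lemma exists_rho {A : Set X} (hA : A.Nonempty) (hcl : IsClosed A) : ∃ ρ : X → X,
    (∀ x, ρ x ∈ A) ∧ (∀ a ∈ A, ρ a = a) ∧
    ∀ ε > 0, ∃ δ > 0, ∀ a ∈ A, ∀ x ∈ ball a δ, dist (ρ x) a < ε := by
  classical
  have h : ∀ x, ∃ y ∈ A, (x ∈ A → y = x) ∧ (x ∉ A → dist x y < 2 * infDist x A) := by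
    intro x
    by_cases hx : x ∈ A
    · exact ⟨x, hx, fun _ => rfl, fun h => absurd hx h⟩
    · have hpos : 0 < infDist x A := (hcl.notMem_iff_infDist_pos hA).1 hx
      obtain ⟨y, hy, hxy⟩ := (infDist_lt_iff hA).1 (show infDist x A < 2 * infDist x A by linarith)
      exact ⟨y, hy, fun h => absurd h hx, fun _ => hxy⟩
  choose ρ h1 h2 h3 using h
  refine ⟨ρ, h1, fun a ha => h2 a ha, fun ε hε => ⟨ε / 3, by linarith, fun a ha x hx => ?_⟩⟩
  by_cases hxA : x ∈ A
  · rw [h2 x hxA]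
    have := mem_ball.1 hx
    linarith
  · have e1 := h3 x hxA
    have e2 : infDist x A ≤ dist x a := infDist_le_dist_of_mem ha
    have e3 := mem_ball.1 hx
    have e4 := dist_triangle (ρ x) x a
    rw [dist_comm (ρ x) x] at e4
    linarith

section Taut

variable {A : Set X}

/-- the ambient and the intrinsic theories agree (tautness) -/
lemma H2_taut (hcl : IsClosed A) : H2 F (near A) ↔ H2 F (near (univ : Set A)) := by
  rcases A.eq_empty_or_nonempty with hA | hA
  · subst hA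
    rw [near_empty]
    have : (univ : Set (∅ : Set X)) = ∅ := by
      ext x; exact absurd x.2 (notMem_empty _)
    rw [this, near_empty]
    exact ⟨fun _ => H2_bot F, fun _ => H2_bot F⟩
  obtain ⟨ρ, h1, h2, h3⟩ := exists_rho hA hcl
  have tr : Tendsto (fun S : Set X => (fun x => (⟨ρ x, h1 x⟩ : A)) '' S) (near A)
      (near (univ : Set A)) := by
    rintro E ⟨ε, hε, hE⟩
    obtain ⟨δ, hδ, hh⟩ := h3 ε hε
    refine ⟨δ, hδ, fun a ha S hS hn => hE ⟨a, ha⟩ trivial _ ?_ (hn.image _)⟩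
    rintro _ ⟨x, hx, rfl⟩
    exact hh a ha x (hS hx)
  have ti : Tendsto (fun S : Set A => (fun x : A => (x : X)) '' S) (near (univ : Set A))
      (near A) := by
    rintro E ⟨ε, hε, hE⟩
    refine ⟨ε, hε, fun a _ S hS hn => hE a a.2 _ ?_ (hn.image _)⟩
    rintro _ ⟨x, hx, rfl⟩
    exact hS hx
  constructor
  · refine H2_of_dom tr ti ?_
    have : (fun y : A => (⟨ρ y, h1 y⟩ : A)) = fun y => y := by
      funext y
      exact Subtype.ext (h2 y y.2)
    rw [this]
    exact Coh.refl _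
  · refine H2_of_dom ti tr (coh_of_contig (tendsto_of_ctrl fun ε hε => ?_))
    obtain ⟨δ, hδ, hh⟩ := h3 ε hε
    refine ⟨min δ ε, lt_min hδ hε, fun a ha => ⟨a, ha, fun x hx => ⟨?_, ?_⟩⟩⟩
    · exact hh a ha x (ball_subset_ball (min_le_left _ _) hx)
    · exact ball_subset_ball (min_le_right _ _) hx

end Taut

/-- homotopy equivalent compact spaces -/
lemma H2_of_homotopyEquiv {A : Set X} {B : Set Y} (hA : IsCompact A) (hB : IsCompact B)
    (hAc : IsClosed A) (hBc : IsClosed B)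
    (e : ContinuousMap.HomotopyEquiv A B) (h : H2 F (near A)) : H2 F (near B) := by
  rw [H2_taut hAc] at h
  rw [H2_taut hBc]
  have : CompactSpace A := isCompact_iff_compactSpace.1 hA
  have : CompactSpace B := isCompact_iff_compactSpace.1 hB
  refine H2_of_dom (i := e.toFun) (r := e.invFun)
    (tendsto_image isCompact_univ (fun a _ => e.toFun.continuous.continuousAt) (fun _ _ => trivial))
    (tendsto_image isCompact_univ (fun a _ => e.invFun.continuous.continuousAt)
      (fun _ _ => trivial)) ?_ h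
  obtain ⟨H⟩ := e.right_inv
  have := coh_of_homotopy (F := F) (A := (univ : Set B)) (B := (univ : Set B)) isCompact_univ
    (fun p => H p) (fun t a _ => H.continuous.continuousAt) (fun _ _ _ => trivial)
  simpa using this

/-- star-shaped compact sets -/
lemma H_star {E : Type*} [NormedAddCommGroup E] [NormedSpace ℝ E] {A : Set E} {b : E}
    (hA : IsCompact A) (hb : b ∈ A) (hs : StarConvex ℝ b A) :
    H0 F (near A) ∧ H1 F (near A) ∧ H2 F (near A) := by
  refine H0_contract hA (fun p => (p.1 : ℝ) • b + (1 - (p.1 : ℝ)) • p.2) (b := b) ?_ ?_ ?_ ?_ hb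
  · intro t a _
    fun_prop
  · intro t a ha
    exact hs ha t.2.1 (by linarith [t.2.2]) (by ring)
  · intro a _
    simp
  · intro a _
    simp

end Pool.Agent.Helper95.Wedge
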