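import Pool.Agent.Helper95.Wedge.Interval

set_option autoImplicit false
set_option linter.unusedVariables false
set_option linter.unusedSectionVars false

open Filter Set

namespace Pool.Agent.Helper95.Wedge

/-- the points -/
abbrev Om : Type := Fin 10 → ZMod 5

/-- the group `A` -/
abbrev AA : Type := Fin 6 → Equiv.Perm Om

/-- pointwise stabiliser outside `s` -/
def Bsub (s : Set (Fin 6)) : Subgroup AA where
  carrier := {a | ∀ i, i ∉ s → a i 0 = 0}
  mul_mem' := by
    intro a b ha hb i hi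
    show a i (b i 0) = 0
    rw [hb i hi, ha i hi]
  one_mem' := fun i _ => rfl
  inv_mem' := by
    intro a ha i hi
    show (a i)⁻¹ 0 = 0
    rw [Equiv.Perm.inv_eq_iff_eq]
    exact (ha i hi).symm

lemma mem_Bsub {s : Set (Fin 6)} {a : AA} : a ∈ Bsub s ↔ ∀ i, i ∉ s → a i 0 = 0 := Iff.rfl

/-- the condition on translations -/
def VS : AddSubgroup (Fin 6 → Om) where
  carrier := {v | ∀ F : Fin 10, ∑ j ∈ Finset.univ.filter (fun j => j ∉ facet F), v j F = 0}
  add_mem' := by
    intro v w hv hw F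
    simp only [Pi.add_apply, Finset.sum_add_distrib]
    rw [hv F, hw F, add_zero]
  zero_mem' := by
    intro F
    simp
  neg_mem' := by
    intro v hv F
    simp only [Pi.neg_apply, Finset.sum_neg_distrib]
    rw [hv F, neg_zero]

/-- the group of translations -/
def HA : Subgroup AA where
  carrier := {a | ∃ v ∈ VS, ∀ j, a j = Equiv.addRight (v j)}
  mul_mem' := by
    rintro a b ⟨v, hv, ha⟩ ⟨w, hw, hb⟩
    refine ⟨w + v, VS.add_mem hw hv, fun j => ?_⟩
    ext1 x
    show a j (b j x) = x + (w j + v j)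
    rw [ha, hb]
    simp [add_assoc]
  one_mem' := by
    refine ⟨0, VS.zero_mem, fun j => ?_⟩
    ext1 x
    simp
  inv_mem' := by
    rintro a ⟨v, hv, ha⟩
    refine ⟨-v, VS.neg_mem hv, fun j => ?_⟩
    show (a j)⁻¹ = _
    rw [ha]
    ext1 x
    rw [Equiv.Perm.inv_eq_iff_eq]
    simp

abbrev XX : Type := AA ⧸ HA

/-- the invariant attached to a facet, before passing to the quotient -/
def th (F : Fin 10) (a : AA) : ZMod 5 :=
  ∑ j ∈ Finset.univ.filter (fun j => j ∉ facet F), ((a j)⁻¹ 0) F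

lemma th_mul (F : Fin 10) (a : AA) {h : AA} (hh : h ∈ HA) : th F (a * h) = th F a := by
  obtain ⟨v, hv, hv'⟩ := hh
  have h1 : ∀ j, ((a * h) j)⁻¹ 0 = ((a j)⁻¹ 0) - v j := by
    intro j
    rw [Equiv.Perm.inv_eq_iff_eq]
    show 0 = a j (h j ((a j)⁻¹ 0 - v j))
    rw [hv']
    simp
  unfold th
  simp only [h1, Pi.sub_apply, Finset.sum_sub_distrib]
  rw [hv F, sub_zero]

def Th (F : Fin 10) : XX → ZMod 5 :=
  Quotient.lift (th F) (by
    intro a b hab
    have h : a⁻¹ * b ∈ HA := QuotientGroup.leftRel_apply.1 hab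
    have : b = a * (a⁻¹ * b) := by group
    rw [this, th_mul F a h])

lemma Th_mk (F : Fin 10) (a : AA) : Th F (a : XX) = th F a := rfl

lemma exists_notMem_facet : ∀ F : Fin 10, ∃ j, j ∉ facet F := by decide

lemma Th_surj (F : Fin 10) : Function.Surjective (Th F) := by
  intro t
  obtain ⟨j₀, hj₀⟩ := exists_notMem_facet F
  refine ⟨((Pi.mulSingle j₀ (Equiv.addRight (fun _ => -t)) : AA) : XX), ?_⟩
  rw [Th_mk]
  unfold th
  rw [Finset.sum_eq_single j₀]
  · rw [Pi.mulSingle_eq_same]
    have : (Equiv.addRight (fun _ => -t) : Equiv.Perm Om)⁻¹ 0 = fun _ => t := by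
      rw [Equiv.Perm.inv_eq_iff_eq]
      funext i
      simp
    rw [this]
  · intro b _ hb
    rw [Pi.mulSingle_eq_of_ne hb]
    rfl
  · intro h
    exact absurd (by simpa using hj₀) h

lemma Th_inv (F : Fin 10) (j : Fin 6) (hj : j ∈ facet F) (b : AA) (hb : b ∈ Bsub {j}) (x : XX) :
    Th F (b • x) = Th F x := by
  obtain ⟨a, rfl⟩ := QuotientGroup.mk_surjective x
  show th F (b * a) = th F a
  unfold th
  refine Finset.sum_congr rfl fun i hi => ?_
  have hi' : i ∉ facet F := by simpa using hi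
  have hij : i ∉ ({j} : Set (Fin 6)) := by
    intro h
    rw [mem_singleton_iff.1 h] at hi'
    exact hi' hj
  have h1 : b i 0 = 0 := hb i hij
  have h2 : ((b * a) i)⁻¹ 0 = (a i)⁻¹ 0 := by
    rw [Equiv.Perm.inv_eq_iff_eq]
    show 0 = b i (a i ((a i)⁻¹ 0))
    simp [h1]
  rw [h2]

lemma exists_third (w : Om) : ∃ e : Om, e ≠ 0 ∧ e ≠ w := by
  have h : ∃ t : ZMod 5, t ≠ 0 ∧ t ≠ w 0 := by
    have : ∀ s : ZMod 5, ∃ t : ZMod 5, t ≠ 0 ∧ t ≠ s := by decide
    exact this _
  obtain ⟨t, ht0, htw⟩ := h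
  refine ⟨fun _ => t, fun h => ht0 (congrFun h 0), fun h => htw (congrFun h 0)⟩

lemma single_mem_Bsub_empty {s : Equiv.Perm Om} (hs : s 0 = 0) (j : Fin 6) :
    (Pi.mulSingle j s : AA) ∈ Bsub ∅ := by
  intro i _
  by_cases h : i = j
  · subst h; rw [Pi.mulSingle_eq_same]; exact hs
  · rw [Pi.mulSingle_eq_of_ne h]; rfl

lemma atom_aux {B : Subgroup AA} (hB : Bsub ∅ ≤ B) {b : AA} (hb : b ∈ B) {j : Fin 6}
    (hbj : b j 0 ≠ 0) (s : Equiv.Perm Om) : (Pi.mulSingle j s : AA) ∈ B := by
  let K : Subgroup (Equiv.Perm Om) := B.comap (MonoidHom.mulSingle (fun _ => Equiv.Perm Om) j)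
  have hK : ∀ s, s ∈ K ↔ (Pi.mulSingle j s : AA) ∈ B := fun s => Iff.rfl
  have h0 : ∀ s : Equiv.Perm Om, s 0 = 0 → s ∈ K := fun s hs =>
    hB (single_mem_Bsub_empty hs j)
  have hw : ∀ s : Equiv.Perm Om, s (b j 0) = b j 0 → s ∈ K := by
    intro s hs
    have h1 : ((b j)⁻¹ * s * b j) 0 = 0 := by
      show (b j)⁻¹ (s (b j 0)) = 0
      rw [hs]
      simp
    have h2 := mul_mem (mul_mem hb (h0 _ h1)) (inv_mem hb)
    rw [hK]
    have h3 : b * MonoidHom.mulSingle (fun _ => Equiv.Perm Om) j ((b j)⁻¹ * s * b j) * b⁻¹ =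
        Pi.mulSingle j s := by
      funext i
      by_cases h : i = j
      · subst h
        simp only [Pi.mul_apply, MonoidHom.mulSingle_apply, Pi.mulSingle_eq_same, Pi.inv_apply]
        group
      · simp [Pi.mulSingle_eq_of_ne h]
    rw [h3] at h2
    exact h2
  obtain ⟨e, he0, hew⟩ := exists_third (b j 0)
  have h1 : Equiv.swap 0 e ∈ K := hw _ (Equiv.swap_apply_of_ne_of_ne hbj (Ne.symm hew))
  show s ∈ K
  by_cases hs : s 0 = 0
  · exact h0 s hs
  · have h2 : Equiv.swap e (s 0) ∈ K := h0 _ (Equiv.swap_apply_of_ne_of_ne (Ne.symm he0) (Ne.symm hs))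
    have h3 : (Equiv.swap e (s 0) * Equiv.swap 0 e)⁻¹ * s ∈ K := by
      apply h0
      show (Equiv.swap e (s 0) * Equiv.swap 0 e)⁻¹ (s 0) = 0
      rw [Equiv.Perm.inv_eq_iff_eq]
      simp
    have : s = (Equiv.swap e (s 0) * Equiv.swap 0 e) *
      ((Equiv.swap e (s 0) * Equiv.swap 0 e)⁻¹ * s) := by group
    rw [this]
    exact mul_mem (mul_mem h2 h1) h3

lemma trans_aux {σ : Set (Fin 6)} (hσ : σ ∉ RP) (hne : σ.Nonempty) (x y : XX) :
    ∃ b ∈ Bsub σ, b • x = y := by
  classical
  obtain ⟨a, rfl⟩ := QuotientGroup.mk_surjective x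
  obtain ⟨a', rfl⟩ := QuotientGroup.mk_surjective y
  have h1 : ∀ F : Fin 10, ∃ j ∈ σ, j ∉ facet F := by
    intro F
    by_contra hcon
    push Not at hcon
    exact hσ ⟨hne, F, fun j hj => hcon j hj⟩
  choose jF hjσ hjF using h1
  let w : Fin 6 → Om := fun i => (a i)⁻¹ 0 - (a' i)⁻¹ 0
  let w' : Fin 10 → Fin 6 → ZMod 5 := fun F j => if j ∈ σ then 0 else w j F
  let v : Fin 6 → Om := fun j F => Function.update (w' F) (jF F)
    (-∑ i ∈ (Finset.univ.filter (fun j => j ∉ facet F)) \ {jF F}, w' F i) j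
  have hv : v ∈ VS := by
    intro F
    show ∑ j ∈ Finset.univ.filter (fun j => j ∉ facet F), Function.update (w' F) (jF F)
      (-∑ i ∈ (Finset.univ.filter (fun j => j ∉ facet F)) \ {jF F}, w' F i) j = 0
    rw [Finset.sum_update_of_mem (by simpa using hjF F)]
    simp
  have hvw : ∀ i, i ∉ σ → v i = w i := by
    intro i hi
    funext F
    have h1 : i ≠ jF F := by
      intro h; exact hi (h ▸ hjσ F)
    show Function.update (w' F) (jF F) _ i = w i F
    rw [Function.update_of_ne h1]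
    simp [w', hi]
  let h : AA := fun j => Equiv.addRight (v j)
  have hh : h ∈ HA := ⟨v, hv, fun j => rfl⟩
  refine ⟨a' * h⁻¹ * a⁻¹, ?_, ?_⟩
  · intro i hi
    show a' i ((h i)⁻¹ ((a i)⁻¹ 0)) = 0
    have h2 : (h i)⁻¹ ((a i)⁻¹ 0) = (a' i)⁻¹ 0 := by
      rw [Equiv.Perm.inv_eq_iff_eq]
      show (a i)⁻¹ 0 = (a' i)⁻¹ 0 + v i
      rw [hvw i hi]
      simp [w]
    rw [h2]
    simp
  · show ((a' * h⁻¹ * a⁻¹ * a : AA) : XX) = (a' : XX)
    rw [inv_mul_cancel_right]
    apply QuotientGroup.eq.2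
    have : (a' * h⁻¹)⁻¹ * a' = h := by group
    rw [this]
    exact hh

theorem data : Data XX (Bsub ∅) (fun j => Bsub {j}) where
  top := by
    intro h
    obtain ⟨e, he, _⟩ := exists_third 0
    have : (fun _ => Equiv.swap 0 e : AA) ∈ Bsub ∅ := by rw [h]; trivial
    have := this 0 (notMem_empty _)
    rw [Equiv.swap_apply_left] at this
    exact he this
  le := fun j a ha i _ => ha i (notMem_empty _)
  ne := by
    intro j h
    obtain ⟨e, he, _⟩ := exists_third 0
    have h1 : (Pi.mulSingle j (Equiv.swap 0 e) : AA) ∈ Bsub {j} := by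
      intro i hi
      rw [Pi.mulSingle_eq_of_ne (fun h => hi (mem_singleton_iff.2 h))]
      rfl
    rw [h] at h1
    have := h1 j (notMem_empty _)
    rw [Pi.mulSingle_eq_same, Equiv.swap_apply_left] at this
    exact he this
  atom := by
    intro B hB hne
    obtain ⟨b, hb, hb0⟩ : ∃ b ∈ B, b ∉ Bsub ∅ := by
      by_contra hcon
      push Not at hcon
      exact hne (le_antisymm hcon hB)
    obtain ⟨j, hj⟩ : ∃ j, b j 0 ≠ 0 := by
      by_contra hcon
      push Not at hcon
      exact hb0 (fun i _ => hcon i)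
    refine ⟨j, fun a ha => ?_⟩
    have h1 := atom_aux hB hb hj (a j)
    have h2 : (Pi.mulSingle j (a j) : AA)⁻¹ * a ∈ Bsub ∅ := by
      intro i _
      by_cases h : i = j
      · subst h
        simp
      · have : ((Pi.mulSingle j (a j) : AA)⁻¹ * a) i = a i := by
          simp [Pi.mulSingle_eq_of_ne h]
        rw [this]
        exact ha i (fun h' => h (mem_singleton_iff.1 h'))
    have : a = Pi.mulSingle j (a j) * ((Pi.mulSingle j (a j) : AA)⁻¹ * a) := by group
    rw [this]
    exact mul_mem h1 (hB h2)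
  orb := by
    intro F
    exact ⟨Th F, Th_surj F, fun j hj b hb x => Th_inv F j hj b hb x⟩
  trans := by
    intro σ hσ hne S hS
    rcases S.eq_empty_or_nonempty with h | ⟨x, hx⟩
    · exact Or.inl h
    · right
      obtain ⟨j0, hj0⟩ := hne
      let K : Subgroup AA :=
        { carrier := {a | ∀ x : XX, a • x ∈ S ↔ x ∈ S}
          mul_mem' := by
            intro a b ha hb x
            rw [mul_smul, ha, hb]
          one_mem' := by intro x; rw [one_smul]
          inv_mem' := by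
            intro a ha x
            have := ha (a⁻¹ • x)
            rw [smul_inv_smul] at this
            exact this.symm }
      have hK : ∀ j ∈ σ, Bsub {j} ≤ K := by
        intro j hj b hb x
        constructor
        · intro h
          have := hS j hj b⁻¹ (inv_mem hb) _ h
          rwa [inv_smul_smul] at this
        · intro h
          exact hS j hj b hb x h
      rw [Set.eq_univ_iff_forall]
      intro y
      obtain ⟨b, hb, rfl⟩ := trans_aux hσ ⟨j0, hj0⟩ x y
      have hbK : b ∈ K := by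
        apply Subgroup.pi_mem_of_mulSingle_mem
        intro i
        by_cases hi : i ∈ σ
        · apply hK i hi
          intro k hk
          rw [Pi.mulSingle_eq_of_ne (fun h => hk (mem_singleton_iff.2 h))]
          rfl
        · apply hK j0 hj0
          intro k _
          by_cases hki : k = i
          · subst hki
            rw [Pi.mulSingle_eq_same]
            exact hb k hi
          · rw [Pi.mulSingle_eq_of_ne hki]
            rfl
      exact (hbK x).2 hx

lemma A5_noncomm : ∃ s t : alternatingGroup (Fin 5), s * t ≠ t * s := by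
  refine ⟨⟨Equiv.swap 0 1 * Equiv.swap 1 2, ?_⟩, ⟨Equiv.swap 0 1 * Equiv.swap 1 3, ?_⟩, ?_⟩
  · rw [Equiv.Perm.mem_alternatingGroup]; decide
  · rw [Equiv.Perm.mem_alternatingGroup]; decide
  · intro h
    have := congrArg Subtype.val h
    revert this
    decide

end Pool.Agent.Helper95.Wedge
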