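import Pool.Agent.Helper95.Wedge.Basic

set_option autoImplicit false
set_option linter.unusedVariables false
set_option linter.unusedSectionVars false

open Filter Set

namespace Pool.Agent.Helper95.Wedge

section Nerve

variable {X V : Type*} [Finite V] {F : Type*} [CommRing F]
  {K : Filter (Set X)} {A : V → Filter (Set X)} {r : X → V}

/-- localisation at the selected vertex -/
lemma locR (hR : ∀ E : V → Set (Set X), (∀ v, E v ∈ A v) → ∀ᶠ S in K, ∀ x ∈ S, S ∈ E (r x))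
    {L : Filter (Set X)} (hL : L ≤ K) (p : V → Set X → Prop)
    (hp : ∀ u, ∀ᶠ S in L ⊓ A u, p u S) : ∀ᶠ S in L, ∀ x ∈ S, p (r x) S := by
  have h : ∀ u, ∃ E' ∈ L, ∃ E ∈ A u, {S | p u S} = E' ∩ E := fun u =>
    Filter.mem_inf_iff.1 (hp u)
  choose E' hE' E hE hEE using h
  have h1 : ∀ᶠ S in L, ∀ u, S ∈ E' u := by
    rw [Filter.eventually_all]
    exact hE'
  filter_upwards [h1, (hR E hE).filter_mono hL] with S a b x hx
  have : S ∈ E' (r x) ∩ E (r x) := ⟨a _, b x hx⟩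
  rw [← hEE] at this
  exact this

section Ineq
variable {L : Type*} [Lattice L] (a b c d : L)
lemma q3_1 : a ⊓ b ⊓ c ≤ a := inf_le_left.trans inf_le_left
lemma q3_2 : a ⊓ b ⊓ c ≤ b := inf_le_left.trans inf_le_right
lemma q3_3 : a ⊓ b ⊓ c ≤ c := inf_le_right
lemma q4_1 : a ⊓ b ⊓ c ⊓ d ≤ a := inf_le_left.trans (q3_1 a b c)
lemma q4_2 : a ⊓ b ⊓ c ⊓ d ≤ b := inf_le_left.trans (q3_2 a b c)
lemma q4_3 : a ⊓ b ⊓ c ⊓ d ≤ c := inf_le_left.trans (q3_3 a b c)
lemma q4_4 : a ⊓ b ⊓ c ⊓ d ≤ d := inf_le_right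
end Ineq

/-- **Nerve theorem in degree two, first direction.** -/
theorem nerve2_of {N : Set (Set V)} (hlow : ∀ S ∈ N, ∀ T ⊆ S, T.Nonempty → T ∈ N)
    (hR : ∀ E : V → Set (Set X), (∀ v, E v ∈ A v) → ∀ᶠ S in K, ∀ x ∈ S, S ∈ E (r x))
    (hAK : ∀ v, A v ≤ K)
    (hA2 : ∀ v, H2 F (A v)) (hA1 : ∀ v w, H1 F (A v ⊓ A w))
    (hA0 : ∀ u v w, H0 F (A u ⊓ A v ⊓ A w))
    (hne : ∀ u v w t, ({u, v, w, t} : Set V) ∈ N → ∃ᶠ S in A u ⊓ A v ⊓ A w ⊓ A t, S.Nonempty)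
    (hem : ∀ u v w, ({u, v, w} : Set V) ∉ N → A u ⊓ A v ⊓ A w = ⊥)
    (hN2 : H2 F (𝓟 N)) : H2 F K := by
  intro φ hφ
  have h1 : ∀ v, ∃ ψ : X → X → F, Ev3 (A v) (fun x y z => φ x y z = d1 ψ x y z) :=
    fun v => hA2 v φ (hφ.filter_mono (hAK v))
  choose ψ hψ using h1
  have h2 : ∀ v w, ∃ χ : X → F, Ev2 (A v ⊓ A w) (fun x y => ψ w x y - ψ v x y = χ y - χ x) := by
    intro v w
    refine hA1 v w _ ?_
    filter_upwards [(hψ v).filter_mono inf_le_left, (hψ w).filter_mono inf_le_right]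
      with S a b x hx y hy z hz
    have e1 := a x hx y hy z hz
    have e2 := b x hx y hy z hz
    simp only [d1] at *
    linear_combination e1 - e2
  choose χ hχ using h2
  have h3 : ∀ u v w, ∃ c : F, Ev1 (A u ⊓ A v ⊓ A w) (fun x => χ u v x + χ v w x - χ u w x = c) := by
    intro u v w
    refine hA0 u v w _ ?_
    filter_upwards [(hχ u v).filter_mono (le_inf (q3_1 _ _ _) (q3_2 _ _ _)),
      (hχ v w).filter_mono (le_inf (q3_2 _ _ _) (q3_3 _ _ _)),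
      (hχ u w).filter_mono (le_inf (q3_1 _ _ _) (q3_3 _ _ _))] with S a b c x hx y hy
    have e1 := a x hx y hy
    have e2 := b x hx y hy
    have e3 := c x hx y hy
    show χ u v x + χ v w x - χ u w x = χ u v y + χ v w y - χ u w y
    linear_combination e1 + e2 - e3
  choose c hc using h3
  obtain ⟨b, hb⟩ := hN2 c (by
    show ∀ᶠ S in 𝓟 N, _
    rw [Filter.eventually_principal]
    intro S hS u hu v hv w hw t ht
    have hN : ({u, v, w, t} : Set V) ∈ N := hlow S hS _ (by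
      rintro q (rfl | rfl | rfl | rfl) <;> assumption) ⟨u, by simp⟩
    obtain ⟨T, ⟨x, hx⟩, k1, k2, k3, k4⟩ := ((hne u v w t hN).and_eventually
      (((hc v w t).filter_mono (le_inf (le_inf (q4_2 _ _ _ _) (q4_3 _ _ _ _)) (q4_4 _ _ _ _))).and
      (((hc u w t).filter_mono (le_inf (le_inf (q4_1 _ _ _ _) (q4_3 _ _ _ _)) (q4_4 _ _ _ _))).and
      (((hc u v t).filter_mono (le_inf (le_inf (q4_1 _ _ _ _) (q4_2 _ _ _ _)) (q4_4 _ _ _ _))).and
      ((hc u v w).filter_mono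
        (le_inf (le_inf (q4_1 _ _ _ _) (q4_2 _ _ _ _)) (q4_3 _ _ _ _))))))).exists
    have e1 := k1 x hx
    have e2 := k2 x hx
    have e3 := k3 x hx
    have e4 := k4 x hx
    simp only [d2] at *
    rw [← e1, ← e2, ← e3, ← e4]
    ring)
  have hb' : ∀ S ∈ N, ∀ u ∈ S, ∀ v ∈ S, ∀ w ∈ S, c u v w = d1 b u v w := by
    have := hb
    unfold Ev3 at this
    rwa [Filter.eventually_principal] at this
  -- corrected transition functions
  have h4 : ∀ u v w, Ev1 (A u ⊓ A v ⊓ A w)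
      (fun x => (χ u v x - b u v) + (χ v w x - b v w) = χ u w x - b u w) := by
    intro u v w
    by_cases hN : ({u, v, w} : Set V) ∈ N
    · have e := hb' _ hN u (by simp) v (by simp) w (by simp)
      filter_upwards [hc u v w] with S a x hx
      have e2 := a x hx
      simp only [d1] at *
      linear_combination e2 + e
    · rw [hem u v w hN]
      exact Filter.eventually_bot
  let Ψ : V → X → X → F := fun v x y =>
    ψ v x y + ((χ v (r y) y - b v (r y)) - (χ v (r x) x - b v (r x)))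
  have h5 : ∀ v w, ∀ᶠ S in A v ⊓ A w, ∀ x ∈ S,
      (χ v w x - b v w) + (χ w (r x) x - b w (r x)) = χ v (r x) x - b v (r x) := by
    intro v w
    have := locR hR (L := A v ⊓ A w) (inf_le_left.trans (hAK v))
      (fun u S => ∀ x ∈ S, (χ v w x - b v w) + (χ w u x - b w u) = χ v u x - b v u)
      (fun u => h4 v w u)
    filter_upwards [this] with S a x hx
    exact a x hx x hx
  have h6 : ∀ v w, ∀ᶠ S in A v ⊓ A w, ∀ x ∈ S, ∀ y ∈ S, Ψ v x y = Ψ w x y := by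
    intro v w
    filter_upwards [h5 v w, hχ v w] with S a e x hx y hy
    have e1 := a x hx
    have e2 := a y hy
    have e3 := e x hx y hy
    simp only [Ψ]
    linear_combination e1 - e2 - e3
  have h7 : ∀ v, ∀ᶠ S in A v, ∀ x ∈ S, ∀ y ∈ S, ∀ z ∈ S, φ x y z = d1 (Ψ v) x y z := by
    intro v
    filter_upwards [hψ v] with S a x hx y hy z hz
    have := a x hx y hy z hz
    simp only [d1, Ψ] at *
    linear_combination this
  refine ⟨fun x y => Ψ (r x) x y, ?_⟩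
  have h8 : ∀ᶠ S in K, ∀ x ∈ S, ∀ y ∈ S, (∀ a ∈ S, ∀ b ∈ S, Ψ (r y) a b = Ψ (r x) a b) ∧
      (∀ a ∈ S, ∀ b ∈ S, ∀ c ∈ S, φ a b c = d1 (Ψ (r x)) a b c) := by
    refine locR hR le_rfl (fun u S => ∀ y ∈ S, (∀ a ∈ S, ∀ b ∈ S, Ψ (r y) a b = Ψ u a b) ∧
      (∀ a ∈ S, ∀ b ∈ S, ∀ c ∈ S, φ a b c = d1 (Ψ u) a b c)) ?_
    intro u
    refine locR hR inf_le_left (fun w S => (∀ a ∈ S, ∀ b ∈ S, Ψ w a b = Ψ u a b) ∧
      (∀ a ∈ S, ∀ b ∈ S, ∀ c ∈ S, φ a b c = d1 (Ψ u) a b c)) ?_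
    intro w
    filter_upwards [(h6 w u).filter_mono (le_inf inf_le_right (inf_le_left.trans inf_le_right)),
      (h7 u).filter_mono (inf_le_left.trans inf_le_right)] with S a e
    exact ⟨a, e⟩
  filter_upwards [h8] with S a x hx y hy z hz
  obtain ⟨a1, a2⟩ := a x hx y hy
  rw [a2 x hx y hy z hz]
  simp only [d1]
  rw [a1 y hy z hz]

/-- **Nerve theorem in degree two, second direction.** -/
theorem of_nerve2 {N : Set (Set V)} (hlow : ∀ S ∈ N, ∀ T ⊆ S, T.Nonempty → T ∈ N)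
    (hR : ∀ E : V → Set (Set X), (∀ v, E v ∈ A v) → ∀ᶠ S in K, ∀ x ∈ S, S ∈ E (r x))
    (hAK : ∀ v, A v ≤ K)
    (hA1 : ∀ v, H1 F (A v))
    (hA0 : ∀ v w, H0 F (A v ⊓ A w))
    (hne : ∀ u v w, ({u, v, w} : Set V) ∈ N → ∃ᶠ S in A u ⊓ A v ⊓ A w, S.Nonempty)
    (hem : ∀ u v w t, ({u, v, w, t} : Set V) ∉ N → A u ⊓ A v ⊓ A w ⊓ A t = ⊥)
    (hK : H2 F K) : H2 F (𝓟 N) := by
  intro c hc
  have hc' : ∀ S ∈ N, ∀ u ∈ S, ∀ v ∈ S, ∀ w ∈ S, ∀ t ∈ S, d2 c u v w t = 0 := by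
    have := hc
    unfold Z2 Ev4 at this
    rwa [Filter.eventually_principal] at this
  have hc4 : ∀ u v w t, ({u, v, w, t} : Set V) ∈ N → d2 c u v w t = 0 := fun u v w t h =>
    hc' _ h u (by simp) v (by simp) w (by simp) t (by simp)
  -- membership facts
  have m4 : ∀ u v w t, ∀ᶠ S in A u ⊓ A v ⊓ A w ⊓ A t, ({u, v, w, t} : Set V) ∈ N := by
    intro u v w t
    by_cases h : ({u, v, w, t} : Set V) ∈ N
    · exact Filter.Eventually.of_forall fun _ => h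
    · rw [hem u v w t h]; exact Filter.eventually_bot
  have m3 : ∀ u v w, ∀ᶠ S in A u ⊓ A v ⊓ A w, ∀ x ∈ S, ({u, v, w, r x} : Set V) ∈ N :=
    fun u v w => locR hR ((q3_1 _ _ _).trans (hAK u)) (fun t S => ({u, v, w, t} : Set V) ∈ N)
      (m4 u v w)
  have m2 : ∀ u v, ∀ᶠ S in A u ⊓ A v, ∀ x ∈ S, ∀ y ∈ S, ({u, v, r x, r y} : Set V) ∈ N :=
    fun u v => locR hR (inf_le_left.trans (hAK u))
      (fun w S => ∀ y ∈ S, ({u, v, w, r y} : Set V) ∈ N) (m3 u v)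
  have m1 : ∀ u, ∀ᶠ S in A u, ∀ x ∈ S, ∀ y ∈ S, ∀ z ∈ S, ({u, r x, r y, r z} : Set V) ∈ N :=
    fun u => locR hR (hAK u)
      (fun v S => ∀ y ∈ S, ∀ z ∈ S, ({u, v, r y, r z} : Set V) ∈ N) (m2 u)
  have m0 : ∀ᶠ S in K, ∀ x ∈ S, ∀ y ∈ S, ∀ z ∈ S, ∀ w ∈ S,
      ({r x, r y, r z, r w} : Set V) ∈ N :=
    locR hR le_rfl
      (fun u S => ∀ y ∈ S, ∀ z ∈ S, ∀ w ∈ S, ({u, r y, r z, r w} : Set V) ∈ N) (fun u => by
        filter_upwards [(m1 u).filter_mono inf_le_right] with S a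
        exact a)
  obtain ⟨ψ, hψ⟩ := hK (fun x y z => c (r x) (r y) (r z)) (by
    filter_upwards [m0] with S a x hx y hy z hz w hw
    exact hc4 _ _ _ _ (a x hx y hy z hz w hw))
  have h1 : ∀ v, ∃ α : X → F, Ev2 (A v) (fun x y => ψ x y - c v (r x) (r y) = α y - α x) := by
    intro v
    refine hA1 v _ ?_
    filter_upwards [m1 v, hψ.filter_mono (hAK v)] with S a e x hx y hy z hz
    have e1 := hc4 _ _ _ _ (a x hx y hy z hz)
    have e2 := e x hx y hy z hz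
    simp only [d1, d2] at *
    linear_combination e1 - e2
  choose α hα using h1
  have h2 : ∀ v w, ∃ b : F, Ev1 (A v ⊓ A w) (fun x => α v x - α w x + c v w (r x) = b) := by
    intro v w
    refine hA0 v w _ ?_
    filter_upwards [m2 v w, (hα v).filter_mono inf_le_left, (hα w).filter_mono inf_le_right]
      with S a e e' x hx y hy
    have e1 := hc4 _ _ _ _ (a x hx y hy)
    have e2 := e x hx y hy
    have e3 := e' x hx y hy
    simp only [d2] at *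
    linear_combination e2 - e3 - e1
  choose b hb using h2
  refine ⟨b, ?_⟩
  show ∀ᶠ S in 𝓟 N, _
  rw [Filter.eventually_principal]
  intro S hS u hu v hv w hw
  have hN : ({u, v, w} : Set V) ∈ N := hlow S hS _ (by
    rintro q (rfl | rfl | rfl) <;> assumption) ⟨u, by simp⟩
  obtain ⟨T, ⟨x, hx⟩, k0, k1, k2, k3⟩ := ((hne u v w hN).and_eventually
      ((m3 u v w).and (((hb v w).filter_mono (le_inf (q3_2 _ _ _) (q3_3 _ _ _))).and
      (((hb u w).filter_mono (le_inf (q3_1 _ _ _) (q3_3 _ _ _))).and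
      ((hb u v).filter_mono (le_inf (q3_1 _ _ _) (q3_2 _ _ _))))))).exists
  have e0 := hc4 _ _ _ _ (k0 x hx)
  have e1 := k1 x hx
  have e2 := k2 x hx
  have e3 := k3 x hx
  simp only [d1, d2] at *
  rw [← e1, ← e2, ← e3]
  linear_combination - e0

end Nerve

end Pool.Agent.Helper95.Wedge
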