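import Pool.Agent.Helper95.Wedge.Realize

set_option autoImplicit false
set_option linter.unusedVariables false
set_option linter.unusedSectionVars false

open Filter Set

namespace Pool.Agent.Helper95.Wedge

section

variable {P Q : Type*} [PartialOrder P] [PartialOrder Q] {F : Type*} [CommRing F]

/-- the filter of chains of `U` -/
def chf (U : Set P) : Filter (Set P) := 𝓟 (Ch U)

lemma chf_low (U : Set P) : Low (chf U) := by
  intro E hE
  rw [chf, mem_principal] at *
  intro S hS T hT hn
  exact hE (Ch_low U S hS T hT hn)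

lemma ev_chf {U : Set P} {p : Set P → Prop} : (∀ᶠ S in chf U, p S) ↔ ∀ S ∈ Ch U, p S :=
  Filter.eventually_principal

lemma freq_chf {U : Set P} {p : Set P → Prop} : (∃ᶠ S in chf U, p S) ↔ ∃ S ∈ Ch U, p S :=
  Filter.frequently_principal

lemma Ch_inter (U V : Set P) : Ch U ∩ Ch V = Ch (U ∩ V) := by
  ext S
  constructor
  · rintro ⟨h1, h2⟩
    exact ⟨h1.1, subset_inter h1.2.1 h2.2.1, h1.2.2⟩
  · rintro ⟨h1, h2, h3⟩
    exact ⟨⟨h1, fun x hx => (h2 hx).1, h3⟩, ⟨h1, fun x hx => (h2 hx).2, h3⟩⟩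

lemma chf_inf (U V : Set P) : chf U ⊓ chf V = chf (U ∩ V) := by
  rw [chf, chf, inf_principal, Ch_inter]; rfl

lemma chf_sup {U V W : Set P} (hU : U ⊆ W) (hV : V ⊆ W)
    (h : ∀ S ∈ Ch W, S ⊆ U ∨ S ⊆ V) : chf U ⊔ chf V = chf W := by
  rw [chf, chf, sup_principal, chf]
  congr 1
  ext S
  constructor
  · rintro (h1 | h1)
    · exact ⟨h1.1, h1.2.1.trans hU, h1.2.2⟩
    · exact ⟨h1.1, h1.2.1.trans hV, h1.2.2⟩
  · intro h1
    rcases h S h1 with h2 | h2
    · exact Or.inl ⟨h1.1, h2, h1.2.2⟩
    · exact Or.inr ⟨h1.1, h2, h1.2.2⟩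

lemma singleton_Ch {U : Set P} {x : P} (hx : x ∈ U) : ({x} : Set P) ∈ Ch U :=
  ⟨singleton_nonempty x, by simpa using hx, IsChain.singleton⟩

lemma tendsto_chf {U : Set P} {V : Set Q} {f : P → Q} (hf : MonotoneOn f U)
    (hfV : MapsTo f U V) : Tendsto (fun S : Set P => f '' S) (chf U) (chf V) := by
  refine tendsto_principal_principal.2 ?_
  rintro S ⟨h1, h2, h3⟩
  refine ⟨h1.image f, ?_, ?_⟩
  · rintro _ ⟨x, hx, rfl⟩
    exact hfV (h2 hx)
  · rintro _ ⟨x, hx, rfl⟩ _ ⟨y, hy, rfl⟩ hne
    rcases h3.total hx hy with h | h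
    · exact Or.inl (hf (h2 hx) (h2 hy) h)
    · exact Or.inr (hf (h2 hy) (h2 hx) h)

variable [Finite P]

/-- comparable monotone maps are homotopic -/
lemma coh_le {U : Set P} {V : Set Q} (f g : P → Q) (hf : MonotoneOn f U) (hg : MonotoneOn g U)
    (hfV : MapsTo f U V) (hgV : MapsTo g U V) (hfg : ∀ x ∈ U, f x ≤ g x) :
    Coh F (chf U) (chf V) f g := by
  classical
  have := Fintype.ofFinite P
  let k : Finset P → P → Q := fun T x => if x ∈ T then g x else f x
  have key : ∀ n : ℕ, ∀ T : Finset P, T.card = n → (∀ x ∈ T, ∀ y ∈ U, x ≤ y → y ∈ T) →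
      (∀ x ∈ T, x ∈ U) → Coh F (chf U) (chf V) f (k T) := by
    intro n
    induction n with
    | zero =>
      intro T hT _ _
      have : k T = f := by
        funext x
        simp [k, Finset.card_eq_zero.1 hT]
      rw [this]
      exact Coh.refl f
    | succ n ih =>
      intro T hT hup hTU
      have hTn : T.Nonempty := by
        rw [← Finset.card_pos, hT]; omega
      obtain ⟨p, hpT, hmin⟩ := T.exists_minimal hTn
      have h1 : Coh F (chf U) (chf V) f (k (T.erase p)) := by
        refine ih (T.erase p) (by rw [Finset.card_erase_of_mem hpT, hT]; rfl) ?_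
          (fun x hx => hTU x (Finset.mem_of_mem_erase hx))
        intro x hx y hy hxy
        have hxT := Finset.mem_of_mem_erase hx
        refine Finset.mem_erase.2 ⟨?_, hup x hxT y hy hxy⟩
        rintro rfl
        exact (Finset.ne_of_mem_erase hx) (le_antisymm hxy (hmin hxT hxy))
      refine h1.trans (coh_of_contig (tendsto_principal_principal.2 ?_))
      have hup' : ∀ x ∈ T.erase p, ∀ y ∈ U, x ≤ y → y ∈ T.erase p := by
        intro x hx y hy hxy
        have hxT := Finset.mem_of_mem_erase hx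
        refine Finset.mem_erase.2 ⟨?_, hup x hxT y hy hxy⟩
        rintro rfl
        exact (Finset.ne_of_mem_erase hx) (le_antisymm hxy (hmin hxT hxy))
      have mono : ∀ T' : Finset P, (∀ x ∈ T', ∀ y ∈ U, x ≤ y → y ∈ T') →
          MonotoneOn (k T') U := by
        intro T' hT' x hx y hy hxy
        by_cases hxT : x ∈ T'
        · have hyT := hT' x hxT y hy hxy
          simp only [k, hxT, hyT, if_true]
          exact hg hx hy hxy
        · by_cases hyT : y ∈ T'
          · simp only [k, hxT, hyT, if_true, if_false]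
            exact (hf hx hy hxy).trans (hfg y hy)
          · simp only [k, hxT, hyT, if_false]
            exact hf hx hy hxy
      have kle : ∀ x ∈ U, k (T.erase p) x ≤ k T x := by
        intro x hx
        by_cases hxT : x ∈ T.erase p
        · have := Finset.mem_of_mem_erase hxT
          simp only [k, hxT, this, if_true]
          exact le_rfl
        · by_cases hxT' : x ∈ T
          · simp only [k, hxT, hxT', if_true, if_false]
            exact hfg x hx
          · simp only [k, hxT, hxT', if_false]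
            exact le_rfl
      have keq : ∀ x, x ≠ p → k (T.erase p) x = k T x := by
        intro x hx
        simp [k, hx]
      have kV : ∀ T' : Finset P, ∀ x ∈ U, k T' x ∈ V := by
        intro T' x hx
        by_cases hxT : x ∈ T'
        · simp only [k, hxT, if_true]; exact hgV hx
        · simp only [k, hxT, if_false]; exact hfV hx
      -- comparability of mixed values
      have cross : ∀ x ∈ U, ∀ y ∈ U, x ≤ y → k (T.erase p) x ≤ k T y := fun x hx y hy hxy =>
        (kle x hx).trans (mono T hup hx hy hxy)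
      have cross' : ∀ x ∈ U, ∀ y ∈ U, x ≤ y → k T x ≤ k (T.erase p) y ∨ k (T.erase p) y ≤ k T x := by
        intro x hx y hy hxy
        by_cases hxp : x = p
        · by_cases hyp : y = p
          · right
            rw [hxp, hyp]
            exact kle p (hTU p hpT)
          · left
            rw [keq y hyp]
            exact mono T hup hx hy hxy
        · left
          rw [← keq x hxp]
          exact mono _ hup' hx hy hxy
      rintro S ⟨s1, s2, s3⟩
      refine ⟨?_, ?_, ?_⟩
      · obtain ⟨x, hx⟩ := s1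
        exact ⟨_, Or.inl ⟨x, hx, rfl⟩⟩
      · rintro _ (⟨x, hx, rfl⟩ | ⟨x, hx, rfl⟩)
        · exact kV _ x (s2 hx)
        · exact kV _ x (s2 hx)
      · rintro _ (⟨x, hx, rfl⟩ | ⟨x, hx, rfl⟩) _ (⟨y, hy, rfl⟩ | ⟨y, hy, rfl⟩) hne
        · rcases s3.total hx hy with h | h
          · exact Or.inl (mono _ hup' (s2 hx) (s2 hy) h)
          · exact Or.inr (mono _ hup' (s2 hy) (s2 hx) h)
        · rcases s3.total hx hy with h | h
          · exact Or.inl (cross x (s2 hx) y (s2 hy) h)
          · exact (cross' y (s2 hy) x (s2 hx) h).symm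
        · rcases s3.total hx hy with h | h
          · exact cross' x (s2 hx) y (s2 hy) h
          · exact Or.inr (cross y (s2 hy) x (s2 hx) h)
        · rcases s3.total hx hy with h | h
          · exact Or.inl (mono _ hup (s2 hx) (s2 hy) h)
          · exact Or.inr (mono _ hup (s2 hy) (s2 hx) h)
  have h2 := key _ (U.toFinset) rfl (fun x _ y hy _ => by simpa using hy)
    (fun x hx => by simpa using hx)
  refine h2.trans (coh_of_contig (tendsto_principal_principal.2 ?_))
  rintro S ⟨s1, s2, s3⟩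
  have h3 : k U.toFinset '' S = g '' S := by
    apply image_congr
    intro x hx
    simp [k, s2 hx]
  rw [h3, union_self]
  refine ⟨s1.image g, ?_, ?_⟩
  · rintro _ ⟨x, hx, rfl⟩
    exact hgV (s2 hx)
  · rintro _ ⟨x, hx, rfl⟩ _ ⟨y, hy, rfl⟩ hne
    rcases s3.total hx hy with h | h
    · exact Or.inl (hg (s2 hx) (s2 hy) h)
    · exact Or.inr (hg (s2 hy) (s2 hx) h)

/-- all three statements together -/
def HH (F : Type*) [CommRing F] (K : Filter (Set P)) : Prop := H0 F K ∧ H1 F K ∧ H2 F K

lemma HH_of_const {U : Set P} {b : P} (hb : b ∈ U)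
    (h : Coh F (chf U) (chf U) (fun x => x) (fun _ => b)) :
    H0 F (chf U) ∧ H1 F (chf U) ∧ H2 F (chf U) :=
  ⟨H0_of_const h, H1_of_const (freq_chf.2 ⟨{b}, singleton_Ch hb, rfl⟩) h, H2_of_const h⟩

/-- domination for posets: `j ∘ i ≤ id` on `U` -/
lemma dom_le {U : Set P} {V : Set Q} {i : P → Q} {j : Q → P} (hi : MonotoneOn i U)
    (hj : MonotoneOn j V) (hiV : MapsTo i U V) (hjU : MapsTo j V U)
    (h : ∀ x ∈ U, j (i x) ≤ x) :
    Coh F (chf U) (chf U) (fun x => j (i x)) (fun x => x) :=
  coh_le _ _ (fun x hx y hy hxy => hj (hiV hx) (hiV hy) (hi hx hy hxy))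
    (fun x _ y _ hxy => hxy) (fun x hx => hjU (hiV hx)) (fun x hx => hx) h

lemma dom_ge {U : Set P} {V : Set Q} {i : P → Q} {j : Q → P} (hi : MonotoneOn i U)
    (hj : MonotoneOn j V) (hiV : MapsTo i U V) (hjU : MapsTo j V U)
    (h : ∀ x ∈ U, x ≤ j (i x)) :
    Coh F (chf U) (chf U) (fun x => j (i x)) (fun x => x) :=
  (coh_le _ _ (fun x _ y _ hxy => hxy)
    (fun x hx y hy hxy => hj (hiV hx) (hiV hy) (hi hx hy hxy)) (fun x hx => hx)
    (fun x hx => hjU (hiV hx)) h).symm

end

section Boolean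

variable {O : Type*} [Fintype O] [DecidableEq O] {F : Type*} [CommRing F]

/-- proper nonempty subsets -/
def BB (R : Finset O) : Set (Finset O) := {S | S.Nonempty ∧ S ⊂ R}

def V0 (R : Finset O) (o : O) : Set (Finset O) := {S | S ∈ BB R ∧ S ≠ R.erase o}
def V1 (R : Finset O) (o : O) : Set (Finset O) := {S | S.Nonempty ∧ S ⊆ R.erase o}

lemma BB_sup {R : Finset O} {o : O} (ho : o ∈ R) : chf (V0 R o) ⊔ chf (V1 R o) = chf (BB R) := by
  refine chf_sup (fun S hS => hS.1) ?_ ?_
  · rintro S ⟨h1, h2⟩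
    exact ⟨h1, h2.trans_ssubset (Finset.erase_ssubset ho)⟩
  · intro C hC
    by_cases h : R.erase o ∈ C
    · right
      intro T hT
      refine ⟨(hC.2.1 hT).1, ?_⟩
      rcases hC.2.2.total hT h with h1 | h1
      · exact h1
      · have h2 := (hC.2.1 hT).2
        have h3 : T.card < R.card := Finset.card_lt_card h2
        have h4 : R.card - 1 ≤ T.card := by
          rw [← Finset.card_erase_of_mem ho]
          exact Finset.card_le_card h1
        have h5 : R.erase o = T := Finset.eq_of_subset_of_card_le h1 (by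
          rw [Finset.card_erase_of_mem ho]; omega)
        rw [h5]
    · left
      intro T hT
      exact ⟨hC.2.1 hT, fun h1 => h (h1 ▸ hT)⟩

lemma BB_inf {R : Finset O} {o : O} (ho : o ∈ R) :
    chf (V0 R o) ⊓ chf (V1 R o) = chf (BB (R.erase o)) := by
  rw [chf_inf]
  congr 1
  ext S
  constructor
  · rintro ⟨⟨⟨h1, h2⟩, h3⟩, ⟨_, h4⟩⟩
    exact ⟨h1, lt_of_le_of_ne h4 h3⟩
  · rintro ⟨h1, h2⟩
    exact ⟨⟨⟨h1, h2.trans (Finset.erase_ssubset ho)⟩, h2.ne⟩, ⟨h1, h2.subset⟩⟩

lemma V0_HH {R : Finset O} {o : O} (ho : o ∈ R) (hc : 2 ≤ R.card) :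
    H0 F (chf (V0 R o)) ∧ H1 F (chf (V0 R o)) ∧ H2 F (chf (V0 R o)) := by
  have hb : ({o} : Finset O) ∈ V0 R o := by
    refine ⟨⟨Finset.singleton_nonempty o, ?_⟩, ?_⟩
    · refine lt_of_le_of_ne (by simpa using ho) ?_
      intro h
      rw [← h] at hc
      simp at hc
    · intro h
      have : o ∈ R.erase o := by rw [← h]; simp
      simp at this
  have hins : ∀ S ∈ V0 R o, insert o S ∈ V0 R o := by
    rintro S ⟨⟨h1, h2⟩, h3⟩
    refine ⟨⟨Finset.insert_nonempty o S, ?_⟩, ?_⟩
    · refine lt_of_le_of_ne (Finset.insert_subset ho h2.subset) ?_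
      intro h
      by_cases hoS : o ∈ S
      · rw [Finset.insert_eq_of_mem hoS] at h
        exact h2.ne h
      · apply h3
        rw [← h, Finset.erase_insert hoS]
    · intro h
      have : o ∈ R.erase o := by rw [← h]; simp
      simp at this
  refine HH_of_const hb ((coh_le (fun S => S) (fun S => insert o S) (fun x _ y _ h => h)
    (fun x _ y _ h => Finset.insert_subset_insert o h) (fun x hx => hx) hins
    (fun x _ => Finset.subset_insert o x)).trans
    (coh_le (fun _ => {o}) (fun S => insert o S) (fun x _ y _ h => le_rfl)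
    (fun x _ y _ h => Finset.insert_subset_insert o h) (fun x hx => hb) hins
    (fun x _ => by simp)).symm)

lemma V1_HH {R : Finset O} {o : O} (ho : o ∈ R) (hc : 2 ≤ R.card) :
    H0 F (chf (V1 R o)) ∧ H1 F (chf (V1 R o)) ∧ H2 F (chf (V1 R o)) := by
  have hb : R.erase o ∈ V1 R o := by
    refine ⟨?_, subset_rfl⟩
    rw [← Finset.card_pos, Finset.card_erase_of_mem ho]
    omega
  exact HH_of_const hb (coh_le (fun S => S) (fun _ => R.erase o) (fun x _ y _ h => h)
    (fun x _ y _ h => le_rfl) (fun x hx => hx) (fun x _ => hb) (fun x hx => hx.2))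

lemma BB_H0 {R : Finset O} (hc : 3 ≤ R.card) : H0 F (chf (BB R)) := by
  obtain ⟨o, ho⟩ : R.Nonempty := by rw [← Finset.card_pos]; omega
  rw [← BB_sup ho]
  refine mv_e F (V0_HH ho (by omega)).1 (V1_HH ho (by omega)).1 ?_
  rw [BB_inf ho]
  have h2 : 2 ≤ (R.erase o).card := by rw [Finset.card_erase_of_mem ho]; omega
  obtain ⟨o', ho'⟩ : (R.erase o).Nonempty := by rw [← Finset.card_pos]; omega
  refine freq_chf.2 ⟨{{o'}}, singleton_Ch ⟨Finset.singleton_nonempty o', ?_⟩, singleton_nonempty _⟩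
  refine lt_of_le_of_ne (by simpa using ho') ?_
  intro h
  rw [← h] at h2
  simp at h2

lemma BB_H1 {R : Finset O} (hc : 4 ≤ R.card) : H1 F (chf (BB R)) := by
  obtain ⟨o, ho⟩ : R.Nonempty := by rw [← Finset.card_pos]; omega
  rw [← BB_sup ho]
  refine mv_c F (chf_low _) (chf_low _) (V0_HH ho (by omega)).2.1 (V1_HH ho (by omega)).2.1 ?_
  rw [BB_inf ho]
  exact BB_H0 (by rw [Finset.card_erase_of_mem ho]; omega)

lemma BB_H2 {R : Finset O} (hc : 5 ≤ R.card) : H2 F (chf (BB R)) := by
  obtain ⟨o, ho⟩ : R.Nonempty := by rw [← Finset.card_pos]; omega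
  rw [← BB_sup ho]
  refine mv_a F (chf_low _) (chf_low _) (V0_HH ho (by omega)).2.2 (V1_HH ho (by omega)).2.2 ?_
  rw [BB_inf ho]
  exact BB_H1 (by rw [Finset.card_erase_of_mem ho]; omega)

end Boolean

end Pool.Agent.Helper95.Wedge
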