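import Pool.Agent.Helper95.Wedge.RP2

set_option autoImplicit false
set_option linter.unusedVariables false
set_option linter.unusedSectionVars false

open Filter Set

namespace Pool.Agent.Helper95.Wedge

section

variable {A : Type*} [Group A] [Finite A] {X : Type*} [Finite X] [Nonempty X] [MulAction A X]

/-- `S` is invariant under `B` -/
def Inv (B : Subgroup A) (S : Set X) : Prop := ∀ b ∈ B, ∀ x ∈ S, b • x ∈ S

/-- the poset `𝒬` -/
def QQ (X : Type*) [MulAction A X] (B₀ : Subgroup A) : Set (Set X × Subgroup A) :=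
  {p | p.1 ≠ univ ∧ B₀ ≤ p.2 ∧ Inv p.2 p.1 ∧ ¬ (p.1 = ∅ ∧ p.2 = B₀)}

def WW (X : Type*) [MulAction A X] (B₀ C : Subgroup A) : Set (Set X × Subgroup A) :=
  {p | p ∈ QQ X B₀ ∧ p.1.Nonempty ∧ C ≤ p.2}

variable (B₀ : Subgroup A) {F : Type*} [CommRing F]

/-- if `θ : X → Fin 5` is onto and `C`-invariant then `WW C` is highly connected -/
lemma WW_HH (C : Subgroup A) (hC : B₀ ≤ C) (θ : X → Fin 5) (hθ : Function.Surjective θ)
    (hinv : ∀ c ∈ C, ∀ x, θ (c • x) = θ x) :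
    H0 F (chf (WW X B₀ C)) ∧ H1 F (chf (WW X B₀ C)) ∧ H2 F (chf (WW X B₀ C)) := by
  classical
  let O := MulAction.orbitRel.Quotient C X
  have : Finite O := Quotient.finite _
  have := Fintype.ofFinite O
  let π : X → O := fun x => Quotient.mk _ x
  have hπ : ∀ x y, π x = π y ↔ ∃ c ∈ C, c • y = x := by
    intro x y
    show (Quotient.mk _ x : O) = Quotient.mk _ y ↔ _
    rw [Quotient.eq]
    show x ∈ MulAction.orbit C y ↔ _
    constructor
    · rintro ⟨c, rfl⟩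
      exact ⟨c, c.2, rfl⟩
    · rintro ⟨c, hc, rfl⟩
      exact ⟨⟨c, hc⟩, rfl⟩
  have hπs : Function.Surjective π := Quotient.mk_surjective
  have hcard : 5 ≤ (Finset.univ : Finset O).card := by
    let θ' : O → Fin 5 := fun o => θ (hπs o).choose
    have hθ' : ∀ x, θ' (π x) = θ x := by
      intro x
      obtain ⟨c, hc, hcx⟩ := (hπ _ _).1 (hπs (π x)).choose_spec
      show θ (hπs (π x)).choose = θ x
      rw [← hcx]
      exact hinv c hc x
    have hs : Function.Surjective θ' := by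
      intro i
      obtain ⟨x, hx⟩ := hθ i
      exact ⟨π x, by rw [hθ', hx]⟩
    have := Fintype.card_le_of_surjective θ' hs
    simpa using this
  let i : Set X × Subgroup A → Finset O := fun p => (π '' p.1).toFinset
  let j : Finset O → Set X × Subgroup A := fun T => (π ⁻¹' (T : Set O), C)
  have hi : MonotoneOn i (WW X B₀ C) := by
    rintro p _ q _ hpq
    exact Set.toFinset_mono (Set.image_mono hpq.1)
  have hj : MonotoneOn j (BB (Finset.univ : Finset O)) := by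
    rintro T _ T' _ h
    exact ⟨Set.preimage_mono (by exact_mod_cast h), le_rfl⟩
  have hii : ∀ p ∈ WW X B₀ C, π ⁻¹' (π '' p.1) = p.1 := by
    rintro p ⟨⟨_, _, h3, _⟩, _, h5⟩
    apply subset_antisymm
    · rintro x ⟨y, hy, hyx⟩
      obtain ⟨c, hc, rfl⟩ := (hπ _ _).1 hyx.symm
      exact h3 c (h5 hc) y hy
    · exact Set.subset_preimage_image π p.1
  have hiV : MapsTo i (WW X B₀ C) (BB (Finset.univ : Finset O)) := by
    intro p hp
    refine ⟨?_, ?_⟩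
    · have : (i p : Set O).Nonempty := by
        simpa [i] using hp.2.1
      exact_mod_cast this
    · refine lt_of_le_of_ne (Finset.subset_univ _) ?_
      intro h
      apply hp.1.1
      rw [← hii p hp]
      have h2 : (i p : Set O) = univ := by rw [h]; simp
      have h3 : π '' p.1 = univ := by simpa [i] using h2
      rw [h3]
      rfl
  have hjU : MapsTo j (BB (Finset.univ : Finset O)) (WW X B₀ C) := by
    rintro T ⟨h1, h2⟩
    obtain ⟨o, ho⟩ := h1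
    obtain ⟨x, hx⟩ := hπs o
    have hne : (π ⁻¹' (T : Set O)).Nonempty := ⟨x, by simp [hx, ho]⟩
    refine ⟨⟨?_, hC, ?_, ?_⟩, hne, le_rfl⟩
    · intro h
      apply h2.ne
      ext o'
      obtain ⟨y, rfl⟩ := hπs o'
      have : y ∈ π ⁻¹' (T : Set O) := by rw [show π ⁻¹' (T : Set O) = univ from h]; trivial
      simpa using this
    · rintro c hc y hy
      have : π (c • y) = π y := (hπ _ _).2 ⟨c, hc, rfl⟩
      show π (c • y) ∈ (T : Set O)
      rw [this]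
      exact hy
    · rintro ⟨h, _⟩
      rw [show π ⁻¹' (T : Set O) = ∅ from h] at hne
      exact hne.ne_empty rfl
  have hji : ∀ p ∈ WW X B₀ C, j (i p) ≤ p := by
    intro p hp
    refine ⟨?_, hp.2.2⟩
    show π ⁻¹' (i p : Set O) ⊆ p.1
    have : (i p : Set O) = π '' p.1 := by simp [i]
    rw [this, hii p hp]
  have hd := dom_le (F := F) hi hj hiV hjU hji
  have t1 := tendsto_chf hj hjU
  have t2 := tendsto_chf hi hiV
  exact ⟨H0_of_dom t1 t2 hd (BB_H0 (by omega)), H1_of_dom t1 t2 hd (BB_H1 (by omega)),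
    H2_of_dom t1 t2 hd (BB_H2 (by omega))⟩

def U0 (X : Type*) [MulAction A X] (B₀ : Subgroup A) : Set (Set X × Subgroup A) :=
  {p | p ∈ QQ X B₀ ∧ p.2 ≠ B₀}

def U1 (X : Type*) [MulAction A X] (B₀ : Subgroup A) : Set (Set X × Subgroup A) :=
  {p | p ∈ QQ X B₀ ∧ p.1.Nonempty}

def U01 (X : Type*) [MulAction A X] (B₀ : Subgroup A) : Set (Set X × Subgroup A) :=
  {p | p ∈ QQ X B₀ ∧ p.1.Nonempty ∧ p.2 ≠ B₀}

lemma U_sup : chf (U0 X B₀) ⊔ chf (U1 X B₀) = chf (QQ X B₀) := by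
  refine chf_sup (fun p hp => hp.1) (fun p hp => hp.1) ?_
  intro C hC
  by_cases h : ∀ p ∈ C, p.2 ≠ B₀
  · left
    intro p hp
    exact ⟨hC.2.1 hp, h p hp⟩
  · right
    push Not at h
    obtain ⟨q, hq, hq2⟩ := h
    have hq1 : q.1.Nonempty := by
      rw [Set.nonempty_iff_ne_empty]
      intro h0
      exact (hC.2.1 hq).2.2.2 ⟨h0, hq2⟩
    intro p hp
    refine ⟨hC.2.1 hp, ?_⟩
    rcases hC.2.2.total hp hq with h1 | h1
    · rw [Set.nonempty_iff_ne_empty]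
      intro h0
      refine (hC.2.1 hp).2.2.2 ⟨h0, le_antisymm ?_ (hC.2.1 hp).2.1⟩
      rw [← hq2]
      exact h1.2
    · exact hq1.mono h1.1

lemma U_inf : chf (U0 X B₀) ⊓ chf (U1 X B₀) = chf (U01 X B₀) := by
  rw [chf_inf]
  congr 1
  ext p
  constructor
  · rintro ⟨⟨h1, h2⟩, ⟨_, h3⟩⟩
    exact ⟨h1, h3, h2⟩
  · rintro ⟨h1, h2, h3⟩
    exact ⟨⟨h1, h3⟩, ⟨h1, h2⟩⟩

lemma U0_HH (hB₀ : B₀ ≠ ⊤) :
    H0 F (chf (U0 X B₀)) ∧ H1 F (chf (U0 X B₀)) ∧ H2 F (chf (U0 X B₀)) := by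
  have hne : (∅ : Set X) ≠ univ := (Set.empty_ne_univ)
  have hb : ((∅, ⊤) : Set X × Subgroup A) ∈ U0 X B₀ :=
    ⟨⟨hne, le_top, fun _ _ _ hx => absurd hx (notMem_empty _), fun h => hB₀ h.2.symm⟩, hB₀.symm⟩
  have h2 : ∀ p ∈ U0 X B₀, ((∅, p.2) : Set X × Subgroup A) ∈ U0 X B₀ := by
    rintro p ⟨⟨_, h2, _, _⟩, h5⟩
    exact ⟨⟨hne, h2, fun _ _ _ hx => absurd hx (notMem_empty _), fun h => h5 h.2⟩, h5⟩
  have hmono : MonotoneOn (fun p : Set X × Subgroup A => ((∅, p.2) : Set X × Subgroup A))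
      (U0 X B₀) := by
    intro x _ y _ h
    exact Prod.mk_le_mk.2 ⟨le_rfl, (Prod.le_def.1 h).2⟩
  refine HH_of_const hb ((coh_le (fun p : Set X × Subgroup A => (∅, p.2)) (fun p => p)
    hmono
    (fun x _ y _ h => h) h2 (fun x hx => hx) (fun x _ => ⟨Set.empty_subset _, le_rfl⟩)).symm.trans
    (coh_le (fun p : Set X × Subgroup A => (∅, p.2)) (fun p => (∅, ⊤))
      hmono
    (fun x _ y _ h => le_rfl) h2 (fun x hx => hb)
      (fun x _ => Prod.mk_le_mk.2 ⟨le_rfl, le_top⟩)))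

lemma U1_eq : U1 X B₀ = WW X B₀ B₀ := by
  ext p
  constructor
  · rintro ⟨h1, h2⟩; exact ⟨h1, h2, h1.2.1⟩
  · rintro ⟨h1, h2, _⟩; exact ⟨h1, h2⟩

/-- the combinatorial data -/
structure Data (X : Type*) [MulAction A X] (B₀ : Subgroup A) (Bj : Fin 6 → Subgroup A) : Prop where
  top : B₀ ≠ ⊤
  le : ∀ j, B₀ ≤ Bj j
  ne : ∀ j, Bj j ≠ B₀
  atom : ∀ B : Subgroup A, B₀ ≤ B → B ≠ B₀ → ∃ j, Bj j ≤ B
  orb : ∀ i : Fin 10, ∃ θ : X → Fin 5, Function.Surjective θ ∧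
    ∀ j ∈ facet i, ∀ b ∈ Bj j, ∀ x, θ (b • x) = θ x
  trans : ∀ σ : Set (Fin 6), σ ∉ RP → σ.Nonempty → ∀ S : Set X, (∀ j ∈ σ, Inv (Bj j) S) →
    S = ∅ ∨ S = univ

variable {B₀} {Bj : Fin 6 → Subgroup A}

/-- `V_σ` -/
def VV (X : Type*) [MulAction A X] (B₀ : Subgroup A) (Bj : Fin 6 → Subgroup A) (σ : Set (Fin 6)) :
    Set (Set X × Subgroup A) :=
  {p | p ∈ QQ X B₀ ∧ p.1.Nonempty ∧ ∀ j ∈ σ, Bj j ≤ p.2}

lemma VV_RP (D : Data X B₀ Bj) {σ : Set (Fin 6)} (hσ : σ.Nonempty) {p : Set X × Subgroup A}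
    (hp : p ∈ VV X B₀ Bj σ) : σ ∈ RP := by
  by_contra hcon
  obtain ⟨⟨h1, h2, h3, h4⟩, h5, h6⟩ := hp
  rcases D.trans σ hcon hσ p.1 (fun j hj b hb x hx => h3 b (h6 j hj hb) x hx) with h | h
  · exact h5.ne_empty h
  · exact h1 h

lemma theta_inv {C : Subgroup A} {ι : Type*} {s : Set ι} {Bj : ι → Subgroup A} {Y : Type*}
    {θ : X → Y} (h : ∀ j ∈ s, ∀ b ∈ Bj j, ∀ x, θ (b • x) = θ x) (hC : C ≤ ⨆ j ∈ s, Bj j) :
    ∀ c ∈ C, ∀ x, θ (c • x) = θ x := by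
  let K : Subgroup A :=
    { carrier := {a | ∀ x, θ (a • x) = θ x}
      mul_mem' := by
        intro a b ha hb x
        rw [mul_smul, ha, hb]
      one_mem' := by intro x; rw [one_smul]
      inv_mem' := by
        intro a ha x
        have := ha (a⁻¹ • x)
        rw [smul_inv_smul] at this
        exact this.symm }
  have hK : (⨆ j ∈ s, Bj j) ≤ K := iSup₂_le fun j hj b hb x => h j hj b hb x
  exact fun c hc x => hK (hC hc) x

lemma VV_HH (D : Data X B₀ Bj) {σ : Set (Fin 6)} (hσ : σ.Nonempty) :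
    H0 F (chf (VV X B₀ Bj σ)) ∧ H1 F (chf (VV X B₀ Bj σ)) ∧ H2 F (chf (VV X B₀ Bj σ)) := by
  by_cases h : σ ∈ RP
  · have heq : VV X B₀ Bj σ = WW X B₀ (⨆ j ∈ σ, Bj j) := by
      ext p
      constructor
      · rintro ⟨h1, h2, h3⟩
        exact ⟨h1, h2, iSup₂_le h3⟩
      · rintro ⟨h1, h2, h3⟩
        exact ⟨h1, h2, fun j hj => (le_biSup Bj hj).trans h3⟩
    rw [heq]
    obtain ⟨_, i, hi⟩ := h
    obtain ⟨θ, hθ, hinv⟩ := D.orb i
    obtain ⟨j0, hj0⟩ := hσ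
    exact WW_HH B₀ _ ((D.le j0).trans (le_biSup Bj hj0)) θ hθ
      (theta_inv (s := σ) (fun j hj => hinv j (hi hj)) le_rfl)
  · have : VV X B₀ Bj σ = ∅ := by
      rw [Set.eq_empty_iff_forall_notMem]
      intro p hp
      exact h (VV_RP D hσ hp)
    have h2 : chf (VV X B₀ Bj σ) = ⊥ := by
      rw [this, chf]
      have : Ch (∅ : Set (Set X × Subgroup A)) = ∅ := by
        rw [Set.eq_empty_iff_forall_notMem]
        rintro S ⟨h1, h2, _⟩
        exact h1.ne_empty (Set.subset_empty_iff.1 h2)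
      rw [this, Filter.principal_empty]
    rw [h2]
    exact ⟨H0_bot F, H1_bot F, H2_bot F⟩

lemma VV_nonempty (D : Data X B₀ Bj) {σ : Set (Fin 6)} (hσ : σ ∈ RP) :
    (VV X B₀ Bj σ).Nonempty := by
  obtain ⟨⟨j0, hj0⟩, i, hi⟩ := hσ
  obtain ⟨θ, hθ, hinv⟩ := D.orb i
  obtain ⟨x0, hx0⟩ := hθ 0
  obtain ⟨x1, hx1⟩ := hθ 1
  refine ⟨(θ ⁻¹' {0}, ⨆ j ∈ σ, Bj j), ⟨?_, (D.le j0).trans (le_biSup Bj hj0), ?_, ?_⟩,
    ⟨x0, hx0⟩, fun j hj => le_biSup Bj hj⟩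
  · intro h
    have h1 : x1 ∈ θ ⁻¹' {0} := by rw [show θ ⁻¹' {0} = univ from h]; trivial
    have h2 : θ x1 = 0 := h1
    rw [hx1] at h2
    exact absurd h2 (by decide)
  · intro b hb x hx
    have := theta_inv (s := σ) (fun j hj => hinv j (hi hj)) le_rfl b hb x
    show θ (b • x) = 0
    rw [this]; exact hx
  · rintro ⟨h, _⟩
    have h1 : x0 ∈ θ ⁻¹' {0} := hx0
    rw [show θ ⁻¹' {0} = ∅ from h] at h1
    exact h1

lemma VV_sub (D : Data X B₀ Bj) {σ : Set (Fin 6)} (hσ : σ.Nonempty) :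
    VV X B₀ Bj σ ⊆ U01 X B₀ := by
  rintro p ⟨h1, h2, h3⟩
  obtain ⟨j0, hj0⟩ := hσ
  refine ⟨h1, h2, fun h => D.ne j0 (le_antisymm ?_ (D.le j0))⟩
  rw [← h]
  exact h3 j0 hj0

lemma exists_sel (D : Data X B₀ Bj) : ∃ r : Set X × Subgroup A → Fin 6,
    ∀ p ∈ U01 X B₀, Bj (r p) ≤ p.2 := by
  classical
  have : ∀ p : Set X × Subgroup A, ∃ j, p ∈ U01 X B₀ → Bj j ≤ p.2 := by
    intro p
    by_cases h : p ∈ U01 X B₀
    · obtain ⟨j, hj⟩ := D.atom p.2 h.1.2.1 h.2.2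
      exact ⟨j, fun _ => hj⟩
    · exact ⟨0, fun h' => absurd h' h⟩
  choose r hr using this
  exact ⟨r, hr⟩

lemma VV_inter (σ τ : Set (Fin 6)) :
    VV X B₀ Bj σ ∩ VV X B₀ Bj τ = VV X B₀ Bj (σ ∪ τ) := by
  ext p
  constructor
  · rintro ⟨⟨h1, h2, h3⟩, ⟨_, _, h4⟩⟩
    refine ⟨h1, h2, ?_⟩
    rintro j (hj | hj)
    · exact h3 j hj
    · exact h4 j hj
  · rintro ⟨h1, h2, h3⟩
    exact ⟨⟨h1, h2, fun j hj => h3 j (Or.inl hj)⟩, ⟨h1, h2, fun j hj => h3 j (Or.inr hj)⟩⟩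

lemma VV_anti {σ τ : Set (Fin 6)} (h : σ ⊆ τ) : VV X B₀ Bj τ ⊆ VV X B₀ Bj σ :=
  fun p hp => ⟨hp.1, hp.2.1, fun j hj => hp.2.2 j (h hj)⟩

/-- maximum of three members of a chain -/
lemma chain_max3 {P : Type*} [PartialOrder P] {S : Set P} (hS : IsChain (· ≤ ·) S) {x y z : P}
    (hx : x ∈ S) (hy : y ∈ S) (hz : z ∈ S) : ∃ m ∈ S, x ≤ m ∧ y ≤ m ∧ z ≤ m := by
  rcases hS.total hx hy with h | h
  · rcases hS.total hy hz with h' | h'
    · exact ⟨z, hz, h.trans h', h', le_rfl⟩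
    · exact ⟨y, hy, h, le_rfl, h'⟩
  · rcases hS.total hx hz with h' | h'
    · exact ⟨z, hz, h', h.trans h', le_rfl⟩
    · exact ⟨x, hx, le_rfl, h, h'⟩

theorem U01_of_RP (D : Data X B₀ Bj) (h : H1 F (𝓟 RP)) : H1 F (chf (U01 X B₀)) := by
  intro φ hφ
  obtain ⟨r, hr⟩ := exists_sel D
  have hφ' : ∀ σ : Set (Fin 6), σ.Nonempty → Z1 F (chf (VV X B₀ Bj σ)) φ := by
    intro σ hσ
    unfold Z1 Ev3 at *
    rw [ev_chf] at *
    rintro S ⟨h1, h2, h3⟩
    exact hφ S ⟨h1, h2.trans (VV_sub D hσ), h3⟩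
  have h1 : ∀ j : Fin 6, ∃ ψ : Set X × Subgroup A → F,
      Ev2 (chf (VV X B₀ Bj {j})) (fun x y => φ x y = ψ y - ψ x) :=
    fun j => (VV_HH D (singleton_nonempty j)).2.1 φ (hφ' _ (singleton_nonempty j))
  choose ψ hψ using h1
  have hψ' : ∀ j, ∀ S ∈ Ch (VV X B₀ Bj {j}), ∀ x ∈ S, ∀ y ∈ S, φ x y = ψ j y - ψ j x := by
    intro j
    have := hψ j
    unfold Ev2 at this
    rwa [ev_chf] at this
  have h2 : ∀ j k : Fin 6, ∃ c : F, ∀ p ∈ VV X B₀ Bj {j, k}, ψ k p - ψ j p = c := by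
    intro j k
    obtain ⟨c, hc⟩ := (VV_HH (F := F) D (σ := {j, k}) ⟨j, by simp⟩).1
      (fun p => ψ k p - ψ j p) (by
        unfold Z0 Ev2
        rw [ev_chf]
        rintro S ⟨s1, s2, s3⟩ x hx y hy
        have e1 := hψ' j S ⟨s1, s2.trans (VV_anti (by simp)), s3⟩ x hx y hy
        have e2 := hψ' k S ⟨s1, s2.trans (VV_anti (by simp)), s3⟩ x hx y hy
        linear_combination e2 - e1)
    refine ⟨c, fun p hp => ?_⟩
    unfold Ev1 at hc
    rw [ev_chf] at hc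
    exact hc {p} (singleton_Ch hp) p rfl
  choose c hc using h2
  obtain ⟨b, hb⟩ := h c (by
    unfold Z1 Ev3
    rw [Filter.eventually_principal]
    intro S hS u hu v hv w hw
    have hN : ({u, v, w} : Set (Fin 6)) ∈ RP := RP_low S hS _ (by
      rintro q (rfl | rfl | rfl) <;> assumption) ⟨u, by simp⟩
    obtain ⟨p, hp⟩ := VV_nonempty D hN
    have e1 := hc v w p (VV_anti (by intro q hq; simp at hq ⊢; tauto) hp)
    have e2 := hc u w p (VV_anti (by intro q hq; simp at hq ⊢; tauto) hp)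
    have e3 := hc u v p (VV_anti (by intro q hq; simp at hq ⊢; tauto) hp)
    simp only [d1]
    rw [← e1, ← e2, ← e3]
    ring)
  unfold Ev2 at hb
  rw [Filter.eventually_principal] at hb
  have key : ∀ j k : Fin 6, ∀ p ∈ VV X B₀ Bj {j, k}, ψ j p - b j = ψ k p - b k := by
    intro j k p hp
    have hN : ({j, k} : Set (Fin 6)) ∈ RP := VV_RP D ⟨j, by simp⟩ hp
    have e1 := hc j k p hp
    have e2 := hb _ hN j (by simp) k (by simp)
    linear_combination - e1 - e2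
  refine ⟨fun p => ψ (r p) p - b (r p), ?_⟩
  unfold Ev2
  rw [ev_chf]
  intro S hS x hx y hy
  -- a common vertex
  obtain ⟨j, hjx, hjy⟩ : ∃ j, Bj j ≤ x.2 ∧ Bj j ≤ y.2 := by
    rcases hS.2.2.total hx hy with h | h
    · exact ⟨r x, hr x (hS.2.1 hx), (hr x (hS.2.1 hx)).trans h.2⟩
    · exact ⟨r y, (hr y (hS.2.1 hy)).trans h.2, hr y (hS.2.1 hy)⟩
  have mx : ∀ p ∈ S, Bj j ≤ p.2 → p ∈ VV X B₀ Bj {r p, j} := by
    intro p hp hj
    refine ⟨(hS.2.1 hp).1, (hS.2.1 hp).2.1, ?_⟩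
    rintro q (rfl | rfl)
    · exact hr p (hS.2.1 hp)
    · exact hj
  show φ x y = (ψ (r y) y - b (r y)) - (ψ (r x) x - b (r x))
  rw [key _ j x (mx x hx hjx), key _ j y (mx y hy hjy)]
  have e := hψ' j {x, y} ⟨⟨x, by simp⟩, by
    rintro q (rfl | rfl)
    · exact VV_anti (by simp) (mx _ hx hjx)
    · exact VV_anti (by simp) (mx _ hy hjy), hS.2.2.mono (by
      rintro q (rfl | rfl) <;> assumption)⟩ x (by simp) y (by simp)
  linear_combination e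

theorem RP_of_U01 (D : Data X B₀ Bj) (h : H1 F (chf (U01 X B₀))) : H1 F (𝓟 RP) := by
  intro c hc
  have hc' : ∀ u v w, ({u, v, w} : Set (Fin 6)) ∈ RP → d1 c u v w = 0 := by
    intro u v w hN
    unfold Z1 Ev3 at hc
    rw [Filter.eventually_principal] at hc
    exact hc _ hN u (by simp) v (by simp) w (by simp)
  obtain ⟨r, hr⟩ := exists_sel D
  obtain ⟨ψ, hψ⟩ := h (fun x y => c (r x) (r y)) (by
    unfold Z1 Ev3
    rw [ev_chf]
    rintro S ⟨s1, s2, s3⟩ x hx y hy z hz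
    obtain ⟨m, hm, h1, h2, h3⟩ := chain_max3 s3 hx hy hz
    refine hc' _ _ _ (VV_RP D (p := m) ⟨r x, by simp⟩ ⟨(s2 hm).1, (s2 hm).2.1, ?_⟩)
    rintro q (rfl | rfl | rfl)
    · exact (hr x (s2 hx)).trans h1.2
    · exact (hr y (s2 hy)).trans h2.2
    · exact (hr z (s2 hz)).trans h3.2)
  unfold Ev2 at hψ
  rw [ev_chf] at hψ
  have h1 : ∀ j : Fin 6, ∃ b : F, ∀ p ∈ VV X B₀ Bj {j}, ψ p - c j (r p) = b := by
    intro j
    obtain ⟨b, hb⟩ := (VV_HH (F := F) D (singleton_nonempty j)).1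
      (fun p => ψ p - c j (r p)) (by
        unfold Z0 Ev2
        rw [ev_chf]
        rintro S ⟨s1, s2, s3⟩ x hx y hy
        have s2' := s2.trans (VV_sub D (singleton_nonempty j))
        obtain ⟨m, hm, m1, m2, _⟩ := chain_max3 s3 hx hy hy
        have e1 := hψ S ⟨s1, s2', s3⟩ x hx y hy
        have e2 : d1 c j (r x) (r y) = 0 := by
          refine hc' _ _ _ (VV_RP D (p := m) ⟨j, by simp⟩ ⟨(s2 hm).1, (s2 hm).2.1, ?_⟩)
          rintro q (rfl | rfl | rfl)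
          · exact (s2 hm).2.2 _ rfl
          · exact (hr x (s2' hx)).trans m1.2
          · exact (hr y (s2' hy)).trans m2.2
        simp only [d1] at e2
        linear_combination e1 - e2)
    refine ⟨b, fun p hp => ?_⟩
    unfold Ev1 at hb
    rw [ev_chf] at hb
    exact hb {p} (singleton_Ch hp) p rfl
  choose b hb using h1
  refine ⟨b, ?_⟩
  unfold Ev2
  rw [Filter.eventually_principal]
  intro S hS j hj k hk
  have hN : ({j, k} : Set (Fin 6)) ∈ RP := RP_low S hS _ (by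
    rintro q (rfl | rfl) <;> assumption) ⟨j, by simp⟩
  obtain ⟨p, hp⟩ := VV_nonempty D hN
  have e1 := hb j p (VV_anti (by simp) hp)
  have e2 := hb k p (VV_anti (by simp) hp)
  have e3 : d1 c j k (r p) = 0 := by
    refine hc' _ _ _ (VV_RP D (p := p) ⟨j, by simp⟩ ⟨hp.1, hp.2.1, ?_⟩)
    rintro q (rfl | rfl | rfl)
    · exact hp.2.2 _ (by simp)
    · exact hp.2.2 _ (by simp)
    · exact hr p (VV_sub D ⟨j, by simp⟩ hp)
  simp only [d1] at e3
  linear_combination e3 + e2 - e1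

theorem QQ_three (D : Data X B₀ Bj) : H2 (ZMod 3) (chf (QQ X B₀)) := by
  rw [← U_sup]
  obtain ⟨θ, hθ, hinv⟩ := D.orb 0
  have hU1 : H2 (ZMod 3) (chf (U1 X B₀)) := by
    rw [U1_eq]
    exact (WW_HH B₀ B₀ le_rfl θ hθ (fun c hc x => hinv 0 (by decide) c (D.le 0 hc) x)).2.2
  refine mv_a _ (chf_low _) (chf_low _) (U0_HH B₀ D.top).2.2 hU1 ?_
  rw [U_inf]
  exact U01_of_RP D RP_H1_three

theorem QQ_two (D : Data X B₀ Bj) : ¬ H2 (ZMod 2) (chf (QQ X B₀)) := by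
  intro h
  rw [← U_sup] at h
  obtain ⟨θ, hθ, hinv⟩ := D.orb 0
  have hU1 : H1 (ZMod 2) (chf (U1 X B₀)) := by
    rw [U1_eq]
    exact (WW_HH B₀ B₀ le_rfl θ hθ (fun c hc x => hinv 0 (by decide) c (D.le 0 hc) x)).2.1
  have := mv_b _ (chf_low _) (chf_low _) (U0_HH B₀ D.top).2.1 hU1 h
  rw [U_inf] at this
  exact RP_H1_two (RP_of_U01 D this)

end

end Pool.Agent.Helper95.Wedge
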