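import Pool.Agent.Helper95.Wedge.PosetLem

set_option autoImplicit false
set_option linter.unusedVariables false
set_option linter.unusedSectionVars false

open Filter Set

namespace Pool.Agent.Helper95.Wedge

/-- the ten facets of the 6-vertex real projective plane -/
def facet (i : Fin 10) : Finset (Fin 6) :=
  match i with
  | 0 => {0, 1, 2}
  | 1 => {0, 2, 3}
  | 2 => {0, 3, 4}
  | 3 => {0, 4, 5}
  | 4 => {0, 5, 1}
  | 5 => {1, 2, 4}
  | 6 => {2, 3, 5}
  | 7 => {3, 4, 1}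
  | 8 => {4, 5, 2}
  | 9 => {5, 1, 3}

/-- nonempty faces -/
def RP : Set (Set (Fin 6)) := {σ | σ.Nonempty ∧ ∃ i, σ ⊆ (facet i : Set (Fin 6))}

lemma RP_low : ∀ S ∈ RP, ∀ T ⊆ S, T.Nonempty → T ∈ RP := by
  rintro S ⟨_, i, hi⟩ T hT hn
  exact ⟨hn, i, hT.trans hi⟩

lemma mem_RP3 {x y z : Fin 6} : ({x, y, z} : Set (Fin 6)) ∈ RP ↔
    ∃ i, x ∈ facet i ∧ y ∈ facet i ∧ z ∈ facet i := by
  constructor
  · rintro ⟨_, i, hi⟩
    exact ⟨i, hi (by simp), hi (by simp), hi (by simp)⟩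
  · rintro ⟨i, h1, h2, h3⟩
    refine ⟨⟨x, by simp⟩, i, ?_⟩
    rintro w (rfl | rfl | rfl) <;> assumption

lemma edge_all : ∀ x y : Fin 6, ∃ i, x ∈ facet i ∧ y ∈ facet i := by decide

lemma RP_H1_three : H1 (ZMod 3) (𝓟 RP) := by
  intro φ hφ
  have hφ' : ∀ x y z, (∃ i, x ∈ facet i ∧ y ∈ facet i ∧ z ∈ facet i) → d1 φ x y z = 0 := by
    intro x y z h
    unfold Z1 Ev3 at hφ
    rw [Filter.eventually_principal] at hφ
    exact hφ _ (mem_RP3.2 h) x (by simp) y (by simp) z (by simp)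
  obtain ⟨e, he⟩ : ∃ e : Fin 6 → Fin 6 → ZMod 3, ∀ x y, e x y = φ x y - (φ 0 y - φ 0 x) :=
    ⟨_, fun _ _ => rfl⟩
  have A : ∀ x y z, (∃ i, x ∈ facet i ∧ y ∈ facet i ∧ z ∈ facet i) →
      e y z - e x z + e x y = 0 := by
    intro x y z h
    have := hφ' x y z h
    simp only [d1] at this
    rw [he, he, he]
    linear_combination this
  have exx : ∀ x, e x x = 0 := by
    intro x
    have := A x x x (by
      obtain ⟨i, hi, _⟩ := edge_all x x
      exact ⟨i, hi, hi, hi⟩)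
    linear_combination this
  have anti : ∀ x y, e x y = - e y x := by
    intro x y
    obtain ⟨i, hi, hi'⟩ := edge_all x y
    have h1 := A x y x ⟨i, hi, hi', hi⟩
    have h2 := exx x
    linear_combination h1 + h2
  have e0 : ∀ x, e 0 x = 0 := by
    intro x
    have h1 : e 0 0 = 0 := exx 0
    rw [he] at *
    linear_combination h1
  have ex0 : ∀ x, e x 0 = 0 := by
    intro x; rw [anti, e0, neg_zero]
  have e12 : e 1 2 = 0 := by
    have h := A 0 1 2 (by decide)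
    rw [e0, e0] at h; linear_combination h
  have e23 : e 2 3 = 0 := by
    have h := A 0 2 3 (by decide)
    rw [e0, e0] at h; linear_combination h
  have e34 : e 3 4 = 0 := by
    have h := A 0 3 4 (by decide)
    rw [e0, e0] at h; linear_combination h
  have e45 : e 4 5 = 0 := by
    have h := A 0 4 5 (by decide)
    rw [e0, e0] at h; linear_combination h
  have e51 : e 5 1 = 0 := by
    have h := A 0 5 1 (by decide)
    rw [e0, e0] at h; linear_combination h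
  have t1 := A 1 2 4 (by decide)
  have t2 := A 2 3 5 (by decide)
  have t3 := A 3 4 1 (by decide)
  have t4 := A 4 5 2 (by decide)
  have t5 := A 5 1 3 (by decide)
  have a1 := anti 4 1
  have a2 := anti 3 1
  have a3 := anti 5 3
  have a4 := anti 5 2
  have a5 := anti 4 2
  have three : (3 : ZMod 3) = 0 := by decide
  have e24 : e 2 4 = 0 := by
    have h2 : 2 * e 2 4 = 0 := by
      rw [e12] at t1
      rw [e23] at t2
      rw [e34] at t3
      rw [e45] at t4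
      rw [e51] at t5
      rw [a1, a2] at t3
      rw [a4, a5] at t4
      rw [a3] at t5
      linear_combination t1 - t3 + t5 - t2 + t4
    linear_combination e 2 4 * three - h2
  have e14 : e 1 4 = 0 := by linear_combination e24 + e12 - t1
  have e13 : e 1 3 = 0 := by
    rw [a1, a2] at t3
    linear_combination t3 + e14 - e34
  have e35 : e 3 5 = 0 := by
    rw [a3] at t5
    linear_combination t5 - e13 - e51
  have e25 : e 2 5 = 0 := by linear_combination e35 + e23 - t2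
  have e15 : e 1 5 = 0 := by rw [anti, e51, neg_zero]
  refine ⟨fun x => φ 0 x, ?_⟩
  refine Filter.Eventually.of_forall ?_
  intro S x _ y _
  have : e x y = 0 := by
    have e21 : e 2 1 = 0 := by rw [anti, e12, neg_zero]
    have e31 : e 3 1 = 0 := by rw [anti, e13, neg_zero]
    have e41 : e 4 1 = 0 := by rw [anti, e14, neg_zero]
    have e32 : e 3 2 = 0 := by rw [anti, e23, neg_zero]
    have e42 : e 4 2 = 0 := by rw [anti, e24, neg_zero]
    have e52 : e 5 2 = 0 := by rw [anti, e25, neg_zero]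
    have e43 : e 4 3 = 0 := by rw [anti, e34, neg_zero]
    have e53 : e 5 3 = 0 := by rw [anti, e35, neg_zero]
    have e54 : e 5 4 = 0 := by rw [anti, e45, neg_zero]
    have key : ∀ x y : Fin 6, x = 0 ∨ y = 0 ∨ x = y ∨ 
        (x = 1 ∧ y = 2) ∨ (x = 2 ∧ y = 3) ∨ (x = 3 ∧ y = 4) ∨ (x = 4 ∧ y = 5) ∨
        (x = 5 ∧ y = 1) ∨ (x = 2 ∧ y = 4) ∨ (x = 1 ∧ y = 4) ∨ (x = 1 ∧ y = 3) ∨
        (x = 3 ∧ y = 5) ∨ (x = 2 ∧ y = 5) ∨ (x = 1 ∧ y = 5) ∨ (x = 2 ∧ y = 1) ∨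
        (x = 3 ∧ y = 1) ∨ (x = 4 ∧ y = 1) ∨ (x = 3 ∧ y = 2) ∨ (x = 4 ∧ y = 2) ∨
        (x = 5 ∧ y = 2) ∨ (x = 4 ∧ y = 3) ∨ (x = 5 ∧ y = 3) ∨ (x = 5 ∧ y = 4) := by decide
    rcases key x y with rfl | rfl | rfl | ⟨rfl, rfl⟩ | ⟨rfl, rfl⟩ | ⟨rfl, rfl⟩ | ⟨rfl, rfl⟩ | ⟨rfl, rfl⟩ | ⟨rfl, rfl⟩ | ⟨rfl, rfl⟩ | ⟨rfl, rfl⟩ | ⟨rfl, rfl⟩ | ⟨rfl, rfl⟩ | ⟨rfl, rfl⟩ | ⟨rfl, rfl⟩ | ⟨rfl, rfl⟩ | ⟨rfl, rfl⟩ | ⟨rfl, rfl⟩ | ⟨rfl, rfl⟩ | ⟨rfl, rfl⟩ | ⟨rfl, rfl⟩ | ⟨rfl, rfl⟩ | ⟨rfl, rfl⟩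
    · exact e0 _
    · exact ex0 _
    · exact exx _
    · exact e12
    · exact e23
    · exact e34
    · exact e45
    · exact e51
    · exact e24
    · exact e14
    · exact e13
    · exact e35
    · exact e25
    · exact e15
    · exact e21
    · exact e31
    · exact e41
    · exact e32
    · exact e42
    · exact e52
    · exact e43
    · exact e53
    · exact e54
  rw [he] at this
  linear_combination this

/-- the nontrivial class mod 2 -/
def cc (x y : Fin 6) : ZMod 2 :=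
  if (x, y) ∈ ({(1, 3), (3, 1), (2, 4), (4, 2), (3, 5), (5, 3), (4, 1), (1, 4), (5, 2), (2, 5)} :
    Finset (Fin 6 × Fin 6)) then 1 else 0

lemma cc_cocycle : ∀ x y z : Fin 6, (∃ i, x ∈ facet i ∧ y ∈ facet i ∧ z ∈ facet i) →
    cc y z - cc x z + cc x y = 0 := by decide

lemma RP_H1_two : ¬ H1 (ZMod 2) (𝓟 RP) := by
  intro h
  obtain ⟨χ, hχ⟩ := h cc (by
    unfold Z1 Ev3
    rw [Filter.eventually_principal]
    intro S hS x hx y hy z hz
    refine cc_cocycle x y z (mem_RP3.1 (RP_low S hS _ ?_ ⟨x, by simp⟩))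
    rintro w (rfl | rfl | rfl) <;> assumption)
  unfold Ev2 at hχ
  rw [Filter.eventually_principal] at hχ
  have hχ' : ∀ x y, cc x y = χ y - χ x := by
    intro x y
    obtain ⟨i, h1, h2⟩ := edge_all x y
    refine hχ {x, y} ⟨⟨x, by simp⟩, i, ?_⟩ x (by simp) y (by simp)
    rintro w (rfl | rfl) <;> assumption
  have h1 := hχ' 0 1
  have h2 := hχ' 0 3
  have h3 := hχ' 1 3
  have g1 : cc 0 1 = 0 := by decide
  have g2 : cc 0 3 = 0 := by decide
  have g3 : cc 1 3 = 1 := by decide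
  rw [g1] at h1
  rw [g2] at h2
  rw [g3] at h3
  have : (1 : ZMod 2) = 0 := by linear_combination h3 - h2 + h1
  exact absurd this (by decide)

end Pool.Agent.Helper95.Wedge
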