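import Pool.Agent.Helper95.Wedge.Bouquet

set_option autoImplicit false
set_option linter.unusedVariables false
set_option linter.unusedSectionVars false

open Filter Set Metric Topology

namespace Pool.Agent.Helper95.Wedge

section

variable {P : Type*} [PartialOrder P]

/-- geometric realisation of the order complex of `U` -/
def Rz (U : Set P) : Set (P → ℝ) :=
  {f | (∀ L, 0 ≤ f L) ∧ (∀ L, f L ≠ 0 → L ∈ U) ∧ IsChain (· ≤ ·) {L | f L ≠ 0} ∧ ∑ᶠ L, f L = 1}

/-- nonempty chains in `U` -/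
def Ch (U : Set P) : Set (Set P) := {S | S.Nonempty ∧ S ⊆ U ∧ IsChain (· ≤ ·) S}

lemma Ch_low (U : Set P) : ∀ S ∈ Ch U, ∀ T ⊆ S, T.Nonempty → T ∈ Ch U :=
  fun S hS T hT hn => ⟨hn, hT.trans hS.2.1, hS.2.2.mono hT⟩

variable [Fintype P] (U : Set P)

def Az (σ : Finset P) : Set (P → ℝ) :=
  {f | f ∈ Rz U ∧ ∀ v ∈ σ, (Fintype.card P : ℝ)⁻¹ ≤ f v}

lemma isClosed_Rz : IsClosed (Rz U) := by
  have h : Rz U = {f : P → ℝ | ∀ L, 0 ≤ f L} ∩ ({f | ∀ L, L ∉ U → f L = 0} ∩
      ({f | ∀ L L', ¬ L ≤ L' → ¬ L' ≤ L → f L * f L' = 0} ∩ {f | ∑ L, f L = 1})) := by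
    ext f
    simp only [Rz, mem_ofPred_eq, mem_inter_iff, finsum_eq_sum_of_fintype]
    refine and_congr Iff.rfl (and_congr ?_ (and_congr ?_ Iff.rfl))
    · exact forall_congr' fun L => by tauto
    · constructor
      · intro h L L' h1 h2
        by_contra hne
        have h3 : f L ≠ 0 := fun h0 => hne (by rw [h0]; ring)
        have h4 : f L' ≠ 0 := fun h0 => hne (by rw [h0]; ring)
        have h5 : L ≠ L' := by rintro rfl; exact h1 le_rfl
        rcases h h3 h4 h5 with h6 | h6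
        · exact h1 h6
        · exact h2 h6
      · intro h L hL L' hL' hne
        by_contra hcon
        push Not at hcon
        have := h L L' hcon.1 hcon.2
        rcases mul_eq_zero.1 this with h0 | h0
        · exact hL h0
        · exact hL' h0
  rw [h]
  refine IsClosed.inter ?_ (IsClosed.inter ?_ (IsClosed.inter ?_ ?_))
  · simp only [ofPred_forall]
    exact isClosed_iInter fun L => isClosed_le continuous_const (continuous_apply L)
  · simp only [ofPred_forall]
    exact isClosed_iInter fun L => isClosed_iInter fun _ =>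
      isClosed_eq (continuous_apply L) continuous_const
  · simp only [ofPred_forall]
    exact isClosed_iInter fun L => isClosed_iInter fun L' => isClosed_iInter fun _ =>
      isClosed_iInter fun _ => isClosed_eq ((continuous_apply L).mul (continuous_apply L'))
        continuous_const
  · exact isClosed_eq (by fun_prop) continuous_const

lemma isCompact_Rz : IsCompact (Rz U) := by
  refine (isCompact_Icc (a := (0 : P → ℝ)) (b := 1)).of_isClosed_subset (isClosed_Rz U) ?_
  rintro f ⟨h1, h2, h3, h4⟩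
  rw [finsum_eq_sum_of_fintype] at h4
  refine ⟨fun L => h1 L, fun L => ?_⟩
  have := Finset.single_le_sum (f := f) (fun L _ => h1 L) (Finset.mem_univ L)
  rw [h4] at this
  exact this

lemma isClosed_Az (σ : Finset P) : IsClosed (Az U σ) := by
  have h : Az U σ = Rz U ∩ ⋂ L ∈ σ, {f : P → ℝ | (Fintype.card P : ℝ)⁻¹ ≤ f L} := by
    ext f
    simp [Az]
  rw [h]
  exact (isClosed_Rz U).inter (isClosed_iInter fun L => isClosed_iInter fun _ =>
    isClosed_le continuous_const (continuous_apply L))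

lemma isCompact_Az (σ : Finset P) : IsCompact (Az U σ) :=
  (isCompact_Rz U).of_isClosed_subset (isClosed_Az U σ) (fun f hf => hf.1)

lemma Az_inter [DecidableEq P] (σ τ : Finset P) : Az U σ ∩ Az U τ = Az U (σ ∪ τ) := by
  ext f
  constructor
  · rintro ⟨⟨h1, h2⟩, ⟨_, h4⟩⟩
    refine ⟨h1, fun v hv => ?_⟩
    rcases Finset.mem_union.1 hv with h | h
    · exact h2 v h
    · exact h4 v h
  · rintro ⟨h1, h2⟩
    exact ⟨⟨h1, fun v hv => h2 v (Finset.mem_union_left _ hv)⟩,
      ⟨h1, fun v hv => h2 v (Finset.mem_union_right _ hv)⟩⟩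

lemma Az_empty_of (σ : Finset P) (hσ : σ.Nonempty) (h : (σ : Set P) ∉ Ch U) : Az U σ = ∅ := by
  rw [Set.eq_empty_iff_forall_notMem]
  rintro f ⟨⟨h1, h2, h3, h4⟩, h5⟩
  have hN : (0 : ℝ) < (Fintype.card P : ℝ)⁻¹ := by
    obtain ⟨v, _⟩ := hσ
    have : 0 < Fintype.card P := Fintype.card_pos_iff.2 ⟨v⟩
    positivity
  have h6 : ∀ v ∈ σ, f v ≠ 0 := fun v hv => ne_of_gt (hN.trans_le (h5 v hv))
  exact h ⟨by simpa using hσ, fun v hv => h2 v (h6 v hv), h3.mono (fun v hv => h6 v hv)⟩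

/-- barycentre -/
noncomputable def bary (σ : Finset P) : P → ℝ := by
  classical exact fun v => if v ∈ σ then (σ.card : ℝ)⁻¹ else 0

lemma bary_mem (σ : Finset P) (h : (σ : Set P) ∈ Ch U) : bary σ ∈ Az U σ := by
  classical
  have hσ : σ.Nonempty := by simpa using h.1
  have hcard : (0 : ℝ) < σ.card := by exact_mod_cast hσ.card_pos
  have hsupp : ∀ v, bary σ v ≠ 0 → v ∈ σ := by
    intro v hv
    by_contra hcon
    exact hv (by simp [bary, hcon])
  refine ⟨⟨fun L => ?_, fun L hL => h.2.1 (hsupp L hL), h.2.2.mono (fun L hL => hsupp L hL), ?_⟩,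
    fun v hv => ?_⟩
  · by_cases hL : L ∈ σ
    · simp [bary, hL]
    · simp [bary, hL]
  · rw [finsum_eq_sum_of_fintype]
    simp only [bary]
    rw [Finset.sum_ite_mem, Finset.univ_inter, Finset.sum_const, nsmul_eq_mul]
    field_simp
  · simp only [bary, hv, if_true]
    exact inv_anti₀ hcard (by exact_mod_cast Finset.card_le_univ σ)

lemma Az_star (σ : Finset P) (h : (σ : Set P) ∈ Ch U) : StarConvex ℝ (bary σ) (Az U σ) := by
  rintro f ⟨⟨h1, h2, h3, h4⟩, h5⟩ a c ha hc hac
  obtain ⟨⟨b1, b2, b3, b4⟩, b5⟩ := bary_mem U σ h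
  have hN : (0 : ℝ) < (Fintype.card P : ℝ)⁻¹ := by
    obtain ⟨v, _⟩ := h.1
    have : 0 < Fintype.card P := Fintype.card_pos_iff.2 ⟨v⟩
    positivity
  have hsupp : ∀ v, bary σ v ≠ 0 → f v ≠ 0 := by
    intro v hv
    have : v ∈ σ := by
      by_contra hcon
      exact hv (by simp [bary, hcon])
    exact ne_of_gt (hN.trans_le (h5 v this))
  have hs : ∀ L, (a • bary σ + c • f) L ≠ 0 → f L ≠ 0 := by
    intro L hL h0
    apply hL
    have : bary σ L = 0 := by
      by_contra hcon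
      exact hsupp L hcon h0
    simp [this, h0]
  refine ⟨⟨fun L => ?_, fun L hL => h2 L (hs L hL), h3.mono (fun L hL => hs L hL), ?_⟩,
    fun v hv => ?_⟩
  · have := mul_nonneg ha (b1 L)
    have := mul_nonneg hc (h1 L)
    simp only [Pi.add_apply, Pi.smul_apply, smul_eq_mul]
    linarith
  · rw [finsum_eq_sum_of_fintype] at *
    simp only [Pi.add_apply, Pi.smul_apply, smul_eq_mul]
    rw [Finset.sum_add_distrib, ← Finset.mul_sum, ← Finset.mul_sum, b4, h4]
    linarith
  · simp only [Pi.add_apply, Pi.smul_apply, smul_eq_mul]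
    have e1 := mul_le_mul_of_nonneg_left (b5 v hv) ha
    have e2 := mul_le_mul_of_nonneg_left (h5 v hv) hc
    have e3 : a * (Fintype.card P : ℝ)⁻¹ + c * (Fintype.card P : ℝ)⁻¹ =
        (Fintype.card P : ℝ)⁻¹ := by
      rw [← add_mul, hac, one_mul]
    linarith

variable {F : Type*} [CommRing F]

lemma H_Az (σ : Finset P) (hσ : σ.Nonempty) :
    H0 F (near (Az U σ)) ∧ H1 F (near (Az U σ)) ∧ H2 F (near (Az U σ)) := by
  by_cases h : (σ : Set P) ∈ Ch U
  · exact H_star (isCompact_Az U σ) (bary_mem U σ h) (Az_star U σ h)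
  · rw [Az_empty_of U σ hσ h, near_empty]
    exact ⟨H0_bot F, H1_bot F, H2_bot F⟩

lemma Rz_cover (f : P → ℝ) (hf : f ∈ Rz U) : ∃ v, f ∈ Az U {v} := by
  obtain ⟨h1, h2, h3, h4⟩ := hf
  have h4' := h4
  rw [finsum_eq_sum_of_fintype] at h4'
  by_contra hcon
  push Not at hcon
  have hne : Nonempty P := by
    by_contra hemp
    rw [not_nonempty_iff] at hemp
    simp at h4'
  have h5 : ∀ v, f v < (Fintype.card P : ℝ)⁻¹ := by
    intro v
    by_contra hv
    push Not at hv
    exact hcon v ⟨⟨h1, h2, h3, h4⟩, fun w hw => by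
      rw [Finset.mem_singleton.1 hw]; exact hv⟩
  have h6 : ∑ v, f v < ∑ v : P, (Fintype.card P : ℝ)⁻¹ :=
    Finset.sum_lt_sum_of_nonempty Finset.univ_nonempty (fun v _ => h5 v)
  rw [h4'] at h6
  have hc : (0 : ℝ) < Fintype.card P := by exact_mod_cast Fintype.card_pos
  rw [Finset.sum_const, nsmul_eq_mul, Finset.card_univ] at h6
  have : (Fintype.card P : ℝ) * (Fintype.card P : ℝ)⁻¹ = 1 := by field_simp
  linarith

lemma exists_r (hne : (Rz U).Nonempty) : ∃ r : (P → ℝ) → P,
    ∀ E : P → Set (Set (P → ℝ)), (∀ v, E v ∈ near (Az U {v})) →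
      ∀ᶠ S in near (Rz U), ∀ x ∈ S, S ∈ E (r x) := by
  obtain ⟨ρ, h1, h2, h3⟩ := exists_rho hne (isClosed_Rz U)
  have h4 : ∀ x, ∃ v, ρ x ∈ Az U {v} := fun x => Rz_cover U (ρ x) (h1 x)
  choose r hr using h4
  refine ⟨r, fun E hE => ?_⟩
  have h5 : ∀ v, ∃ ε > 0, ∀ a ∈ Az U {v}, ∀ S ⊆ ball a ε, S.Nonempty → S ∈ E v := hE
  choose ε hε hEε using h5
  obtain ⟨ε', hε', hle⟩ : ∃ ε' > 0, ∀ v, ε' ≤ ε v := by
    obtain ⟨f, hf⟩ := hne
    obtain ⟨v0, _⟩ := Rz_cover U f hf
    have : Nonempty P := ⟨v0⟩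
    obtain ⟨v, hv⟩ := Finite.exists_min ε
    exact ⟨ε v, hε v, hv⟩
  obtain ⟨δ, hδ, hh⟩ := h3 (ε' / 2) (by linarith)
  refine ⟨min δ (ε' / 2), lt_min hδ (by linarith), fun a ha S hS hn x hx => ?_⟩
  refine hEε (r x) (ρ x) (hr x) S (fun y hy => ?_) hn
  have e1 := hh a ha x (ball_subset_ball (min_le_left _ _) (hS hx))
  have e2 := mem_ball.1 (ball_subset_ball (min_le_right _ _) (hS hy))
  have e3 := dist_triangle y a (ρ x)
  rw [dist_comm a (ρ x)] at e3
  exact mem_ball.2 (by linarith [hle (r x)])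

theorem H2_Rz : H2 F (near (Rz U)) ↔ H2 F (𝓟 (Ch U)) := by
  classical
  rcases (Rz U).eq_empty_or_nonempty with h0 | hne
  · have : Ch U = ∅ := by
      rw [Set.eq_empty_iff_forall_notMem]
      intro S hS
      have hS' : ((S.toFinset : Finset P) : Set P) ∈ Ch U := by simpa using hS
      have := (bary_mem U _ hS').1
      rw [h0] at this
      exact this
    rw [h0, near_empty, this, Filter.principal_empty]
    exact ⟨fun _ => H2_bot F, fun _ => H2_bot F⟩
  obtain ⟨r, hR⟩ := exists_r U hne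
  have i2 : ∀ u v : P, near (Az U {u}) ⊓ near (Az U {v}) = near (Az U {u, v}) := by
    intro u v
    rw [← near_inter (isCompact_Az U _) (isClosed_Az U _), Az_inter]
    rfl
  have i3 : ∀ u v w : P, near (Az U {u}) ⊓ near (Az U {v}) ⊓ near (Az U {w}) =
      near (Az U {u, v, w}) := by
    intro u v w
    rw [i2, ← near_inter (isCompact_Az U _) (isClosed_Az U _), Az_inter]
    congr 2
    ext x
    simp
    try tauto
  have i4 : ∀ u v w t : P, near (Az U {u}) ⊓ near (Az U {v}) ⊓ near (Az U {w}) ⊓ near (Az U {t}) =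
      near (Az U {u, v, w, t}) := by
    intro u v w t
    rw [i3, ← near_inter (isCompact_Az U _) (isClosed_Az U _), Az_inter]
    congr 2
    ext x
    simp
    try tauto
  have hAK : ∀ v, near (Az U {v}) ≤ near (Rz U) := fun v => near_mono (fun f hf => hf.1)
  constructor
  · refine of_nerve2 (A := fun v => near (Az U {v})) (Ch_low U) hR hAK ?_ ?_ ?_ ?_
    · intro v
      exact (H_Az U {v} (Finset.singleton_nonempty v)).2.1
    · intro v w
      show H0 F (near (Az U {v}) ⊓ near (Az U {w}))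
      rw [i2]
      exact (H_Az U _ ⟨v, by simp⟩).1
    · intro u v w h
      show ∃ᶠ S in near (Az U {u}) ⊓ near (Az U {v}) ⊓ near (Az U {w}), S.Nonempty
      rw [i3]
      exact near_freq' ⟨_, bary_mem U _ (by simpa using h)⟩
    · intro u v w t h
      show near (Az U {u}) ⊓ near (Az U {v}) ⊓ near (Az U {w}) ⊓ near (Az U {t}) = ⊥
      rw [i4, Az_empty_of U _ ⟨u, by simp⟩ (by simpa using h), near_empty]
  · refine nerve2_of (A := fun v => near (Az U {v})) (Ch_low U) hR hAK ?_ ?_ ?_ ?_ ?_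
    · intro v
      exact (H_Az U {v} (Finset.singleton_nonempty v)).2.2
    · intro v w
      show H1 F (near (Az U {v}) ⊓ near (Az U {w}))
      rw [i2]
      exact (H_Az U _ ⟨v, by simp⟩).2.1
    · intro u v w
      show H0 F (near (Az U {u}) ⊓ near (Az U {v}) ⊓ near (Az U {w}))
      rw [i3]
      exact (H_Az U _ ⟨u, by simp⟩).1
    · intro u v w t h
      show ∃ᶠ S in near (Az U {u}) ⊓ near (Az U {v}) ⊓ near (Az U {w}) ⊓ near (Az U {t}), S.Nonempty
      rw [i4]
      exact near_freq' ⟨_, bary_mem U _ (by simpa using h)⟩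
    · intro u v w h
      show near (Az U {u}) ⊓ near (Az U {v}) ⊓ near (Az U {w}) = ⊥
      rw [i3, Az_empty_of U _ ⟨u, by simp⟩ (by simpa using h), near_empty]

end

end Pool.Agent.Helper95.Wedge
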