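import Pool.Agent.Helper95.Wedge.Metric

set_option autoImplicit false
set_option linter.unusedVariables false
set_option linter.unusedSectionVars false

open Filter Set Metric Topology

namespace Pool.Agent.Helper95.Wedge

/-- equatorial spheres -/
def Sk (d n : ℕ) : Set (EuclideanSpace ℝ (Fin (d + 1))) :=
  {x | ‖x‖ = 1 ∧ ∀ j : Fin (d + 1), n ≤ (j : ℕ) → x j = 0}

/-- hemispheres -/
def Dk (d n : ℕ) (hn : n < d + 1) (s : ℝ) : Set (EuclideanSpace ℝ (Fin (d + 1))) :=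
  {x | x ∈ Sk d (n + 1) ∧ 0 ≤ s * x ⟨n, hn⟩}

lemma continuous_coord {d : ℕ} (j : Fin (d + 1)) :
    Continuous (fun x : EuclideanSpace ℝ (Fin (d + 1)) => x j) := by
  fun_prop

lemma isClosed_Sk (d n : ℕ) : IsClosed (Sk d n) := by
  have : Sk d n = {x | ‖x‖ = 1} ∩
      ⋂ j : Fin (d + 1), ⋂ (_ : n ≤ (j : ℕ)), {x : EuclideanSpace ℝ (Fin (d + 1)) | x j = 0} := by
    ext x
    simp [Sk]
  rw [this]
  refine (isClosed_eq continuous_norm continuous_const).inter ?_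
  exact isClosed_iInter fun j => isClosed_iInter fun _ =>
    isClosed_eq (continuous_coord j) continuous_const

lemma isCompact_Sk (d n : ℕ) : IsCompact (Sk d n) := by
  refine (isCompact_sphere (0 : EuclideanSpace ℝ (Fin (d + 1))) 1).of_isClosed_subset
    (isClosed_Sk d n) ?_
  intro x hx
  simpa using hx.1

lemma isClosed_Dk (d n : ℕ) (hn : n < d + 1) (s : ℝ) : IsClosed (Dk d n hn s) :=
  (isClosed_Sk d (n + 1)).inter
    (isClosed_le continuous_const (continuous_const.mul (continuous_coord _)))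

lemma isCompact_Dk (d n : ℕ) (hn : n < d + 1) (s : ℝ) : IsCompact (Dk d n hn s) :=
  (isCompact_Sk d (n + 1)).of_isClosed_subset (isClosed_Dk d n hn s) (fun x hx => hx.1)

lemma Sk_succ (d n : ℕ) (hn : n < d + 1) : Sk d (n + 1) = Dk d n hn 1 ∪ Dk d n hn (-1) := by
  ext x
  constructor
  · intro hx
    rcases le_total 0 (x ⟨n, hn⟩) with h | h
    · exact Or.inl ⟨hx, by simpa using h⟩
    · exact Or.inr ⟨hx, by simpa using h⟩
  · rintro (hx | hx)
    · exact hx.1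
    · exact hx.1

lemma Dk_inter (d n : ℕ) (hn : n < d + 1) : Dk d n hn 1 ∩ Dk d n hn (-1) = Sk d n := by
  ext x
  constructor
  · rintro ⟨⟨⟨h1, h2⟩, h3⟩, ⟨_, h4⟩⟩
    refine ⟨h1, fun j hj => ?_⟩
    rcases Nat.lt_or_ge n (j : ℕ) with h | h
    · exact h2 j h
    · have : j = ⟨n, hn⟩ := Fin.ext (le_antisymm h hj)
      subst this
      linarith
  · rintro ⟨h1, h2⟩
    have h3 : x ⟨n, hn⟩ = 0 := h2 ⟨n, hn⟩ le_rfl
    refine ⟨⟨⟨h1, fun j hj => h2 j (by omega)⟩, ?_⟩, ⟨⟨h1, fun j hj => h2 j (by omega)⟩, ?_⟩⟩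
    · simp [h3]
    · simp [h3]

variable {F : Type*} [CommRing F]

lemma H_Dk (d n : ℕ) (hn : n < d + 1) (s : ℝ) (hs : s * s = 1) :
    H0 F (near (Dk d n hn s)) ∧ H1 F (near (Dk d n hn s)) ∧ H2 F (near (Dk d n hn s)) := by
  let e : EuclideanSpace ℝ (Fin (d + 1)) := EuclideanSpace.single ⟨n, hn⟩ s
  let v : unitInterval × EuclideanSpace ℝ (Fin (d + 1)) → EuclideanSpace ℝ (Fin (d + 1)) :=
    fun p => (1 - (p.1 : ℝ)) • p.2 + (p.1 : ℝ) • e
  have hs1 : |s| = 1 := by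
    have h := abs_mul_abs_self s
    rw [hs] at h
    have h2 := abs_nonneg s
    nlinarith
  have he : ‖e‖ = 1 := by simp [e, hs1]
  have hen : e ⟨n, hn⟩ = s := by simp [e]
  have hej : ∀ j : Fin (d + 1), n + 1 ≤ (j : ℕ) → e j = 0 := by
    intro j hj
    have : j ≠ ⟨n, hn⟩ := by
      rintro rfl
      simp at hj
    simp [e, this]
  have hvn : ∀ t : unitInterval, ∀ x, v (t, x) ⟨n, hn⟩ =
      (1 - (t : ℝ)) * x ⟨n, hn⟩ + (t : ℝ) * s := by
    intro t x
    simp [v, hen]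
  have hv0 : ∀ t : unitInterval, ∀ a ∈ Dk d n hn s, v (t, a) ≠ 0 := by
    intro t a ha h0
    have h1 : v (t, a) ⟨n, hn⟩ = 0 := by rw [h0]; rfl
    rw [hvn] at h1
    have h2 : s * ((1 - (t : ℝ)) * a ⟨n, hn⟩ + (t : ℝ) * s) = 0 := by rw [h1]; ring
    have h3 : (1 - (t : ℝ)) * (s * a ⟨n, hn⟩) + (t : ℝ) = 0 := by
      linear_combination h2 + (-(t : ℝ)) * hs
    have h4 : 0 ≤ (1 - (t : ℝ)) * (s * a ⟨n, hn⟩) :=
      mul_nonneg (by linarith [t.2.2]) ha.2
    have h5 : (t : ℝ) = 0 := by linarith [t.2.1]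
    have h6 : v (t, a) = a := by simp [v, h5]
    rw [h6] at h0
    have h7 := ha.1.1
    rw [h0] at h7
    simp at h7
  refine H0_contract (isCompact_Dk d n hn s) (fun p => ‖v p‖⁻¹ • v p) (b := e) ?_ ?_ ?_ ?_ ?_
  · intro t a ha
    have hvc : ContinuousAt v (t, a) := by
      apply Continuous.continuousAt
      fun_prop
    exact (hvc.norm.inv₀ (norm_ne_zero_iff.2 (hv0 t a ha))).smul hvc
  · intro t a ha
    have hpos : 0 < ‖v (t, a)‖ := norm_pos_iff.2 (hv0 t a ha)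
    refine ⟨⟨?_, ?_⟩, ?_⟩
    · rw [norm_smul, norm_inv, norm_norm]
      field_simp
    · intro j hj
      have h1 : a j = 0 := ha.1.2 j hj
      have h2 : e j = 0 := hej j hj
      simp [v, h1, h2]
    · have h1 : (‖v (t, a)‖⁻¹ • v (t, a)) ⟨n, hn⟩ = ‖v (t, a)‖⁻¹ * v (t, a) ⟨n, hn⟩ := rfl
      rw [h1, hvn]
      have h2 : s * (‖v (t, a)‖⁻¹ * ((1 - (t : ℝ)) * a ⟨n, hn⟩ + (t : ℝ) * s)) =
          ‖v (t, a)‖⁻¹ * ((1 - (t : ℝ)) * (s * a ⟨n, hn⟩) + (t : ℝ)) := by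
        linear_combination (‖v (t, a)‖⁻¹ * (t : ℝ)) * hs
      rw [h2]
      have h4 : 0 ≤ (1 - (t : ℝ)) * (s * a ⟨n, hn⟩) :=
        mul_nonneg (by linarith [t.2.2]) ha.2
      exact mul_nonneg (by positivity) (by linarith [t.2.1])
  · intro a ha
    have h1 : v (0, a) = a := by simp [v]
    rw [h1, ha.1.1]
    simp
  · intro a ha
    have h1 : v (1, a) = e := by simp [v]
    rw [h1, he]
    simp
  · refine ⟨⟨he, hej⟩, ?_⟩
    rw [hen, hs]
    exact zero_le_one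

lemma near_Sk_succ (d n : ℕ) (hn : n < d + 1) :
    near (Sk d (n + 1)) = near (Dk d n hn 1) ⊔ near (Dk d n hn (-1)) := by
  rw [Sk_succ d n hn, near_union]

lemma near_Sk (d n : ℕ) (hn : n < d + 1) :
    near (Sk d n) = near (Dk d n hn 1) ⊓ near (Dk d n hn (-1)) := by
  rw [← Dk_inter d n hn, near_inter (isCompact_Dk _ _ _ _) (isClosed_Dk _ _ _ _)]

lemma Sk_zero (d : ℕ) : Sk d 0 = ∅ := by
  ext x
  simp only [Sk, mem_ofPred_eq, mem_empty_iff_false, iff_false, not_and]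
  intro h1 h2
  have : x = 0 := by
    ext j
    exact h2 j (Nat.zero_le _)
  rw [this] at h1
  simp at h1

lemma H0_Sk (d n : ℕ) (hn : n ≤ d + 1) (h1 : n ≠ 1) : H0 F (near (Sk d n)) := by
  rcases n with _ | n
  · rw [Sk_zero, near_empty]; exact H0_bot F
  rcases n with _ | n
  · exact absurd rfl h1
  have hn' : n + 1 < d + 1 := by omega
  rw [near_Sk_succ d (n + 1) hn']
  refine mv_e F (H_Dk d (n + 1) hn' 1 (by norm_num)).1 (H_Dk d (n + 1) hn' (-1) (by norm_num)).1 ?_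
  rw [← near_Sk d (n + 1) hn']
  refine near_freq' ⟨EuclideanSpace.single 0 1, by simp, ?_⟩
  intro j hj
  have : j ≠ 0 := by
    rintro rfl
    simp at hj
  simp [this]

lemma H1_Sk (d n : ℕ) (hn : n ≤ d + 1) (h1 : n ≠ 2) : H1 F (near (Sk d n)) := by
  rcases n with _ | n
  · rw [Sk_zero, near_empty]; exact H1_bot F
  have hn' : n < d + 1 := by omega
  rw [near_Sk_succ d n hn']
  refine mv_c F (near_low _) (near_low _) (H_Dk d n hn' 1 (by norm_num)).2.1
    (H_Dk d n hn' (-1) (by norm_num)).2.1 ?_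
  rw [← near_Sk d n hn']
  exact H0_Sk d n (by omega) (by omega)

lemma H2_Sk (d n : ℕ) (hn : n ≤ d + 1) (h1 : n ≠ 3) : H2 F (near (Sk d n)) := by
  rcases n with _ | n
  · rw [Sk_zero, near_empty]; exact H2_bot F
  have hn' : n < d + 1 := by omega
  rw [near_Sk_succ d n hn']
  refine mv_a F (near_low _) (near_low _) (H_Dk d n hn' 1 (by norm_num)).2.2
    (H_Dk d n hn' (-1) (by norm_num)).2.2 ?_
  rw [← near_Sk d n hn']
  exact H1_Sk d n (by omega) (by omega)

lemma not_H0_Sk (d : ℕ) [Nontrivial F] : ¬ H0 F (near (Sk d 1)) := by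
  classical
  intro h
  let e : ℝ → EuclideanSpace ℝ (Fin (d + 1)) := fun s => EuclideanSpace.single 0 s
  have hmem : ∀ s : ℝ, |s| = 1 → e s ∈ Sk d 1 := by
    intro s hs
    refine ⟨by simp [e, hs], fun j hj => ?_⟩
    have : j ≠ 0 := by
      rintro rfl
      simp at hj
    simp [e, this]
  obtain ⟨c, hc⟩ := h (fun x => if 0 < x 0 then 1 else 0) (by
    refine ⟨1, one_pos, fun a ha S hS hn => ?_⟩
    have h0 : |a 0| = 1 := by
      have h1 := ha.1
      rw [EuclideanSpace.norm_eq] at h1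
      have h2 : ∑ i : Fin (d + 1), ‖a i‖ ^ 2 = ‖a 0‖ ^ 2 := by
        rw [Finset.sum_eq_single 0]
        · intro b _ hb
          have : a b = 0 := ha.2 b (Nat.one_le_iff_ne_zero.2 (fun h => hb (Fin.ext h)))
          rw [this]; simp
        · intro h; exact absurd (Finset.mem_univ _) h
      rw [h2, Real.sqrt_sq (norm_nonneg _)] at h1
      simpa using h1
    have hclose : ∀ x ∈ S, |x 0 - a 0| < 1 := by
      intro x hx
      have h1 : ‖x - a‖ < 1 := by
        have := mem_ball.1 (hS hx)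
        rwa [dist_eq_norm] at this
      have h2 : ‖(x - a) 0‖ ≤ ‖x - a‖ := PiLp.norm_apply_le (x - a) 0
      have h3 : (x - a) 0 = x 0 - a 0 := rfl
      rw [h3, Real.norm_eq_abs] at h2
      linarith
    intro x hx y hy
    have hx' := abs_lt.1 (hclose x hx)
    have hy' := abs_lt.1 (hclose y hy)
    rcases (abs_eq (zero_le_one)).1 h0 with h1 | h1
    · have h2 : 0 < x 0 := by linarith
      have h3 : 0 < y 0 := by linarith
      simp [h2, h3]
    · have h2 : ¬ 0 < x 0 := by linarith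
      have h3 : ¬ 0 < y 0 := by linarith
      simp [h2, h3])
  have k1 : (1 : F) = c := by
    obtain ⟨S, hS, hS'⟩ := ((near_freq (hmem 1 (by simp))).and_eventually hc).exists
    have := hS' _ hS
    simpa [e] using this
  have k2 : (0 : F) = c := by
    obtain ⟨S, hS, hS'⟩ := ((near_freq (hmem (-1) (by simp))).and_eventually hc).exists
    have := hS' _ hS
    have h1 : ¬ (0 : ℝ) < (e (-1)) 0 := by simp [e]
    simpa [h1] using this
  exact one_ne_zero (k1.trans k2.symm)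

lemma not_H1_Sk (d : ℕ) (hd : 1 ≤ d) [Nontrivial F] : ¬ H1 F (near (Sk d 2)) := by
  intro h
  have hn' : 1 < d + 1 := by omega
  refine not_H0_Sk (F := F) d ?_
  rw [near_Sk d 1 hn']
  refine mv_d F (near_low _) (near_low _) (H_Dk d 1 hn' 1 (by norm_num)).1
    (H_Dk d 1 hn' (-1) (by norm_num)).1 ?_
  rw [← near_Sk_succ d 1 hn']
  exact h

lemma not_H2_Sk (d : ℕ) (hd : 2 ≤ d) [Nontrivial F] : ¬ H2 F (near (Sk d 3)) := by
  intro h
  have hn' : 2 < d + 1 := by omega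
  refine not_H1_Sk (F := F) d (by omega) ?_
  rw [near_Sk d 2 hn']
  refine mv_b F (near_low _) (near_low _) (H_Dk d 2 hn' 1 (by norm_num)).2.1
    (H_Dk d 2 hn' (-1) (by norm_num)).2.1 ?_
  rw [← near_Sk_succ d 2 hn']
  exact h

/-- full spheres -/
lemma H2_sphere (d : ℕ) (hd : d ≠ 2) :
    H2 F (near {x : EuclideanSpace ℝ (Fin (d + 1)) | ‖x‖ = 1}) := by
  have : {x : EuclideanSpace ℝ (Fin (d + 1)) | ‖x‖ = 1} = Sk d (d + 1) := by
    ext x
    simp only [Sk, mem_ofPred_eq]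
    exact ⟨fun h => ⟨h, fun j hj => absurd j.2 (by omega)⟩, fun h => h.1⟩
  rw [this]
  exact H2_Sk d (d + 1) le_rfl (by omega)

lemma not_H2_sphere (d : ℕ) (hd : d = 2) [Nontrivial F] :
    ¬ H2 F (near {x : EuclideanSpace ℝ (Fin (d + 1)) | ‖x‖ = 1}) := by
  subst hd
  have : {x : EuclideanSpace ℝ (Fin (2 + 1)) | ‖x‖ = 1} = Sk 2 3 := by
    ext x
    simp only [Sk, mem_ofPred_eq]
    exact ⟨fun h => ⟨h, fun j hj => absurd j.2 (by omega)⟩, fun h => h.1⟩
  rw [this]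
  exact not_H2_Sk 2 le_rfl

end Pool.Agent.Helper95.Wedge
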