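import Pool.Agent.Helper95.Wedge.Qposet

set_option autoImplicit false
set_option linter.unusedVariables false
set_option linter.unusedSectionVars false

open Filter Set

namespace Pool.Agent.Helper95.Wedge

/-- permutational wreath product of `T` by `A` acting on `X` -/
@[ext] structure PP (T A X : Type*) where
  c : X → T
  a : A

namespace PP

variable {T A X : Type*} [Group T] [Group A] [MulAction A X]

instance : Mul (PP T A X) := ⟨fun p q => ⟨fun x => p.c x * q.c (p.a⁻¹ • x), p.a * q.a⟩⟩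
instance : One (PP T A X) := ⟨⟨fun _ => 1, 1⟩⟩
instance : _root_.Inv (PP T A X) := ⟨fun p => ⟨fun x => (p.c (p.a • x))⁻¹, p.a⁻¹⟩⟩

@[simp] lemma mul_c (p q : PP T A X) (x : X) : (p * q).c x = p.c x * q.c (p.a⁻¹ • x) := rfl
@[simp] lemma mul_a (p q : PP T A X) : (p * q).a = p.a * q.a := rfl
@[simp] lemma one_c (x : X) : (1 : PP T A X).c x = 1 := rfl
@[simp] lemma one_a : (1 : PP T A X).a = 1 := rfl
@[simp] lemma inv_c (p : PP T A X) (x : X) : (p⁻¹).c x = (p.c (p.a • x))⁻¹ := rfl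
@[simp] lemma inv_a (p : PP T A X) : (p⁻¹).a = p.a⁻¹ := rfl

instance : Group (PP T A X) where
  mul_assoc p q r := by
    ext x
    · simp [mul_assoc, mul_smul]
    · simp [mul_assoc]
  one_mul p := by ext x <;> simp
  mul_one p := by ext x <;> simp
  inv_mul_cancel p := by
    ext x
    · simp
    · simp

instance [Finite T] [Finite A] [Finite X] : Finite (PP T A X) :=
  Finite.of_injective (fun p : PP T A X => (p.c, p.a)) (by
    rintro ⟨c, a⟩ ⟨c', a'⟩ h
    simp only [Prod.mk.injEq] at h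
    obtain ⟨rfl, rfl⟩ := h
    rfl)

/-- constants -/
def ι (d : T) : PP T A X := ⟨fun _ => d, 1⟩

@[simp] lemma ι_c (d : T) (x : X) : (ι d : PP T A X).c x = d := rfl
@[simp] lemma ι_a (d : T) : (ι d : PP T A X).a = 1 := rfl

lemma ι_mul (d e : T) : (ι (d * e) : PP T A X) = ι d * ι e := by ext x <;> simp
lemma ι_inv (d : T) : (ι d⁻¹ : PP T A X) = (ι d)⁻¹ := by ext x <;> simp
lemma ι_one : (ι 1 : PP T A X) = 1 := by ext x <;> simp

/-- the complement -/
def β (b : A) : PP T A X := ⟨fun _ => 1, b⟩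

@[simp] lemma β_c (d : A) (x : X) : (β d : PP T A X).c x = 1 := rfl
@[simp] lemma β_a (d : A) : (β d : PP T A X).a = d := rfl

/-- base group elements -/
def γ (c : X → T) : PP T A X := ⟨c, 1⟩

@[simp] lemma γ_c (c : X → T) (x : X) : (γ c : PP T A X).c x = c x := rfl
@[simp] lemma γ_a (c : X → T) : (γ c : PP T A X).a = 1 := rfl

end PP

open PP

section

variable {T A X : Type*} [Group T] [Group A] [MulAction A X]

/-- twisted functions -/
def TW (T : Type*) (X : Type*) [Group T] [MulAction A X] (B₀ : Subgroup A) :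
    Subgroup (PP T A X → T) where
  carrier := {f | (∀ p d, f (p * ι d) = d⁻¹ * f p * d) ∧ ∀ p, ∀ b ∈ B₀, f (p * β b) = f p}
  mul_mem' := by
    rintro f g ⟨h1, h2⟩ ⟨h3, h4⟩
    refine ⟨fun p d => ?_, fun p b hb => ?_⟩
    · simp only [Pi.mul_apply, h1, h3]; group
    · simp only [Pi.mul_apply, h2 p b hb, h4 p b hb]
  one_mem' := by
    refine ⟨fun p d => ?_, fun p b hb => ?_⟩ <;> simp
  inv_mem' := by
    rintro f ⟨h1, h2⟩
    refine ⟨fun p d => ?_, fun p b hb => ?_⟩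
    · simp only [Pi.inv_apply, h1]; group
    · simp only [Pi.inv_apply, h2 p b hb]

variable {B₀ : Subgroup A}

lemma TW_ι {f : PP T A X → T} (hf : f ∈ TW T X B₀) (p : PP T A X) (d : T) :
    f (p * ι d) = d⁻¹ * f p * d := hf.1 p d

lemma TW_β {f : PP T A X → T} (hf : f ∈ TW T X B₀) (p : PP T A X) {b : A} (hb : b ∈ B₀) :
    f (p * β b) = f p := hf.2 p b hb

/-- left invariance -/
def LInv {P T : Type*} [Group P] [Group T] (Q : Subgroup (P → T)) : Prop :=
  ∀ f ∈ Q, ∀ p : P, (fun x => f (p * x)) ∈ Q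

/-- right stabiliser -/
def Nn {P T : Type*} [Group P] [Group T] (Q : Subgroup (P → T)) : Subgroup P where
  carrier := {n | ∀ f ∈ Q, ∀ p, f (p * n) = f p}
  mul_mem' := by
    intro m n hm hn f hf p
    rw [← mul_assoc, hn f hf, hm f hf]
  one_mem' := by intro f hf p; rw [mul_one]
  inv_mem' := by
    intro n hn f hf p
    have := hn f hf (p * n⁻¹)
    rw [inv_mul_cancel_right] at this
    exact this.symm

lemma mem_Nn_of {P T : Type*} [Group P] [Group T] {Q : Subgroup (P → T)} (hQ : LInv Q) {n : P}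
    (h : ∀ f ∈ Q, f n = f 1) : n ∈ Nn Q := by
  intro f hf p
  have := h _ (hQ f hf p)
  simpa using this

/-- invariant twisted functions -/
def QN (B₀ : Subgroup A) (N : Set (PP T A X)) : Subgroup (PP T A X → T) where
  carrier := {f | f ∈ TW T X B₀ ∧ ∀ n ∈ N, ∀ p, f (p * n) = f p}
  mul_mem' := by
    rintro f g ⟨h1, h2⟩ ⟨h3, h4⟩
    refine ⟨mul_mem h1 h3, fun n hn p => ?_⟩
    simp only [Pi.mul_apply, h2 n hn p, h4 n hn p]
  one_mem' := ⟨one_mem _, fun n hn p => rfl⟩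
  inv_mem' := by
    rintro f ⟨h1, h2⟩
    refine ⟨inv_mem h1, fun n hn p => ?_⟩
    simp only [Pi.inv_apply, h2 n hn p]

lemma LInv_QN (N : Set (PP T A X)) : LInv (QN B₀ N) := by
  rintro f ⟨⟨h1, h2⟩, h3⟩ p
  refine ⟨⟨fun q d => ?_, fun q b hb => ?_⟩, fun n hn q => ?_⟩
  · show f (p * (q * ι d)) = _
    rw [← mul_assoc, h1]
  · show f (p * (q * β b)) = _
    rw [← mul_assoc, h2 _ b hb]
  · show f (p * (q * n)) = _
    rw [← mul_assoc, h3 n hn]

lemma LInv_TW : LInv (TW T X B₀) := by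
  rintro f ⟨h1, h2⟩ p
  refine ⟨fun q d => ?_, fun q b hb => ?_⟩
  · show f (p * (q * ι d)) = _
    rw [← mul_assoc, h1]
  · show f (p * (q * β b)) = _
    rw [← mul_assoc, h2 _ b hb]

lemma QN_le (N : Set (PP T A X)) : QN B₀ N ≤ TW T X B₀ := fun f hf => hf.1

lemma sub_Nn_QN (N : Set (PP T A X)) : N ⊆ Nn (QN B₀ N) := fun n hn f hf p => hf.2 n hn p

lemma le_QN_Nn {Q : Subgroup (PP T A X → T)} (hQ : Q ≤ TW T X B₀) :
    Q ≤ QN B₀ (Nn Q : Set (PP T A X)) := fun f hf => ⟨hQ hf, fun n hn p => hn f hf p⟩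

lemma Nn_anti {P T : Type*} [Group P] [Group T] {Q Q' : Subgroup (P → T)} (h : Q ≤ Q') :
    Nn Q' ≤ Nn Q := fun n hn f hf => hn f (h hf)

lemma QN_anti {N N' : Set (PP T A X)} (h : N ⊆ N') : QN B₀ N' ≤ QN B₀ N :=
  fun f hf => ⟨hf.1, fun n hn => hf.2 n (h hn)⟩

lemma Nn_QN_Nn {Q : Subgroup (PP T A X → T)} (hQ : Q ≤ TW T X B₀) :
    Nn (QN B₀ (Nn Q : Set (PP T A X))) = Nn Q :=
  le_antisymm (Nn_anti (le_QN_Nn hQ)) (fun n hn => sub_Nn_QN _ hn)

lemma β_mem_Nn {Q : Subgroup (PP T A X → T)} (hQ : Q ≤ TW T X B₀) {b : A} (hb : b ∈ B₀) :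
    (β b : PP T A X) ∈ Nn Q := fun f hf p => TW_β (hQ hf) p hb

/-- `N` is normalised by constants -/
lemma Nn_conj {Q : Subgroup (PP T A X → T)} (hQ : Q ≤ TW T X B₀) {n : PP T A X} (hn : n ∈ Nn Q)
    (d : T) : ι d * n * (ι d)⁻¹ ∈ Nn Q := by
  intro f hf p
  have h1 : f (p * (ι d * n * (ι d)⁻¹)) = d * f (p * ι d * n) * d⁻¹ := by
    have := TW_ι (hQ hf) (p * ι d * n) d⁻¹
    rw [← ι_inv] 
    rw [← mul_assoc, ← mul_assoc, this, inv_inv]
  rw [h1, hn f hf, TW_ι (hQ hf)]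
  group

section Simple

variable [IsSimpleGroup T]

/-- a nontrivial subgroup stable under conjugation is everything -/
lemma eq_top_of_conj {E : Subgroup T} (h : ∀ s : T, ∀ x ∈ E, s * x * s⁻¹ ∈ E) {x : T} (hx : x ∈ E)
    (hx1 : x ≠ 1) : E = ⊤ := by
  have hn : E.Normal := ⟨fun x hx s => h s x hx⟩
  rcases hn.eq_bot_or_eq_top with h1 | h1
  · rw [h1] at hx
    exact absurd (Subgroup.mem_bot.1 hx) hx1
  · exact h1

variable (hT : ∃ s t : T, s * t ≠ t * s)

include hT in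
lemma center_trivial {z : T} (hz : ∀ t, z * t = t * z) : z = 1 := by
  by_contra hne
  obtain ⟨s, t, hst⟩ := hT
  have : Subgroup.center T = ⊤ := by
    refine eq_top_of_conj (E := Subgroup.center T) ?_ (x := z) ?_ hne
    · intro s x hx
      have : s * x * s⁻¹ = x := by
        rw [Subgroup.mem_center_iff.1 hx s]; group
      rwa [this]
    · exact Subgroup.mem_center_iff.2 (fun g => (hz g).symm)
  have hs : s ∈ Subgroup.center T := by rw [this]; trivial
  exact hst (Subgroup.mem_center_iff.1 hs t).symm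

/-- evaluation is onto -/
lemma ev_onto {Q : Subgroup (PP T A X → T)} (hQ : Q ≤ TW T X B₀) (hL : LInv Q) (hne : Q ≠ ⊥)
    (p : PP T A X) (t : T) : ∃ f ∈ Q, f p = t := by
  let E : Subgroup T := Q.map (Pi.evalMonoidHom (fun _ : PP T A X => T) 1)
  have hE : ∀ t, t ∈ E ↔ ∃ f ∈ Q, f 1 = t := fun t => Iff.rfl
  obtain ⟨f, hf, hf1⟩ := (Subgroup.bot_or_exists_ne_one Q).resolve_left hne
  obtain ⟨q, hq⟩ : ∃ q, f q ≠ 1 := by
    by_contra hcon
    push Not at hcon
    exact hf1 (funext hcon)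
  have hEtop : E = ⊤ := by
    refine eq_top_of_conj (E := E) ?_ (x := f q) ?_ hq
    · rintro s x ⟨g, hg, rfl⟩
      refine ⟨_, hL g hg (ι s⁻¹), ?_⟩
      show g (ι s⁻¹ * 1) = s * g 1 * s⁻¹
      have := TW_ι (hQ hg) 1 s⁻¹
      rw [one_mul, inv_inv] at this
      rw [mul_one, this]
    · exact ⟨_, hL f hf q, by simp⟩
  have ht : t ∈ E := by rw [hEtop]; trivial
  obtain ⟨g, hg, hgt⟩ := ht
  refine ⟨_, hL g hg p⁻¹, ?_⟩
  simpa using hgt

include hT in
lemma ι_mem_Nn {Q : Subgroup (PP T A X → T)} (hQ : Q ≤ TW T X B₀) (hL : LInv Q) (hne : Q ≠ ⊥)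
    {d : T} (hd : (ι d : PP T A X) ∈ Nn Q) : d = 1 := by
  apply center_trivial hT
  intro t
  obtain ⟨f, hf, rfl⟩ := ev_onto hQ hL hne 1 t
  have h1 := hd f hf 1
  rw [TW_ι (hQ hf)] at h1
  calc d * f 1 = d * (d⁻¹ * f 1 * d) := by rw [h1]
    _ = f 1 * d := by group

/-- if `f k = 1 → f 1 = 1` on `Q` then a new element of `Nn Q` appears -/
lemma exists_new [Finite T] [Nonempty X] (hT : ∃ s t : T, s * t ≠ t * s)
    {Q : Subgroup (PP T A X → T)} (hQ : Q ≤ TW T X B₀) (hL : LInv Q)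
    (hne : Q ≠ ⊥) (k : PP T A X) (hk : ∀ f ∈ Q, f k = 1 → f 1 = 1)
    (hN : ∀ n ∈ Nn Q, ∃ b ∈ B₀, n = β b) : ∃ d, ∃ b ∈ B₀, k = ι d * β b := by
  -- `f 1` is a function of `f k`
  have hfun : ∀ f ∈ Q, ∀ g ∈ Q, f k = g k → f 1 = g 1 := by
    intro f hf g hg h
    have := hk (f * g⁻¹) (mul_mem hf (inv_mem hg)) (by simp [h])
    have h2 : f 1 * (g 1)⁻¹ = 1 := this
    exact mul_inv_eq_one.1 h2
  choose F hF hFk using fun t : T => ev_onto hQ hL hne k t
  let α : T → T := fun t => F t 1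
  have hα : ∀ f ∈ Q, f 1 = α (f k) := fun f hf => hfun f hf _ (hF _) (hFk _).symm
  have hαmul : ∀ s t, α (s * t) = α s * α t := by
    intro s t
    have := hα (F s * F t) (mul_mem (hF s) (hF t))
    simp only [Pi.mul_apply, hFk] at this
    exact this.symm
  have hαs : Function.Surjective α := by
    intro t
    obtain ⟨f, hf, rfl⟩ := ev_onto hQ hL hne 1 t
    exact ⟨f k, (hα f hf).symm⟩
  have hαi : Function.Injective α := Finite.injective_iff_surjective.2 hαs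
  have hαinv : ∀ t, α t⁻¹ = (α t)⁻¹ := by
    intro t
    have h1 : α 1 = 1 := by
      have := hαmul 1 1
      rw [mul_one] at this
      exact left_eq_mul.1 this
    have := hαmul t t⁻¹
    rw [mul_inv_cancel, h1] at this
    exact eq_inv_of_mul_eq_one_right this.symm
  have key : ∀ e : T, ∀ f ∈ Q, f (ι (α e)⁻¹ * k) = f (k * ι e⁻¹) := by
    intro e f hf
    have h1 := hα _ (hL f hf (ι (α e)⁻¹))
    have h2 : f (ι (α e)⁻¹ * 1) = α e * f 1 * (α e)⁻¹ := by
      have := TW_ι (hQ hf) 1 (α e)⁻¹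
      rw [one_mul, inv_inv] at this
      rw [mul_one, this]
    rw [h2, hα f hf, ← hαinv, ← hαmul, ← hαmul] at h1
    have h3 := hαi h1
    have h4 := TW_ι (hQ hf) k e⁻¹
    rw [inv_inv] at h4
    rw [h4, ← hαinv]
    exact h3.symm
  have hn : ∀ e : T, k⁻¹ * ι (α e) * k * ι e⁻¹ ∈ Nn Q := by
    intro e f hf p
    have := key e _ (hL f hf (p * (ι (α e)⁻¹ * k)⁻¹))
    have e1 : p * (ι (α e)⁻¹ * k)⁻¹ * (ι (α e)⁻¹ * k) = p := by group
    have e2 : p * (ι (α e)⁻¹ * k)⁻¹ * (k * ι e⁻¹) = p * (k⁻¹ * ι (α e) * k * ι e⁻¹) := by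
      rw [ι_inv]; group
    simp only [e1, e2] at this
    exact this.symm
  have hcomm : ∀ e : T, ∀ x, α e * k.c x = k.c x * e := by
    intro e x
    obtain ⟨b, hb, hbn⟩ := hN _ (hn e)
    have hb1 : b = 1 := by
      have := congrArg PP.a hbn
      simp only [mul_a, inv_a, ι_a, β_a] at this
      rw [← this]; group
    have h1 : k⁻¹ * ι (α e) * k * ι e⁻¹ = 1 := by
      rw [hbn, hb1]; ext y <;> simp
    have h2 : ι (α e) * k = k * ι e := by
      have h3 : k * (k⁻¹ * ι (α e) * k * ι e⁻¹) * ι e = k * 1 * ι e := by rw [h1]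
      rw [ι_inv] at h3
      calc ι (α e) * k = k * (k⁻¹ * ι (α e) * k * (ι e)⁻¹) * ι e := by group
        _ = k * 1 * ι e := h3
        _ = k * ι e := by group
    have h4 := congrArg (fun p => PP.c p x) h2
    simpa using h4
  obtain ⟨x₀⟩ := (inferInstance : Nonempty X)
  have hconst : ∀ x, k.c x = k.c x₀ := by
    intro x
    have : (k.c x)⁻¹ * k.c x₀ = 1 := by
      apply center_trivial hT
      intro t
      have h1 := hcomm t x
      have h2 := hcomm t x₀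
      have h3 : α t = k.c x * t * (k.c x)⁻¹ := by rw [← h1]; group
      have h4 : α t = k.c x₀ * t * (k.c x₀)⁻¹ := by rw [← h2]; group
      rw [h3] at h4
      calc (k.c x)⁻¹ * k.c x₀ * t = (k.c x)⁻¹ * (k.c x₀ * t * (k.c x₀)⁻¹) * k.c x₀ := by group
        _ = (k.c x)⁻¹ * (k.c x * t * (k.c x)⁻¹) * k.c x₀ := by rw [h4]
        _ = t * ((k.c x)⁻¹ * k.c x₀) := by group
    exact (inv_mul_eq_one.1 this)
  have hk' : k = ι (k.c x₀) * β k.a := by
    ext x
    · simp [hconst x]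
    · simp
  have hβ : (β k.a : PP T A X) ∈ Nn Q := by
    apply mem_Nn_of hL
    intro f hf
    have h1 := hα _ (hL f hf (ι (k.c x₀))⁻¹)
    have h2 : (ι (k.c x₀))⁻¹ * k = β k.a := by
      conv_lhs => rw [hk']
      group
      simp
    simp only [h2, mul_one] at h1
    have h3 := TW_ι (hQ hf) 1 (k.c x₀)⁻¹
    rw [one_mul, inv_inv, ι_inv] at h3
    rw [h3] at h1
    have h4 := hcomm (f (β k.a)) x₀
    have h5 : k.c x₀ * f 1 = k.c x₀ * f (β k.a) := by
      rw [← h4, ← h1]; group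
    exact (mul_left_cancel h5).symm
  obtain ⟨b, hb, hbn⟩ := hN _ hβ
  refine ⟨k.c x₀, b, hb, ?_⟩
  rw [← hbn]
  exact hk'

/-- if `Nn Q` is minimal, points outside `H` are separated from `1` -/
lemma sep_finset [Finite T] [Nonempty X] (hT : ∃ s t : T, s * t ≠ t * s)
    {Q : Subgroup (PP T A X → T)} (hQ : Q ≤ TW T X B₀) (hL : LInv Q)
    (hne : Q ≠ ⊥) (hN : ∀ n ∈ Nn Q, ∃ b ∈ B₀, n = β b) (Y : Finset (PP T A X))
    (hY : ∀ y ∈ Y, ¬ ∃ d, ∃ b ∈ B₀, y = ι d * β b) (t : T) :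
    ∃ f ∈ Q, f 1 = t ∧ ∀ y ∈ Y, f y = 1 := by
  classical
  induction Y using Finset.induction_on generalizing t with
  | empty =>
    obtain ⟨f, hf, hft⟩ := ev_onto hQ hL hne 1 t
    exact ⟨f, hf, hft, by simp⟩
  | insert k Y hkY ih =>
    have ih' := ih (fun y hy => hY y (Finset.mem_insert_of_mem hy))
    let E : Subgroup T :=
      { carrier := {t | ∃ f ∈ Q, f 1 = t ∧ ∀ y ∈ insert k Y, f y = 1}
        mul_mem' := by
          rintro a b ⟨f, hf, rfl, h1⟩ ⟨g, hg, rfl, h2⟩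
          exact ⟨f * g, mul_mem hf hg, rfl, fun y hy => by simp [h1 y hy, h2 y hy]⟩
        one_mem' := ⟨1, one_mem _, rfl, fun y hy => rfl⟩
        inv_mem' := by
          rintro a ⟨f, hf, rfl, h1⟩
          exact ⟨f⁻¹, inv_mem hf, rfl, fun y hy => by simp [h1 y hy]⟩ }
    -- an element separating 1 from k
    have h1 : ∀ t, ∃ f ∈ Q, f 1 = t ∧ f k = 1 := by
      have : ∃ f ∈ Q, f k = 1 ∧ f 1 ≠ 1 := by
        by_contra hcon
        push Not at hcon
        exact hY k (Finset.mem_insert_self _ _) (exists_new hT hQ hL hne k hcon hN)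
      obtain ⟨f, hf, hfk, hf1⟩ := this
      let E' : Subgroup T :=
        { carrier := {t | ∃ f ∈ Q, f 1 = t ∧ f k = 1}
          mul_mem' := by
            rintro a b ⟨f, hf, rfl, h1⟩ ⟨g, hg, rfl, h2⟩
            exact ⟨f * g, mul_mem hf hg, rfl, by simp [h1, h2]⟩
          one_mem' := ⟨1, one_mem _, rfl, rfl⟩
          inv_mem' := by
            rintro a ⟨f, hf, rfl, h1⟩
            exact ⟨f⁻¹, inv_mem hf, rfl, by simp [h1]⟩ }
      have hE' : E' = ⊤ := by
        refine eq_top_of_conj (E := E') ?_ (x := f 1) ⟨f, hf, rfl, hfk⟩ hf1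
        rintro s x ⟨g, hg, rfl, hgk⟩
        obtain ⟨u, hu, rfl⟩ := ev_onto hQ hL hne 1 s
        exact ⟨u * g * u⁻¹, mul_mem (mul_mem hu hg) (inv_mem hu), rfl, by simp [hgk]⟩
      intro t
      have : t ∈ E' := by rw [hE']; trivial
      exact this
    obtain ⟨s, u, hsu⟩ := hT
    obtain ⟨f, hf, hf1, hfY⟩ := ih' s
    obtain ⟨g, hg, hg1, hgk⟩ := h1 u
    have hE : E = ⊤ := by
      refine eq_top_of_conj (E := E) ?_ (x := s * u * s⁻¹ * u⁻¹) ?_ ?_
      · rintro v x ⟨g, hg, rfl, hgk⟩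
        obtain ⟨w, hw, rfl⟩ := ev_onto hQ hL hne 1 v
        exact ⟨w * g * w⁻¹, mul_mem (mul_mem hw hg) (inv_mem hw), rfl,
          fun y hy => by simp [hgk y hy]⟩
      · refine ⟨f * g * f⁻¹ * g⁻¹, mul_mem (mul_mem (mul_mem hf hg) (inv_mem hf)) (inv_mem hg), ?_,
          fun y hy => ?_⟩
        · simp [hf1, hg1]
        · rcases Finset.mem_insert.1 hy with rfl | hy
          · simp [hgk]
          · simp [hfY y hy]
      · intro h
        apply hsu
        have : s * u * (u * s)⁻¹ = 1 := by rw [mul_inv_rev]; simpa [mul_assoc] using h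
        exact mul_inv_eq_one.1 this
    have : t ∈ E := by rw [hE]; trivial
    exact this

/-- (G1): if `Nn Q` is minimal then `Q` is everything -/
lemma eq_TW [Finite T] [Finite A] [Finite X] [Nonempty X] (hT : ∃ s t : T, s * t ≠ t * s)
    {Q : Subgroup (PP T A X → T)} (hQ : Q ≤ TW T X B₀) (hL : LInv Q)
    (hne : Q ≠ ⊥) (hN : ∀ n ∈ Nn Q, ∃ b ∈ B₀, n = β b) : Q = TW T X B₀ := by
  classical
  have := Fintype.ofFinite (PP T A X)
  have h1 : ∀ t, ∃ f ∈ Q, f 1 = t ∧ ∀ y, (¬ ∃ d, ∃ b ∈ B₀, y = ι d * β b) → f y = 1 := by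
    intro t
    obtain ⟨f, hf, hft, hfY⟩ := sep_finset hT hQ hL hne hN
      (Finset.univ.filter fun y => ¬ ∃ d, ∃ b ∈ B₀, y = ι d * β b) (by simp) t
    exact ⟨f, hf, hft, fun y hy => hfY y (by simpa using hy)⟩
  have h2 : ∀ p t, ∃ f ∈ Q, f p = t ∧ ∀ y, (¬ ∃ d, ∃ b ∈ B₀, y = p * (ι d * β b)) → f y = 1 := by
    intro p t
    obtain ⟨f, hf, hft, hfY⟩ := h1 t
    refine ⟨_, hL f hf p⁻¹, by simpa using hft, fun y hy => hfY _ ?_⟩
    rintro ⟨d, b, hb, h⟩
    exact hy ⟨d, b, hb, by rw [← h]; group⟩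
  refine le_antisymm hQ ?_
  have key : ∀ n : ℕ, ∀ f ∈ TW T X B₀, (Finset.univ.filter fun p => f p ≠ 1).card = n → f ∈ Q := by
    intro n
    induction n using Nat.strong_induction_on with
    | _ n ih =>
      intro f hf hfn
      by_cases hf1 : f = 1
      · rw [hf1]; exact one_mem _
      · obtain ⟨p, hp⟩ : ∃ p, f p ≠ 1 := by
          by_contra hcon
          push Not at hcon
          exact hf1 (funext hcon)
        obtain ⟨g, hg, hgp, hgY⟩ := h2 p (f p)
        have hgT := hQ hg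
        have heq : ∀ y, (∃ d, ∃ b ∈ B₀, y = p * (ι d * β b)) → f y = g y := by
          rintro y ⟨d, b, hb, rfl⟩
          rw [← mul_assoc, TW_β hf _ hb, TW_β hgT _ hb, TW_ι hf, TW_ι hgT, hgp]
        have h3 : f * g⁻¹ ∈ Q := by
          refine ih _ ?_ (f * g⁻¹) (mul_mem hf (inv_mem hgT)) rfl
          rw [← hfn]
          apply Finset.card_lt_card
          refine ⟨?_, ?_⟩
          · intro y hy
            simp only [Finset.mem_filter, Finset.mem_univ, true_and] at hy ⊢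
            intro h0
            apply hy
            by_cases hyp : ∃ d, ∃ b ∈ B₀, y = p * (ι d * β b)
            · simp [heq y hyp]
            · simp [hgY y hyp, h0]
          · intro hsub
            have hpm : p ∈ Finset.univ.filter fun p => f p ≠ 1 := by simpa using hp
            have := hsub hpm
            simp only [Finset.mem_filter, Finset.mem_univ, true_and] at this
            apply this
            simp [hgp]
        have : f = f * g⁻¹ * g := by group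
        rw [this]
        exact mul_mem h3 hg
  exact fun f hf => key _ f hf rfl

/-- supports of the base part -/
def Ssup (N : Subgroup (PP T A X)) : Set X := {x | ∃ c : X → T, γ c ∈ N ∧ c x ≠ 1}

/-- image in `A` -/
def Bim (N : Subgroup (PP T A X)) : Subgroup A where
  carrier := {a | ∃ c : X → T, (⟨c, a⟩ : PP T A X) ∈ N}
  mul_mem' := by
    rintro a b ⟨c, hc⟩ ⟨c', hc'⟩
    exact ⟨_, mul_mem hc hc'⟩
  one_mem' := ⟨_, one_mem N⟩
  inv_mem' := by
    rintro a ⟨c, hc⟩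
    exact ⟨_, inv_mem hc⟩

include hT in
lemma mem_Ssup {Q : Subgroup (PP T A X → T)} (hQ : Q ≤ TW T X B₀) {p : PP T A X}
    (hp : p ∈ Nn Q) {x : X} (hx : p.c x ≠ 1) : x ∈ Ssup (Nn Q) := by
  obtain ⟨d, hd⟩ : ∃ d, p.c x * d ≠ d * p.c x := by
    by_contra hcon
    push Not at hcon
    exact hx (center_trivial hT hcon)
  refine ⟨fun y => p.c y * d * (p.c y)⁻¹ * d⁻¹, ?_, ?_⟩
  · have h1 : p * (ι d * p⁻¹ * (ι d)⁻¹) ∈ Nn Q := mul_mem hp (Nn_conj hQ (inv_mem hp) d)
    have h2 : p * (ι d * p⁻¹ * (ι d)⁻¹) = γ (fun y => p.c y * d * (p.c y)⁻¹ * d⁻¹) := by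
      ext y
      · simp [mul_assoc]
      · simp
    rwa [h2] at h1
  · intro h
    apply hd
    have : p.c x * d * (d * p.c x)⁻¹ = 1 := by
      rw [mul_inv_rev]; simpa [mul_assoc] using h
    exact mul_inv_eq_one.1 this

lemma Inv_Ssup (N : Subgroup (PP T A X)) : Inv (Bim N) (Ssup N) := by
  rintro a ⟨c, hc⟩ x ⟨c', hc', hx⟩
  refine ⟨fun y => c y * c' (a⁻¹ • y) * (c y)⁻¹, ?_, ?_⟩
  · have h1 := mul_mem (mul_mem hc hc') (inv_mem hc)
    have h2 : (⟨c, a⟩ : PP T A X) * γ c' * (⟨c, a⟩ : PP T A X)⁻¹ =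
        γ (fun y => c y * c' (a⁻¹ • y) * (c y)⁻¹) := by
      ext y <;> simp
    rwa [h2] at h1
  · intro h
    apply hx
    have h : c (a • x) * c' (a⁻¹ • a • x) * (c (a • x))⁻¹ = 1 := h
    rw [inv_smul_smul] at h
    have := mul_inv_eq_one.1 h
    exact mul_eq_left.1 this

lemma B₀_le_Bim {Q : Subgroup (PP T A X → T)} (hQ : Q ≤ TW T X B₀) : B₀ ≤ Bim (Nn Q) :=
  fun b hb => ⟨fun _ => 1, β_mem_Nn hQ hb⟩

/-- (G3) -/
lemma Ssup_ne [Finite X] (hT : ∃ s t : T, s * t ≠ t * s)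
    {Q : Subgroup (PP T A X → T)} (hQ : Q ≤ TW T X B₀) (hL : LInv Q)
    (hne : Q ≠ ⊥) : Ssup (Nn Q) ≠ univ := by
  classical
  intro hS
  have := Fintype.ofFinite X
  have hγ : ∀ c : X → T, γ c ∈ Nn Q → ∀ d : T, γ (fun y => d * c y * d⁻¹) ∈ Nn Q := by
    intro c hc d
    have := Nn_conj hQ hc d
    have h2 : (ι d * γ c * (ι d)⁻¹ : PP T A X) = γ (fun y => d * c y * d⁻¹) := by
      ext y <;> simp
    rwa [h2] at this
  have hγm : ∀ c c' : X → T, γ c ∈ Nn Q → γ c' ∈ Nn Q → γ (fun y => c y * c' y) ∈ Nn Q := by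
    intro c c' hc hc'
    have := mul_mem hc hc'
    have h2 : (γ c * γ c' : PP T A X) = γ (fun y => c y * c' y) := by
      ext y <;> simp
    rwa [h2] at this
  have hγi : ∀ c : X → T, γ c ∈ Nn Q → γ (fun y => (c y)⁻¹) ∈ Nn Q := by
    intro c hc
    have := inv_mem hc
    have h2 : ((γ c)⁻¹ : PP T A X) = γ (fun y => (c y)⁻¹) := by
      ext y <;> simp
    rwa [h2] at this
  have key : ∀ Y : Finset X, ∀ t : T, ∃ c : X → T, γ c ∈ Nn Q ∧ ∀ y ∈ Y, c y = t := by
    have aux : ∀ Y : Finset X, (∃ c : X → T, ∃ t, γ c ∈ Nn Q ∧ (∀ y ∈ Y, c y = t) ∧ t ≠ 1) →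
        ∀ t : T, ∃ c : X → T, γ c ∈ Nn Q ∧ ∀ y ∈ Y, c y = t := by
      rintro Y ⟨c, t, hc, hct, ht⟩
      let E : Subgroup T :=
        { carrier := {t | ∃ c : X → T, γ c ∈ Nn Q ∧ ∀ y ∈ Y, c y = t}
          mul_mem' := by
            rintro a b ⟨f, hf, h1⟩ ⟨g, hg, h2⟩
            exact ⟨_, hγm _ _ hf hg, fun y hy => by rw [h1 y hy, h2 y hy]⟩
          one_mem' := ⟨fun _ => 1, one_mem _, fun y hy => rfl⟩
          inv_mem' := by
            rintro a ⟨f, hf, h1⟩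
            exact ⟨_, hγi _ hf, fun y hy => by rw [h1 y hy]⟩ }
      have hE : E = ⊤ := by
        refine eq_top_of_conj (E := E) ?_ (x := t) ⟨c, hc, hct⟩ ht
        rintro s x ⟨f, hf, hfx⟩
        exact ⟨_, hγ f hf s, fun y hy => by rw [hfx y hy]⟩
      intro t
      have : t ∈ E := by rw [hE]; trivial
      exact this
    intro Y
    induction Y using Finset.induction_on with
    | empty => exact fun t => ⟨fun _ => 1, one_mem _, by simp⟩
    | insert x Y hxY ih =>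
      apply aux
      obtain ⟨s, t, hst⟩ := hT
      obtain ⟨c₁, h1, h1Y⟩ := ih s
      have hx : x ∈ Ssup (Nn Q) := by rw [hS]; trivial
      obtain ⟨c₀, h0, h0x⟩ := hx
      obtain ⟨c₂, h2, h2Y⟩ := aux {x} ⟨c₀, c₀ x, h0, by simp, h0x⟩ t
      have h2x : c₂ x = t := h2Y x (by simp)
      -- the commutator of `c₁⁻¹ s` and `c₂⁻¹ t`
      refine ⟨fun y => ((c₁ y)⁻¹ * (s * (c₂ y)⁻¹ * s⁻¹)) *
        (((s * t * s⁻¹) * c₁ y * (s * t * s⁻¹)⁻¹) *
          ((s * t * s⁻¹ * t⁻¹) * c₂ y * (s * t * s⁻¹ * t⁻¹)⁻¹)),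
        t * s * t⁻¹ * s⁻¹, ?_, ?_, ?_⟩
      · exact hγm _ _ (hγm _ _ (hγi _ h1) (hγ _ (hγi _ h2) s))
          (hγm _ _ (hγ _ h1 _) (hγ _ h2 _))
      · intro y hy
        rcases Finset.mem_insert.1 hy with rfl | hy
        · simp only [h2x]; group
        · simp only [h1Y y hy]; group
      · intro h
        apply hst
        have : t * s * (s * t)⁻¹ = 1 := by
          rw [mul_inv_rev]; simpa [mul_assoc] using h
        exact (mul_inv_eq_one.1 this).symm
  obtain ⟨s, t, hst⟩ := hT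
  have hall : ∀ d : T, d = 1 := by
    intro d
    obtain ⟨c, hc, hcd⟩ := key Finset.univ d
    apply ι_mem_Nn ⟨s, t, hst⟩ hQ hL hne
    have : (ι d : PP T A X) = γ c := by
      ext y
      · simp [hcd y (Finset.mem_univ y)]
      · simp
    rw [this]; exact hc
  exact hst (by rw [hall s, hall t])

end Simple

end

end Pool.Agent.Helper95.Wedge
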